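import Mathlib

/-!
# Two-level sequences near m-sequences (MP_2050e9): definitions

`Per n s`, `Span n s`, `TwoLevel n s`, `Rec n c s` are the conditions of the frozen statement S07595.
-/

namespace Pool.Agent.GolS

/-- The sign of a bit. -/
def eps (b : ZMod 2) : ℤ := if b = 0 then 1 else -1

@[simp] lemma eps_zero : eps 0 = 1 := rfl

@[simp] lemma eps_one : eps 1 = -1 := rfl

lemma eps_add (a b : ZMod 2) : eps (a + b) = eps a * eps b := by
  revert a b
  decide

@[simp] lemma eps_mul_self (a : ZMod 2) : eps a * eps a = 1 := by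
  revert a
  decide

lemma eps_eq (a : ZMod 2) : eps a = 1 ∨ eps a = -1 := by
  revert a
  decide

lemma abs_eps (a : ZMod 2) : |eps a| = 1 := by
  revert a
  decide

lemma eps_inj {a b : ZMod 2} : eps a = eps b ↔ a = b := by
  revert a b
  decide

/-- Period `2^n - 1`. -/
def Per (n : ℕ) (s : ℕ → ZMod 2) : Prop := ∀ i : ℕ, s (i + (2 ^ n - 1)) = s i

/-- The span-`n` property. -/
def Span (n : ℕ) (s : ℕ → ZMod 2) : Prop :=
  ∀ w : Fin n → ZMod 2, w ≠ 0 → ∃! i : ℕ, i < 2 ^ n - 1 ∧ ∀ j : Fin n, s (i + (j : ℕ)) = w j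

/-- Two-level autocorrelation. -/
def TwoLevel (n : ℕ) (s : ℕ → ZMod 2) : Prop :=
  ∀ τ : ℕ, 0 < τ → τ < 2 ^ n - 1 →
    ((Finset.range (2 ^ n - 1)).filter (fun i => s i ≠ s (i + τ))).card = 2 ^ (n - 1)

/-- A linear recurrence of order `n`. -/
def Rec (n : ℕ) (c : Fin n → ZMod 2) (s : ℕ → ZMod 2) : Prop :=
  ∀ i : ℕ, s (i + n) = ∑ j : Fin n, c j * s (i + (j : ℕ))

/-- m-sequences of degree `n`: the windows of length `n` run through all nonzero words, and a linear
recurrence of order `n` holds. -/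
def MSeq (n : ℕ) (s : ℕ → ZMod 2) : Prop := Per n s ∧ Span n s ∧ ∃ c : Fin n → ZMod 2, Rec n c s

section Kl

variable {F : Type} [Field F] [Fintype F] [DecidableEq F]

/-- The Kloosterman sum of an additive map to `𝔽₂`. -/
def kl (l : F →+ ZMod 2) (a b : F) : ℤ :=
  ∑ y : Fˣ, eps (l (a * (y : F) + b * ((y⁻¹ : Fˣ) : F)))

end Kl

/-- The absolute trace of a finite field of characteristic 2. -/
noncomputable def tr2 (F : Type) [Field F] [CharP F 2] : F →+ ZMod 2 :=
  letI := ZMod.algebra F 2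
  (Algebra.trace (ZMod 2) F).toAddMonoidHom

end Pool.Agent.GolS
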