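import Pool.Agent.GolS.Defs

/-!
# Module Fld: the field of an m-sequence

Let `V = Fin n → ZMod 2`, `w(i) = (u (i + j))_j ∈ V`, `C : V →ₗ V` the companion map
(`(C x)_j = x_{j+1}` for `j + 1 < n`, `(C x)_{n-1} = ∑ c_j x_j`), so `w(i+1) = C w(i)`.
* By `Span` the map (nonzero word) ↦ (position `< p = 2^n - 1`) is injective between sets of the same
  size `p`, so `i ↦ w(i)`, `i < p`, is a bijection onto `V \ {0}`.
* Let `A = Algebra.adjoin (ZMod 2) {C} ⊆ Module.End (ZMod 2) V`, a commutative ring, `v = w(0)`.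
  For `a ∈ A`, `a v = 0` implies `a w(i) = a C^i v = C^i a v = 0` for all `i`, so `a = 0`. For
  `a ≠ 0` we have `a v ≠ 0`, so `a v = w(i) = C^i v` and `a = C^i`. `C^p v = w(p) = w(0) = v` so
  `C^p = 1`. Hence the nonzero elements of `A` are the powers of `C`, all of them invertible: `A` is
  a field; `a ↦ a v` is a bijection `A → V`, so `card A = 2^n`; `C` generates `Aˣ`.
* `l(a) = (a v)_0` (coordinate `0`), `l(C^i) = w(i)_0 = u i`. `l ≠ 0` as `u` is not zero.
(`F` must be in `Type`; `A` is.) Any other construction of `F` is fine as well.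
-/

namespace Pool.Agent.GolS

private theorem fld_mk {n : ℕ} {u : ℕ → ZMod 2} (A : Type) [CommRing A] (hfin : Finite A)
    (h10 : (1 : A) ≠ 0) (h2 : (2 : A) = 0) (α : Aˣ)
    (hall : ∀ a : A, a ≠ 0 → ∃ i : ℕ, a = (α : A) ^ i) (l : A →+ ZMod 2) (hl : l ≠ 0)
    (hcard : Nat.card A = 2 ^ n) (hu : ∀ i, u i = l ((α : A) ^ i)) :
    ∃ (F : Type) (_ : Field F) (_ : Fintype F) (_ : DecidableEq F) (_ : CharP F 2) (α : Fˣ)
      (l : F →+ ZMod 2), Fintype.card F = 2 ^ n ∧ (∀ x : Fˣ, x ∈ Subgroup.zpowers α) ∧ l ≠ 0 ∧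
      ∀ i : ℕ, u i = l ((α ^ i : Fˣ) : F) := by
  classical
  have hF : IsField A :=
    { exists_pair_ne := ⟨1, 0, h10⟩
      mul_comm := mul_comm
      mul_inv_cancel := by
        intro a ha
        obtain ⟨i, rfl⟩ := hall a ha
        refine ⟨((α⁻¹ : Aˣ) : A) ^ i, ?_⟩
        rw [← mul_pow, Units.mul_inv, one_pow] }
  have hgen : ∀ x : Aˣ, x ∈ Subgroup.zpowers α := by
    intro x
    have hx : (x : A) ≠ 0 := by
      intro h0
      apply h10
      have := x.mul_inv
      rw [h0, zero_mul] at this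
      exact this.symm
    obtain ⟨i, hi⟩ := hall x hx
    refine ⟨i, ?_⟩
    apply Units.ext
    simp only [zpow_natCast, Units.val_pow_eq_pow_val]
    exact hi.symm
  have hu' : ∀ i : ℕ, u i = l ((α ^ i : Aˣ) : A) := by
    intro i
    rw [Units.val_pow_eq_pow_val]
    exact hu i
  have hch : CharP A 2 := CharTwo.of_one_ne_zero_of_two_eq_zero h10 h2
  let fi : Fintype A := Fintype.ofFinite A
  have hc : Fintype.card A = 2 ^ n := by rw [← hcard, Nat.card_eq_fintype_card]
  exact ⟨A, hF.toField, fi, Classical.decEq A, hch, α, l, hc, hgen, hl, hu'⟩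

/-- the companion map -/
private def cmp (n : ℕ) (c : Fin n → ZMod 2) : (Fin n → ZMod 2) →ₗ[ZMod 2] (Fin n → ZMod 2) where
  toFun x := fun j => if h : (j : ℕ) + 1 < n then x ⟨(j : ℕ) + 1, h⟩ else ∑ k, c k * x k
  map_add' := by
    intro x y
    funext j
    simp only [Pi.add_apply]
    split_ifs with h
    · rfl
    · simp only [mul_add, Finset.sum_add_distrib]
  map_smul' := by
    intro r x
    funext j
    simp only [Pi.smul_apply, RingHom.id_apply, smul_eq_mul]
    split_ifs with h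
    · rfl
    · rw [Finset.mul_sum]
      exact Finset.sum_congr rfl fun k _ => by ring

private theorem cmp_w {n : ℕ} {c : Fin n → ZMod 2} {u : ℕ → ZMod 2} (hr : Rec n c u) (i : ℕ) :
    cmp n c (fun j => u (i + (j : ℕ))) = (fun j : Fin n => u (i + 1 + (j : ℕ))) := by
  funext j
  change (if h : (j : ℕ) + 1 < n then u (i + ((j : ℕ) + 1)) else ∑ k, c k * u (i + (k : ℕ))) = _
  split_ifs with h
  · congr 1
    ring
  · rw [← hr i]
    congr 1
    have := j.2
    omega

private theorem cmp_pow {n : ℕ} {c : Fin n → ZMod 2} {u : ℕ → ZMod 2} (hr : Rec n c u) (i : ℕ) :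
    ((cmp n c) ^ i) (fun j => u ((j : ℕ))) = (fun j : Fin n => u (i + (j : ℕ))) := by
  induction i with
  | zero => simp
  | succ i ih => rw [pow_succ', Module.End.mul_apply, ih, cmp_w hr]

theorem exists_field {n : ℕ} (hn : 1 ≤ n) {u : ℕ → ZMod 2} (hu : MSeq n u) :
    ∃ (F : Type) (_ : Field F) (_ : Fintype F) (_ : DecidableEq F) (_ : CharP F 2) (α : Fˣ)
      (l : F →+ ZMod 2), Fintype.card F = 2 ^ n ∧ (∀ x : Fˣ, x ∈ Subgroup.zpowers α) ∧ l ≠ 0 ∧
      ∀ i : ℕ, u i = l ((α ^ i : Fˣ) : F) := by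
  classical
  obtain ⟨hper, hspan, c, hr⟩ := hu
  set C : Module.End (ZMod 2) (Fin n → ZMod 2) := cmp n c with hC
  set v : Fin n → ZMod 2 := fun j => u (j : ℕ) with hv
  have hpow : ∀ i : ℕ, (C ^ i) v = (fun j : Fin n => u (i + (j : ℕ))) := fun i => cmp_pow hr i
  have hx : ∀ x : Fin n → ZMod 2, x ≠ 0 → ∃ i : ℕ, (C ^ i) v = x := by
    intro x hx
    obtain ⟨i, ⟨_, hi⟩, _⟩ := hspan x hx
    refine ⟨i, ?_⟩
    rw [hpow]
    funext j
    exact hi j
  have hz : (0 : ℕ) < n := hn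
  have hone : (fun _ : Fin n => (1 : ZMod 2)) ≠ 0 := by
    intro h
    have := congrFun h ⟨0, hz⟩
    simp at this
  have hv0 : v ≠ 0 := by
    intro h0
    obtain ⟨i, hi⟩ := hx _ hone
    rw [h0, map_zero] at hi
    exact hone hi.symm
  have hcomm : ∀ a ∈ ({C} : Set (Module.End (ZMod 2) (Fin n → ZMod 2))),
      ∀ b ∈ ({C} : Set (Module.End (ZMod 2) (Fin n → ZMod 2))), a * b = b * a := by
    intro a ha b hb
    rw [Set.mem_singleton_iff] at ha hb
    rw [ha, hb]
  set A := Algebra.adjoin (ZMod 2) ({C} : Set (Module.End (ZMod 2) (Fin n → ZMod 2))) with hA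
  have hmc : IsMulCommutative A := Algebra.isMulCommutative_adjoin (ZMod 2) hcomm
  have hmul0 : ∀ a b : A, a * b = b * a := fun a b => hmc.is_comm.comm a b
  have hmul : ∀ a b : A, (a : Module.End (ZMod 2) (Fin n → ZMod 2)) * b = b * a := by
    intro a b
    exact congrArg Subtype.val (hmul0 a b)
  have hCA : C ∈ A := Algebra.subset_adjoin rfl
  have hker : ∀ a : A, (a : Module.End (ZMod 2) (Fin n → ZMod 2)) v = 0 → a = 0 := by
    intro a ha
    apply Subtype.ext
    apply LinearMap.ext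
    intro x
    change (a : Module.End (ZMod 2) (Fin n → ZMod 2)) x = 0
    by_cases hx0 : x = 0
    · rw [hx0, map_zero]
    · obtain ⟨i, hi⟩ := hx x hx0
      rw [← hi, ← Module.End.mul_apply, hmul a ⟨C ^ i, pow_mem hCA i⟩, Module.End.mul_apply, ha,
        map_zero]
  have hinj : ∀ a b : A, (a : Module.End (ZMod 2) (Fin n → ZMod 2)) v = b.1 v → a = b := by
    intro a b hab
    have h1 := hker (a - b) (by
      change (a.1 - b.1) v = 0
      rw [LinearMap.sub_apply, hab, sub_self])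
    exact sub_eq_zero.1 h1
  have hp0 : 0 < 2 ^ n - 1 := by
    have : 2 ^ 1 ≤ 2 ^ n := Nat.pow_le_pow_right (by norm_num) hn
    omega
  set g : A := ⟨C, hCA⟩ with hg
  have hgpow : ∀ i : ℕ, ((g ^ i : A) : Module.End (ZMod 2) (Fin n → ZMod 2)) = C ^ i := by
    intro i
    induction i with
    | zero => rfl
    | succ i ih =>
      rw [pow_succ, pow_succ, ← ih]
      rfl
  have hgp : g ^ (2 ^ n - 1) = 1 := by
    apply hinj
    rw [hgpow, hpow]
    funext j
    change u (2 ^ n - 1 + (j : ℕ)) = u (j : ℕ)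
    rw [add_comm]
    exact hper _
  have hgg : g * g ^ (2 ^ n - 1 - 1) = 1 := by
    rw [← pow_succ', Nat.sub_add_cancel hp0, hgp]
  let α : Aˣ := ⟨g, g ^ (2 ^ n - 1 - 1), hgg, by rw [hmul0]; exact hgg⟩
  have hall : ∀ a : A, a ≠ 0 → ∃ i : ℕ, a = (α : A) ^ i := by
    intro a ha
    have h1 : (a : Module.End (ZMod 2) (Fin n → ZMod 2)) v ≠ 0 := fun h => ha (hker a h)
    obtain ⟨i, hi⟩ := hx _ h1
    refine ⟨i, ?_⟩
    apply hinj
    change _ = ((g ^ i : A) : Module.End (ZMod 2) (Fin n → ZMod 2)) v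
    rw [hgpow, hi]
  let l : A →+ ZMod 2 :=
    { toFun := fun a => (a : Module.End (ZMod 2) (Fin n → ZMod 2)) v ⟨0, hz⟩
      map_zero' := rfl
      map_add' := fun a b => rfl }
  have hlu : ∀ i, u i = l ((α : A) ^ i) := by
    intro i
    change _ = ((g ^ i : A) : Module.End (ZMod 2) (Fin n → ZMod 2)) v ⟨0, hz⟩
    rw [hgpow, hpow]
    rfl
  have hl : l ≠ 0 := by
    intro h0
    obtain ⟨i, ⟨_, hi⟩, _⟩ := hspan _ hone
    have h1 := hi ⟨0, hz⟩
    have h2 := hlu (i + 0)
    rw [h0] at h2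
    change u (i + 0) = 1 at h1
    rw [h1] at h2
    simp at h2
  have hbij : Function.Bijective
      (fun a : A => (a : Module.End (ZMod 2) (Fin n → ZMod 2)) v) := by
    refine ⟨fun a b hab => hinj a b hab, fun x => ?_⟩
    by_cases hx0 : x = 0
    · refine ⟨0, ?_⟩
      rw [hx0]
      rfl
    · obtain ⟨i, hi⟩ := hx x hx0
      exact ⟨⟨C ^ i, pow_mem hCA i⟩, hi⟩
  have hfin : Finite A := Finite.of_injective _ hbij.1
  have hcard : Nat.card A = 2 ^ n := by
    rw [Nat.card_congr (Equiv.ofBijective _ hbij), Nat.card_eq_fintype_card, Fintype.card_fun,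
      ZMod.card, Fintype.card_fin]
  have h10 : (1 : A) ≠ 0 := by
    intro h
    apply hv0
    have h1 : ((1 : A) : Module.End (ZMod 2) (Fin n → ZMod 2)) v = v := rfl
    rw [← h1, h]
    rfl
  have h2 : (2 : A) = 0 := by
    have h3 : (2 : A) = 1 + 1 := one_add_one_eq_two.symm
    rw [h3]
    apply hker
    change v + v = 0
    funext j
    exact CharTwo.add_self_eq_zero (v j)
  exact @fld_mk n u A { (inferInstance : Ring A) with mul_comm := hmul0 } hfin h10 h2 α hall l hl
    hcard hlu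

end Pool.Agent.GolS
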