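import Pool.Agent.GolS.Defs

/-!
# Module FldInv: additive maps give m-sequences

`F` a field with `2^n` elements, `α` a generator of `Fˣ`, `l : F → 𝔽₂` additive, `l ≠ 0`. Then
`s_i = l (α^i)` is an m-sequence of degree `n`.
* `Per`: `α^(2^n-1) = 1`.
* `Rec`: `1, α, …, α^{n-1}` is a basis of `F` over `𝔽₂` (`𝔽₂(α) = F` as `α` generates `Fˣ`, degree `n`), so
  `α^n = ∑ c_j α^j`; multiply by `α^i` and apply `l`.
* `Span`: `L : F → (Fin n → 𝔽₂)`, `x ↦ (l (α^j x))_j` is additive and injective: if `l (α^j x) = 0` for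
  all `j < n` then `l (y x) = 0` for all `y ∈ F`, so `x = 0` (else `l = 0`). `|F| = 2^n`, so `L` is
  bijective; nonzero words correspond to `x ∈ Fˣ`, i.e. to `x = α^i` with a unique `i < 2^n - 1`.
-/

namespace Pool.Agent.GolS

section FInv

variable {n : ℕ} {F : Type} [Field F] [Fintype F] [CharP F 2]

/-- the power `α ^ n` is a combination of the lower powers -/
private lemma fi_rel (hF : Fintype.card F = 2 ^ n) (α : Fˣ)
    (hα : ∀ x : Fˣ, x ∈ Subgroup.zpowers α) (l : F →+ ZMod 2) :
    ∃ c : Fin n → ZMod 2, ∀ x : F,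
      l (((α ^ n : Fˣ) : F) * x) = ∑ j : Fin n, c j * l (((α ^ (j : ℕ) : Fˣ) : F) * x) := by
  letI := ZMod.algebra F 2
  have hfin : Module.finrank (ZMod 2) F = n := by
    have h1 := Module.card_eq_pow_finrank (K := ZMod 2) (V := F)
    rw [hF, ZMod.card] at h1
    exact (Nat.pow_right_injective le_rfl h1).symm
  have htop : IntermediateField.adjoin (ZMod 2) {(α : F)} = ⊤ := by
    rw [eq_top_iff]
    intro x _
    rcases eq_or_ne x 0 with rfl | hx
    · exact zero_mem _
    · obtain ⟨k, hk⟩ := hα (Units.mk0 x hx)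
      have e : ((α ^ k : Fˣ) : F) = x := by
        have := congrArg Units.val hk
        simpa using this
      rw [← e, Units.val_zpow_eq_zpow_val]
      exact zpow_mem (IntermediateField.mem_adjoin_simple_self _ _) k
  have hint : IsIntegral (ZMod 2) (α : F) := IsIntegral.of_finite _ _
  have hdeg : (minpoly (ZMod 2) (α : F)).natDegree = n := by
    rw [← IntermediateField.adjoin.finrank hint, htop, IntermediateField.finrank_top', hfin]
  have hmon := minpoly.monic hint
  have hz := minpoly.aeval (ZMod 2) (α : F)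
  rw [Polynomial.aeval_eq_sum_range, hdeg, Finset.sum_range_succ] at hz
  have hlead : (minpoly (ZMod 2) (α : F)).coeff n = 1 := by
    have := hmon.coeff_natDegree
    rwa [hdeg] at this
  rw [hlead, one_smul] at hz
  refine ⟨fun j => -(minpoly (ZMod 2) (α : F)).coeff j, fun x => ?_⟩
  have h2 : ((α ^ n : Fˣ) : F) * x = ∑ j : Fin n, (-(minpoly (ZMod 2) (α : F)).coeff j) •
      (((α ^ (j : ℕ) : Fˣ) : F) * x) := by
    rw [Fin.sum_univ_eq_sum_range (fun j => (-(minpoly (ZMod 2) (α : F)).coeff j) •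
      (((α ^ j : Fˣ) : F) * x)) n]
    have h3 : (α : F) ^ n = ∑ j ∈ Finset.range n,
        (-(minpoly (ZMod 2) (α : F)).coeff j) • (α : F) ^ j := by
      have h4 : (α : F) ^ n = -∑ j ∈ Finset.range n,
          (minpoly (ZMod 2) (α : F)).coeff j • (α : F) ^ j := by
        rw [eq_neg_iff_add_eq_zero, add_comm]
        exact hz
      rw [h4, ← Finset.sum_neg_distrib]
      exact Finset.sum_congr rfl fun j _ => (neg_smul _ _).symm
    rw [Units.val_pow_eq_pow_val, h3, Finset.sum_mul]
    refine Finset.sum_congr rfl fun j _ => ?_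
    rw [Units.val_pow_eq_pow_val, smul_mul_assoc]
  rw [h2, map_sum]
  refine Finset.sum_congr rfl fun j _ => ?_
  rw [ZMod.map_smul, smul_eq_mul]

end FInv

theorem mseq_of_field {n : ℕ} (hn : 1 ≤ n) {F : Type} [Field F] [Fintype F] [CharP F 2]
    (hF : Fintype.card F = 2 ^ n) (α : Fˣ) (hα : ∀ x : Fˣ, x ∈ Subgroup.zpowers α) (l : F → ZMod 2)
    (hl : ∀ x y, l (x + y) = l x + l y) (hl0 : ∃ x, l x ≠ 0) :
    MSeq n (fun i => l ((α ^ i : Fˣ) : F)) := by
  have hord : orderOf α = 2 ^ n - 1 := by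
    rw [orderOf_eq_card_of_forall_mem_zpowers hα, Nat.card_units, Nat.card_eq_fintype_card, hF]
  obtain ⟨c, hc⟩ := fi_rel hF α hα (AddMonoidHom.mk' l hl)
  have hc' : ∀ x : F, l (((α ^ n : Fˣ) : F) * x)
      = ∑ j : Fin n, c j * l (((α ^ (j : ℕ) : Fˣ) : F) * x) := hc
  -- injectivity of the word map
  have hinj : ∀ x : F, (∀ j : Fin n, l (((α ^ (j : ℕ) : Fˣ) : F) * x) = 0) → x = 0 := by
    intro x hx
    by_contra hx0
    have hall : ∀ m : ℕ, l (((α ^ m : Fˣ) : F) * x) = 0 := by
      intro m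
      induction m using Nat.strong_induction_on with
      | _ m ih =>
        rcases lt_or_ge m n with hm | hm
        · exact hx ⟨m, hm⟩
        · have e : ((α ^ m : Fˣ) : F) * x = ((α ^ n : Fˣ) : F) * (((α ^ (m - n) : Fˣ) : F) * x) := by
            rw [← mul_assoc, ← Units.val_mul, ← pow_add]
            congr 3
            omega
          rw [e, hc']
          refine Finset.sum_eq_zero fun j _ => ?_
          have e2 : ((α ^ (j : ℕ) : Fˣ) : F) * (((α ^ (m - n) : Fˣ) : F) * x)
              = ((α ^ ((j : ℕ) + (m - n)) : Fˣ) : F) * x := by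
            rw [← mul_assoc, ← Units.val_mul, ← pow_add]
          have hj := j.2
          rw [e2, ih _ (by omega), mul_zero]
    obtain ⟨z, hz⟩ := hl0
    apply hz
    rcases eq_or_ne z 0 with rfl | hz0
    · have := hl 0 0
      rw [add_zero] at this
      exact left_eq_add.1 this
    · have hzx : z / x ≠ 0 := div_ne_zero hz0 hx0
      obtain ⟨k, hk⟩ := (mem_powers_iff_mem_zpowers).2 (hα (Units.mk0 (z / x) hzx))
      have e : ((α ^ k : Fˣ) : F) = z / x := by
        have := congrArg Units.val hk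
        simpa using this
      have := hall k
      rw [e, div_mul_cancel₀ _ hx0] at this
      exact this
  refine ⟨?_, ?_, c, ?_⟩
  · intro i
    show l _ = l _
    rw [pow_add, ← hord, pow_orderOf_eq_one, mul_one]
  · let v : Fin (2 ^ n - 1) → {w : Fin n → ZMod 2 // w ≠ 0} := fun t =>
      ⟨fun j => l ((α ^ ((t : ℕ) + (j : ℕ)) : Fˣ) : F), by
        intro hcon
        have h1 := hinj ((α ^ (t : ℕ) : Fˣ) : F) (by
          intro j
          have := congrFun hcon j
          rw [← Units.val_mul, ← pow_add, add_comm]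
          exact this)
        exact (Units.ne_zero _) h1⟩
    have hvinj : Function.Injective v := by
      intro a b hab
      have hab' : ∀ j : Fin n, l ((α ^ ((a : ℕ) + (j : ℕ)) : Fˣ) : F)
          = l ((α ^ ((b : ℕ) + (j : ℕ)) : Fˣ) : F) := fun j =>
        congrFun (congrArg Subtype.val hab) j
      have h1 := hinj (((α ^ (a : ℕ) : Fˣ) : F) + ((α ^ (b : ℕ) : Fˣ) : F)) (by
        intro j
        rw [mul_add, hl, ← Units.val_mul, ← Units.val_mul, ← pow_add, ← pow_add,
          add_comm (j : ℕ) a, add_comm (j : ℕ) b, hab' j]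
        exact CharTwo.add_self_eq_zero _)
      have h2 : ((α ^ (a : ℕ) : Fˣ) : F) = ((α ^ (b : ℕ) : Fˣ) : F) := CharTwo.add_eq_zero.1 h1
      have h3 : (α ^ (a : ℕ) : Fˣ) = α ^ (b : ℕ) := Units.ext h2
      exact Fin.ext (pow_injOn_Iio_orderOf (by rw [Set.mem_Iio, hord]; exact a.2)
        (by rw [Set.mem_Iio, hord]; exact b.2) h3)
    have hcard : Fintype.card (Fin (2 ^ n - 1)) = Fintype.card {w : Fin n → ZMod 2 // w ≠ 0} := by
      rw [Fintype.card_fin, Fintype.card_subtype_compl, Fintype.card_fun, ZMod.card,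
        Fintype.card_fin]
      simp
    have hbij := (Fintype.bijective_iff_injective_and_card v).2 ⟨hvinj, hcard⟩
    intro w hw0
    obtain ⟨t, ht⟩ := hbij.2 ⟨w, hw0⟩
    have htw : ∀ j : Fin n, l ((α ^ ((t : ℕ) + (j : ℕ)) : Fˣ) : F) = w j := fun j =>
      congrFun (congrArg Subtype.val ht) j
    refine ⟨t, ⟨t.2, htw⟩, ?_⟩
    rintro i ⟨hi, hiw⟩
    have h5 : v ⟨i, hi⟩ = v t := by
      rw [ht]
      apply Subtype.ext
      funext j
      exact hiw j
    have := hvinj h5
    rw [← this]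
  · intro i
    show l _ = ∑ j : Fin n, c j * l _
    have e : ((α ^ (i + n) : Fˣ) : F) = ((α ^ n : Fˣ) : F) * ((α ^ i : Fˣ) : F) := by
      rw [← Units.val_mul, ← pow_add, add_comm]
    rw [e, hc']
    refine Finset.sum_congr rfl fun j _ => ?_
    rw [← Units.val_mul, ← pow_add, add_comm]

end Pool.Agent.GolS
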