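import Pool.Agent.GolS.Defs

/-!
# Module GapC: the gap inequality in a field

`F` a finite field of characteristic 2, `q = card F`, `b(x) = eps (l x)` with `l ≠ 0` additive,
`f : Fˣ → 𝔽₂` with two-level autocorrelation, `e = {x ∈ Fˣ : f x ≠ l x}`, `w = |e|`.
Assume `|kl l x z| ≤ 2 √q` for all `x, z ≠ 0`. Then `w = 0` or `q ≤ 2 w² + (2 √q + 1) w`.

Proof.
* `∑_{x ∈ Fˣ} b(x) b(x y) = ∑_x eps (l (x (1 + y))) = -1` for `y ≠ 1` (sum over all `x ∈ F` is `0` as
  `x ↦ l (x (1 + y))` is a nonzero additive map).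
* With `χ = 1_e`: `eps (f x) = b(x) (1 - 2 χ(x))`. So for all `y ∈ Fˣ` (for `y = 1` both sums are
  `q - 1`)
  `0 = ∑_x (eps (f x) eps (f (x y)) - b(x) b(x y))
     = ∑_x b(x) b(x y) (-2 χ(x) - 2 χ(x y) + 4 χ(x) χ(x y))`, i.e.
  `Φ(y) = 2 R(y)` with `Φ(y) = ∑_{x ∈ e} b(x) (b(x y) + b(x y⁻¹))` and
  `R(y) = ∑_{x ∈ e, x y ∈ e} b(x) b(x y)`.
* `|R(y)| ≤ w` and `∑_y |R(y)| ≤ #{(x,x') ∈ e × e} = w²`, so `∑_y R(y)² ≤ w³`.
* `∑_y Φ(y)² = ∑_{x,z ∈ e} b(x) b(z) ∑_y [b((x+z) y) + b((x+z) y⁻¹) + b(x y + z y⁻¹) + b(x y⁻¹ + z y)]`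
  (`b(u) b(v) = b(u + v)`), and `∑_{y ∈ Fˣ} b((x+z) y) = q·1_{x=z} - 1`, the last two sums are
  `kl l x z` and `kl l z x` (`= kl l x z`, `y ↦ y⁻¹`). So
  `∑_y Φ(y)² = 2 q w - 2 (∑_{x∈e} b(x))² + 2 ∑_{x,z∈e} b(x) b(z) kl l x z ≥ 2 q w - 2 w² - 4 √q w²`.
* So `2 q w - 2 w² - 4 √q w² ≤ 4 w³`; divide by `2 w` if `w ≠ 0`.
-/

namespace Pool.Agent.GolS

section GapCore

variable {F : Type} [Field F] [Fintype F] [DecidableEq F]

/-- the real valued additive character -/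
noncomputable def bR (l : F →+ ZMod 2) (x : F) : ℝ := ((eps (l x) : ℤ) : ℝ)

lemma bR_add (l : F →+ ZMod 2) (x y : F) : bR l (x + y) = bR l x * bR l y := by
  unfold bR
  rw [map_add, eps_add]
  push_cast
  rfl

lemma bR_zero (l : F →+ ZMod 2) : bR l 0 = 1 := by
  unfold bR
  rw [map_zero]
  simp

lemma bR_mul_self (l : F →+ ZMod 2) (x : F) : bR l x * bR l x = 1 := by
  unfold bR
  have := eps_mul_self (l x)
  exact_mod_cast this

lemma abs_bR (l : F →+ ZMod 2) (x : F) : |bR l x| = 1 := by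
  unfold bR
  have := abs_eps (l x)
  exact_mod_cast this

lemma sum_units (g : F → ℝ) : ∑ x : Fˣ, g (x : F) = ∑ x : F, g x - g 0 := by
  have h1 : ∑ x : F, g x = g 0 + ∑ x ∈ Finset.univ.erase (0 : F), g x :=
    (Finset.add_sum_erase _ _ (Finset.mem_univ 0)).symm
  have h2 : ∑ x : Fˣ, g (x : F) = ∑ x ∈ Finset.univ.erase (0 : F), g x := by
    refine Finset.sum_bij (fun x _ => (x : F)) ?_ ?_ ?_ ?_
    · intro a _
      simp
    · intro a _ b _ h
      exact Units.ext h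
    · intro b hb
      exact ⟨Units.mk0 b (by simpa using hb), Finset.mem_univ _, rfl⟩
    · intros
      rfl
  rw [h1, h2]
  ring

lemma sum_bR_mul {l : F →+ ZMod 2} (hl : l ≠ 0) {c : F} (hc : c ≠ 0) :
    ∑ x : F, bR l (c * x) = 0 := by
  obtain ⟨x0, hx0⟩ : ∃ x0 : F, l (c * x0) ≠ 0 := by
    by_contra hcon
    push Not at hcon
    apply hl
    ext x
    have := hcon (c⁻¹ * x)
    rw [mul_inv_cancel_left₀ hc] at this
    rw [this]
    rfl
  have hb : bR l (c * x0) = -1 := by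
    unfold bR
    have : eps (l (c * x0)) = -1 := by
      unfold eps
      rw [if_neg hx0]
    rw [this]
    norm_num
  have h1 : ∑ x : F, bR l (c * x) = ∑ x : F, bR l (c * (x + x0)) :=
    (Equiv.sum_comp (Equiv.addRight x0) (fun x => bR l (c * x))).symm
  have h2 : ∑ x : F, bR l (c * (x + x0)) = -∑ x : F, bR l (c * x) := by
    rw [← Finset.sum_neg_distrib]
    refine Finset.sum_congr rfl fun x _ => ?_
    rw [mul_add, bR_add, hb]
    ring
  linarith

lemma sum_bR_units {l : F →+ ZMod 2} (hl : l ≠ 0) {c : F} (hc : c ≠ 0) :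
    ∑ x : Fˣ, bR l (c * (x : F)) = -1 := by
  rw [sum_units (fun x => bR l (c * x)), sum_bR_mul hl hc, mul_zero, bR_zero]
  ring

lemma card_units_real : (∑ _x : Fˣ, (1 : ℝ)) = (Fintype.card F : ℝ) - 1 := by
  have h := sum_units (F := F) (fun _ => (1 : ℝ))
  rw [h]
  simp

lemma kl_real (l : F →+ ZMod 2) (a b : F) :
    ∑ y : Fˣ, bR l (a * (y : F) + b * ((y⁻¹ : Fˣ) : F)) = (kl l a b : ℝ) := by
  unfold kl bR
  push_cast
  rfl

lemma add_eq_zero_iff' [CharP F 2] (x z : Fˣ) : (x : F) + (z : F) = 0 ↔ x = z := by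
  rw [CharTwo.add_eq_zero]
  exact ⟨fun h => Units.ext h, fun h => by rw [h]⟩

lemma sum_bR_pair [CharP F 2] {l : F →+ ZMod 2} (hl : l ≠ 0) (x z : Fˣ) :
    ∑ y : Fˣ, bR l (((x : F) + (z : F)) * (y : F)) =
      (if x = z then (Fintype.card F : ℝ) else 0) - 1 := by
  by_cases h : x = z
  · have h0 : (x : F) + (z : F) = 0 := (add_eq_zero_iff' x z).2 h
    rw [h0, if_pos h, ← card_units_real]
    refine Finset.sum_congr rfl fun y _ => ?_
    rw [zero_mul, bR_zero]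
  · rw [if_neg h, sum_bR_units hl (fun h0 => h ((add_eq_zero_iff' x z).1 h0))]
    ring

lemma sum_bR_pair_inv [CharP F 2] {l : F →+ ZMod 2} (hl : l ≠ 0) (x z : Fˣ) :
    ∑ y : Fˣ, bR l (((x : F) + (z : F)) * ((y⁻¹ : Fˣ) : F)) =
      (if x = z then (Fintype.card F : ℝ) else 0) - 1 := by
  rw [← sum_bR_pair hl x z]
  exact Equiv.sum_comp (Equiv.inv Fˣ) (fun y : Fˣ => bR l (((x : F) + (z : F)) * (y : F)))

lemma sum_four [CharP F 2] {l : F →+ ZMod 2} (hl : l ≠ 0) (x z : Fˣ) :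
    ∑ y : Fˣ, (bR l ((x : F) * (y : F)) + bR l ((x : F) * ((y⁻¹ : Fˣ) : F))) *
      (bR l ((z : F) * (y : F)) + bR l ((z : F) * ((y⁻¹ : Fˣ) : F))) =
      2 * (if x = z then (Fintype.card F : ℝ) else 0) - 2 + (kl l x z + kl l z x) := by
  have h : ∀ y : Fˣ, (bR l ((x : F) * (y : F)) + bR l ((x : F) * ((y⁻¹ : Fˣ) : F))) *
      (bR l ((z : F) * (y : F)) + bR l ((z : F) * ((y⁻¹ : Fˣ) : F))) =
      bR l (((x : F) + (z : F)) * (y : F)) + bR l (((x : F) + (z : F)) * ((y⁻¹ : Fˣ) : F)) +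
      bR l ((x : F) * (y : F) + (z : F) * ((y⁻¹ : Fˣ) : F)) +
      bR l ((z : F) * (y : F) + (x : F) * ((y⁻¹ : Fˣ) : F)) := by
    intro y
    rw [add_mul (x : F) (z : F) (y : F), add_mul (x : F) (z : F) ((y⁻¹ : Fˣ) : F)]
    simp only [bR_add]
    ring
  rw [Finset.sum_congr rfl fun y _ => h y]
  rw [Finset.sum_add_distrib, Finset.sum_add_distrib, Finset.sum_add_distrib,
    sum_bR_pair hl, sum_bR_pair_inv hl, kl_real, kl_real]
  ring

end GapCore

theorem gap_core {F : Type} [Field F] [Fintype F] [DecidableEq F] [CharP F 2] (l : F →+ ZMod 2)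
    (hl : l ≠ 0)
    (hkl : ∀ a b : F, a ≠ 0 → b ≠ 0 → |(kl l a b : ℝ)| ≤ 2 * Real.sqrt (Fintype.card F))
    (f : Fˣ → ZMod 2) (hf : ∀ y : Fˣ, y ≠ 1 → ∑ x : Fˣ, eps (f x) * eps (f (x * y)) = -1)
    (w : ℕ) (hw : (Finset.univ.filter fun x : Fˣ => f x ≠ l (x : F)).card = w) :
    w = 0 ∨ (Fintype.card F : ℝ) ≤ 2 * (w : ℝ) ^ 2 + (2 * Real.sqrt (Fintype.card F) + 1) * w := by
  classical
  rcases Nat.eq_zero_or_pos w with hw0 | hwpos
  · exact Or.inl hw0
  right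
  set q : ℝ := (Fintype.card F : ℝ) with hq
  set χ : Fˣ → ℝ := fun x => if f x ≠ l (x : F) then 1 else 0 with hχ
  have hχ0 : ∀ x, 0 ≤ χ x := by
    intro x
    simp only [hχ]
    split_ifs <;> norm_num
  have hχ1 : ∀ x, χ x ≤ 1 := by
    intro x
    simp only [hχ]
    split_ifs <;> norm_num
  have hχsq : ∀ x, χ x * χ x = χ x := by
    intro x
    simp only [hχ]
    split_ifs <;> norm_num
  have hχsum : ∑ x, χ x = (w : ℝ) := by
    rw [← hw, Finset.card_filter]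
    push_cast
    rfl
  -- the sequence in terms of the error
  have hG : ∀ x : Fˣ, ((eps (f x) : ℤ) : ℝ) = bR l (x : F) * (1 - 2 * χ x) := by
    intro x
    have key : ∀ a b : ZMod 2, a ≠ b → eps a = -eps b := by decide
    simp only [hχ, bR]
    split_ifs with h
    · rw [key _ _ h]
      push_cast
      ring
    · push Not at h
      rw [h]
      ring
  -- correlation identity
  have hcorr : ∀ y : Fˣ, ∑ x : Fˣ, ((eps (f x) : ℤ) : ℝ) * ((eps (f (x * y)) : ℤ) : ℝ) =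
      ∑ x : Fˣ, bR l (x : F) * bR l ((x * y : Fˣ) : F) := by
    intro y
    by_cases hy : y = 1
    · subst hy
      refine Finset.sum_congr rfl fun x _ => ?_
      rw [mul_one, bR_mul_self]
      have := eps_mul_self (f x)
      exact_mod_cast this
    · have h1 : ∑ x : Fˣ, ((eps (f x) : ℤ) : ℝ) * ((eps (f (x * y)) : ℤ) : ℝ) = -1 := by
        have := hf y hy
        exact_mod_cast this
      rw [h1]
      have h2 : ∀ x : Fˣ, bR l (x : F) * bR l ((x * y : Fˣ) : F) =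
          bR l ((1 + (y : F)) * (x : F)) := by
        intro x
        rw [← bR_add]
        congr 1
        push_cast
        ring
      rw [Finset.sum_congr rfl fun x _ => h2 x, sum_bR_units hl]
      intro h0
      apply hy
      have := (add_eq_zero_iff' (1 : Fˣ) y).1 (by simpa using h0)
      exact this.symm
  -- R and Φ
  set R : Fˣ → ℝ := fun y => ∑ x : Fˣ, χ x * χ (x * y) * (bR l (x : F) * bR l ((x * y : Fˣ) : F))
    with hR
  set Φ : Fˣ → ℝ := fun y => ∑ x : Fˣ, χ x * bR l (x : F) *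
    (bR l ((x : F) * (y : F)) + bR l ((x : F) * ((y⁻¹ : Fˣ) : F))) with hΦ
  have hΦR : ∀ y, Φ y = 2 * R y := by
    intro y
    have h1 : ∑ x : Fˣ, (bR l (x : F) * bR l ((x * y : Fˣ) : F)) *
        (-2 * χ x - 2 * χ (x * y) + 4 * (χ x * χ (x * y))) = 0 := by
      have h2 := hcorr y
      rw [← sub_eq_zero, ← Finset.sum_sub_distrib] at h2
      rw [← h2]
      refine Finset.sum_congr rfl fun x _ => ?_
      rw [hG x, hG (x * y)]
      ring
    have h3 : ∑ x : Fˣ, χ (x * y) * (bR l (x : F) * bR l ((x * y : Fˣ) : F)) =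
        ∑ x : Fˣ, χ x * bR l (x : F) * bR l ((x : F) * ((y⁻¹ : Fˣ) : F)) := by
      rw [← Equiv.sum_comp (Equiv.mulRight y⁻¹)
        (fun x : Fˣ => χ (x * y) * (bR l (x : F) * bR l ((x * y : Fˣ) : F)))]
      refine Finset.sum_congr rfl fun x _ => ?_
      simp only [Equiv.coe_mulRight, inv_mul_cancel_right, Units.val_mul]
      ring
    have h4 : ∑ x : Fˣ, (bR l (x : F) * bR l ((x * y : Fˣ) : F)) *
        (-2 * χ x - 2 * χ (x * y) + 4 * (χ x * χ (x * y))) =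
        -2 * ∑ x : Fˣ, χ x * bR l (x : F) * bR l ((x : F) * (y : F)) -
        2 * ∑ x : Fˣ, χ (x * y) * (bR l (x : F) * bR l ((x * y : Fˣ) : F)) + 4 * R y := by
      simp only [hR]
      rw [Finset.mul_sum, Finset.mul_sum, Finset.mul_sum, ← Finset.sum_sub_distrib,
        ← Finset.sum_add_distrib]
      refine Finset.sum_congr rfl fun x _ => ?_
      rw [Units.val_mul]
      ring
    have h5 : Φ y = ∑ x : Fˣ, χ x * bR l (x : F) * bR l ((x : F) * (y : F)) +
        ∑ x : Fˣ, χ x * bR l (x : F) * bR l ((x : F) * ((y⁻¹ : Fˣ) : F)) := by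
      simp only [hΦ]
      rw [← Finset.sum_add_distrib]
      refine Finset.sum_congr rfl fun x _ => ?_
      ring
    rw [h5, ← h3]
    linarith
  -- bounds on R
  have hwr : (0 : ℝ) < (w : ℝ) := by exact_mod_cast hwpos
  have hRabs : ∀ y, |R y| ≤ ∑ x : Fˣ, χ x * χ (x * y) := by
    intro y
    simp only [hR]
    refine (Finset.abs_sum_le_sum_abs _ _).trans (Finset.sum_le_sum fun x _ => ?_)
    rw [abs_mul, abs_mul (bR l (x : F)), abs_bR, abs_bR, mul_one, mul_one,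
      abs_of_nonneg (mul_nonneg (hχ0 _) (hχ0 _))]
  have hRw : ∀ y, |R y| ≤ (w : ℝ) := by
    intro y
    refine (hRabs y).trans ?_
    rw [← hχsum]
    refine Finset.sum_le_sum fun x _ => ?_
    have := mul_le_mul_of_nonneg_left (hχ1 (x * y)) (hχ0 x)
    linarith
  have hRsum : ∑ y : Fˣ, |R y| ≤ (w : ℝ) ^ 2 := by
    refine (Finset.sum_le_sum fun y _ => hRabs y).trans ?_
    rw [Finset.sum_comm]
    have h : ∀ x : Fˣ, ∑ y : Fˣ, χ x * χ (x * y) = χ x * (w : ℝ) := by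
      intro x
      rw [← Finset.mul_sum, ← hχsum]
      congr 1
      exact Equiv.sum_comp (Equiv.mulLeft x) χ
    rw [Finset.sum_congr rfl fun x _ => h x, ← Finset.sum_mul, hχsum]
    exact le_of_eq (by ring)
  have hRsq : ∑ y : Fˣ, R y ^ 2 ≤ (w : ℝ) ^ 3 := by
    calc ∑ y : Fˣ, R y ^ 2 ≤ ∑ y : Fˣ, (w : ℝ) * |R y| := by
          refine Finset.sum_le_sum fun y _ => ?_
          have h1 : R y ^ 2 = |R y| * |R y| := by rw [abs_mul_abs_self]; ring
          rw [h1]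
          exact mul_le_mul_of_nonneg_right (hRw y) (abs_nonneg _)
      _ = (w : ℝ) * ∑ y : Fˣ, |R y| := by rw [Finset.mul_sum]
      _ ≤ (w : ℝ) * (w : ℝ) ^ 2 := mul_le_mul_of_nonneg_left hRsum hwr.le
      _ = (w : ℝ) ^ 3 := by ring
  -- the sum of the squares of Φ
  have hΦsq : ∑ y : Fˣ, Φ y ^ 2 = ∑ x : Fˣ, ∑ z : Fˣ, χ x * χ z * (bR l (x : F) * bR l (z : F)) *
      (2 * (if x = z then q else 0) - 2 + (kl l x z + kl l z x)) := by
    have h1 : ∀ y : Fˣ, Φ y ^ 2 = ∑ x : Fˣ, ∑ z : Fˣ,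
        χ x * χ z * (bR l (x : F) * bR l (z : F)) *
        ((bR l ((x : F) * (y : F)) + bR l ((x : F) * ((y⁻¹ : Fˣ) : F))) *
        (bR l ((z : F) * (y : F)) + bR l ((z : F) * ((y⁻¹ : Fˣ) : F)))) := by
      intro y
      simp only [hΦ]
      rw [sq, Finset.sum_mul_sum]
      refine Finset.sum_congr rfl fun x _ => Finset.sum_congr rfl fun z _ => ?_
      ring
    rw [Finset.sum_congr rfl fun y _ => h1 y, Finset.sum_comm]
    refine Finset.sum_congr rfl fun x _ => ?_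
    rw [Finset.sum_comm]
    refine Finset.sum_congr rfl fun z _ => ?_
    rw [← Finset.mul_sum, sum_four hl x z]
  have hsplit : ∑ x : Fˣ, ∑ z : Fˣ, χ x * χ z * (bR l (x : F) * bR l (z : F)) *
      (2 * (if x = z then q else 0) - 2 + (kl l x z + kl l z x)) =
      2 * q * w - 2 * (∑ x : Fˣ, χ x * bR l (x : F)) ^ 2 +
      ∑ x : Fˣ, ∑ z : Fˣ, χ x * χ z * (bR l (x : F) * bR l (z : F)) *
        ((kl l x z : ℝ) + (kl l z x : ℝ)) := by
    have h1 : ∑ x : Fˣ, ∑ z : Fˣ, χ x * χ z * (bR l (x : F) * bR l (z : F)) *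
        (2 * (if x = z then q else 0)) = 2 * q * w := by
      rw [← hχsum, Finset.mul_sum]
      refine Finset.sum_congr rfl fun x _ => ?_
      rw [Finset.sum_eq_single x]
      · rw [if_pos rfl, bR_mul_self, hχsq]
        ring
      · intro z _ hz
        rw [if_neg (Ne.symm hz)]
        ring
      · intro h
        exact absurd (Finset.mem_univ x) h
    have h2 : ∑ x : Fˣ, ∑ z : Fˣ, χ x * χ z * (bR l (x : F) * bR l (z : F)) * 2 =
        2 * (∑ x : Fˣ, χ x * bR l (x : F)) ^ 2 := by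
      rw [sq, Finset.sum_mul_sum, Finset.mul_sum]
      refine Finset.sum_congr rfl fun x _ => ?_
      rw [Finset.mul_sum]
      refine Finset.sum_congr rfl fun z _ => ?_
      ring
    rw [← h1, ← h2, ← Finset.sum_sub_distrib, ← Finset.sum_add_distrib]
    refine Finset.sum_congr rfl fun x _ => ?_
    rw [← Finset.sum_sub_distrib, ← Finset.sum_add_distrib]
    refine Finset.sum_congr rfl fun z _ => ?_
    ring
  have hlin : (∑ x : Fˣ, χ x * bR l (x : F)) ^ 2 ≤ (w : ℝ) ^ 2 := by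
    have h1 : |∑ x : Fˣ, χ x * bR l (x : F)| ≤ (w : ℝ) := by
      refine (Finset.abs_sum_le_sum_abs _ _).trans ?_
      rw [← hχsum]
      refine Finset.sum_le_sum fun x _ => ?_
      rw [abs_mul, abs_bR, mul_one, abs_of_nonneg (hχ0 x)]
    rw [← sq_abs]
    gcongr
  have hs0 : 0 ≤ Real.sqrt (Fintype.card F : ℝ) := Real.sqrt_nonneg _
  have hklsum : -(4 * Real.sqrt (Fintype.card F : ℝ) * (w : ℝ) ^ 2) ≤
      ∑ x : Fˣ, ∑ z : Fˣ, χ x * χ z * (bR l (x : F) * bR l (z : F)) *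
        ((kl l x z : ℝ) + (kl l z x : ℝ)) := by
    have h1 : ∀ x z : Fˣ, -(χ x * χ z * (4 * Real.sqrt (Fintype.card F : ℝ))) ≤
        χ x * χ z * (bR l (x : F) * bR l (z : F)) * ((kl l x z : ℝ) + (kl l z x : ℝ)) := by
      intro x z
      have ha := hkl (x : F) (z : F) x.ne_zero z.ne_zero
      have hb := hkl (z : F) (x : F) z.ne_zero x.ne_zero
      have hab : |(kl l (x : F) (z : F) : ℝ) + (kl l (z : F) (x : F) : ℝ)| ≤
          4 * Real.sqrt (Fintype.card F : ℝ) := by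
        refine (abs_add_le _ _).trans ?_
        linarith
      have hc : |χ x * χ z * (bR l (x : F) * bR l (z : F)) *
          ((kl l (x : F) (z : F) : ℝ) + (kl l (z : F) (x : F) : ℝ))| ≤
          χ x * χ z * (4 * Real.sqrt (Fintype.card F : ℝ)) := by
        rw [abs_mul, abs_mul (χ x * χ z), abs_mul (bR l (x : F)), abs_bR, abs_bR, mul_one,
          mul_one, abs_of_nonneg (mul_nonneg (hχ0 _) (hχ0 _))]
        exact mul_le_mul_of_nonneg_left hab (mul_nonneg (hχ0 _) (hχ0 _))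
      exact (abs_le.1 hc).1
    have h2 : ∑ x : Fˣ, ∑ z : Fˣ, -(χ x * χ z * (4 * Real.sqrt (Fintype.card F : ℝ))) =
        -(4 * Real.sqrt (Fintype.card F : ℝ) * (w : ℝ) ^ 2) := by
      have h3 : (w : ℝ) ^ 2 = ∑ x : Fˣ, ∑ z : Fˣ, χ x * χ z := by
        rw [← hχsum, sq, Finset.sum_mul_sum]
      rw [h3, Finset.mul_sum, ← Finset.sum_neg_distrib]
      refine Finset.sum_congr rfl fun x _ => ?_
      rw [Finset.mul_sum, ← Finset.sum_neg_distrib]
      refine Finset.sum_congr rfl fun z _ => ?_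
      ring
    rw [← h2]
    exact Finset.sum_le_sum fun x _ => Finset.sum_le_sum fun z _ => h1 x z
  have hfinal : 2 * q * w - 2 * (w : ℝ) ^ 2 - 4 * Real.sqrt (Fintype.card F : ℝ) * (w : ℝ) ^ 2 ≤
      4 * (w : ℝ) ^ 3 := by
    have h1 : ∑ y : Fˣ, Φ y ^ 2 = 4 * ∑ y : Fˣ, R y ^ 2 := by
      rw [Finset.mul_sum]
      refine Finset.sum_congr rfl fun y _ => ?_
      rw [hΦR y]
      ring
    rw [hΦsq, hsplit] at h1
    linarith
  by_contra hcon
  push Not at hcon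
  have h := mul_lt_mul_of_pos_left hcon (by linarith : (0 : ℝ) < 2 * w)
  nlinarith

end Pool.Agent.GolS
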