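import Pool.Agent.GolS.KlC
import Pool.Agent.GolS.GapC
import Pool.Agent.GolS.Fld

/-!
# Module Gap: a two-level sequence near an m-sequence is the m-sequence

Proof. `exists_field hn hu` gives `F, α, l` with `u i = l (α^i)`, `card F = 2^n`, `α` a generator of
`Fˣ`, so of order `p = 2^n - 1`, and `i ↦ α^i` is a bijection from `range p` (or `ZMod p`) to `Fˣ`.
Put `f (α^i) = s i` (well defined by `Per n s`). For `y = α^τ ≠ 1` (`0 < τ < p`)
`∑_x eps (f x) eps (f (x y)) = ∑_{i<p} eps (s i) eps (s (i+τ)) = p - 2 #{i<p : s i ≠ s (i+τ)}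
= p - 2^n = -1` by `TwoLevel` (`n ≥ 1`). `gap_core` (with `abs_kl_le`) gives the inequality
`q ≤ 2 w² + (2 √q + 1) w`, `q = 2^n`, if `w ≠ 0`.
-/

namespace Pool.Agent.GolS

theorem gap {n : ℕ} (hn : 1 ≤ n) {s u : ℕ → ZMod 2} (hs : Per n s) (h2 : TwoLevel n s)
    (hu : MSeq n u) (w : ℕ)
    (hw : ((Finset.range (2 ^ n - 1)).filter fun i => s i ≠ u i).card = w) :
    w = 0 ∨ (2 : ℝ) ^ n ≤ 2 * (w : ℝ) ^ 2 + (2 * Real.sqrt ((2 : ℝ) ^ n) + 1) * w := by
  classical
  obtain ⟨F, hF1, hF2, hF3, hF4, α, l, hcard, hα, hl, hul⟩ := exists_field hn hu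
  obtain ⟨p, hp⟩ : ∃ p, p = 2 ^ n - 1 := ⟨_, rfl⟩
  have h2n : 2 ≤ 2 ^ n := by
    calc 2 = 2 ^ 1 := rfl
      _ ≤ 2 ^ n := Nat.pow_le_pow_right (by norm_num) hn
  have hcu : Fintype.card Fˣ = p := by
    rw [Fintype.card_units, hcard, hp]
  have hord : orderOf α = p := by
    rw [orderOf_eq_card_of_forall_mem_zpowers hα, Nat.card_eq_fintype_card, hcu]
  have hp0 : 0 < p := by omega
  have hsum : ∀ G : Fˣ → ℤ, ∑ x : Fˣ, G x = ∑ i ∈ Finset.range p, G (α ^ i) := by
    intro G
    symm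
    refine Finset.sum_nbij (fun i => α ^ i) (fun i _ => Finset.mem_univ _) ?_ ?_ (fun _ _ => rfl)
    · intro i hi j hj hij
      have hi' : i < p := Finset.mem_range.1 hi
      have hj' : j < p := Finset.mem_range.1 hj
      exact pow_injOn_Iio_orderOf (by rw [hord]; exact hi') (by rw [hord]; exact hj') hij
    · intro x _
      have hx := mem_zpowers_iff_mem_range_orderOf.1 (hα x)
      rw [hord, Finset.mem_image] at hx
      obtain ⟨i, hi, hix⟩ := hx
      exact ⟨i, hi, hix⟩
  have hlog : ∀ x : Fˣ, ∃ i, i < p ∧ α ^ i = x := by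
    intro x
    have hx := mem_zpowers_iff_mem_range_orderOf.1 (hα x)
    rw [hord, Finset.mem_image] at hx
    obtain ⟨i, hi, hix⟩ := hx
    exact ⟨i, Finset.mem_range.1 hi, hix⟩
  choose lg hlg1 hlg2 using hlog
  have hper : Function.Periodic s p := by
    intro i
    rw [hp]
    exact hs i
  have hf : ∀ i, s (lg (α ^ i)) = s i := by
    intro i
    have h1 := hlg2 (α ^ i)
    rw [pow_eq_pow_iff_modEq, hord] at h1
    rw [← hper.map_mod_nat (lg (α ^ i)), ← hper.map_mod_nat i, h1]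
  have key := gap_core l hl (fun a b ha hb => abs_kl_le l hl ha hb) (fun x => s (lg x)) (by
    intro y hy
    obtain ⟨τ, hτp, hτ⟩ : ∃ τ, τ < p ∧ α ^ τ = y := ⟨lg y, hlg1 y, hlg2 y⟩
    have hτ0 : 0 < τ := by
      rcases Nat.eq_zero_or_pos τ with h | h
      · rw [h, pow_zero] at hτ
        exact absurd hτ.symm hy
      · exact h
    rw [hsum]
    have e1 : ∀ i ∈ Finset.range p, eps (s (lg (α ^ i))) * eps (s (lg (α ^ i * y))) =
        1 - 2 * (if s i ≠ s (i + τ) then 1 else 0) := by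
      intro i _
      rw [hf, ← hτ, ← pow_add, hf]
      generalize s i = a
      generalize s (i + τ) = b
      revert a b
      decide
    rw [Finset.sum_congr rfl e1, Finset.sum_sub_distrib, ← Finset.mul_sum, Finset.sum_boole]
    have e2 := h2 τ hτ0 (by rw [← hp]; exact hτp)
    rw [← hp] at e2
    rw [e2]
    simp only [Finset.sum_const, Finset.card_range, nsmul_eq_mul, mul_one]
    have e3 : (2 : ℤ) * ((2 ^ (n - 1) : ℕ) : ℤ) = ((2 ^ n : ℕ) : ℤ) := by
      have : 2 * 2 ^ (n - 1) = 2 ^ n := by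
        rw [← pow_succ']
        congr 1
        omega
      rw [← this]
      push_cast
      ring
    rw [e3]
    have e4 : (p : ℤ) = ((2 ^ n : ℕ) : ℤ) - 1 := by
      rw [hp, Nat.cast_sub (by omega)]
      norm_num
    rw [e4]
    ring) w (by
    have e1 : ((Finset.univ.filter fun x : Fˣ => s (lg x) ≠ l (x : F)).card : ℤ) = w := by
      rw [Finset.card_filter]
      push_cast
      rw [hsum]
      rw [← hw, Finset.card_filter]
      push_cast
      rw [← hp]
      refine Finset.sum_congr rfl fun i _ => ?_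
      rw [hf, hul i]
      simp only [Units.val_pow_eq_pow_val]
    exact_mod_cast e1)
  rw [hcard] at key
  push_cast at key
  exact key

end Pool.Agent.GolS
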