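import Pool.Agent.GolS.Defs
import Pool.Agent.SZp.Mom

/-!
# Module KlA: the Weil bound for Kloosterman sums in characteristic 2, with an unspecified constant

Write `T = tr2 F`, `q = card F`. For `a ≠ 0` let `P = Y² + X Y - (X³ + a X) ∈ F[X][Y]`
(`X` = inner variable), i.e. `P = X ^ 2 + C X * X - C (X ^ 3 + C a * X) : F[X][X]`.

* `IsCab 2 3 P` (`Pool/Agent/CAB/Cab.lean`): monic of degree 2, `(P.coeff 0).coeff 3 = -1`, the other
  nonzero coefficients are `(i,j) = (1,0)` (weight `2 < 6`) and `(1,1)` (weight `2 + 3 = 5 < 6`).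
* `derivative P = 2 Y + X = C X ≠ 0` (characteristic 2).
* `Num 2 3` holds. So `SZp.cab_weil_q 2` gives `|af P| ≤ C √q`, `af P = q - NF P`
  (`Pool/Agent/CAB/MomDefs.lean`), `NF P = #{(x,y) : P(x,y) = 0}`.
* `NF P = q + kl T 1 a`: for `x = 0` the equation is `y² = 0`, one solution. For `x ≠ 0` put
  `y = x t`: `t² + t = x + a / x`, which has `1 + eps (T (x + a/x))` solutions `t`: the map
  `t ↦ t² + t` is additive with kernel `{0,1}` and its image lies in `ker T` (`T (t²) = T t`), and
  `ker T` has `q/2` elements (`T ≠ 0`), so the image is `ker T`. Hence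
  `NF P = 1 + ∑_{x ≠ 0} (1 + eps (T (x + a/x))) = 1 + (q - 1) + kl T 1 a`.

So `af P = - kl T 1 a`.
-/

namespace Pool.Agent.GolS

open Polynomial Finset Pool.Agent.CAB

section KlA

variable (F : Type) [Field F] [Fintype F] [DecidableEq F] [CharP F 2]

private theorem tr2_sq (t : F) : tr2 F (t ^ 2) = tr2 F t := by
  let _ := ZMod.algebra F 2
  have h1 : tr2 F (t ^ 2) = Algebra.trace (ZMod 2) F (t ^ 2) := rfl
  have h2 : tr2 F t = Algebra.trace (ZMod 2) F t := rfl
  rw [h1, h2, ← Algebra.trace_eq_of_algEquiv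
    (FiniteField.frobeniusAlgEquivOfAlgebraic (ZMod 2) F) t]
  congr 1

private theorem tr2_surj : Function.Surjective (tr2 F) := by
  let _ := ZMod.algebra F 2
  exact Algebra.trace_surjective (ZMod 2) F

/-- The Artin-Schreier map. -/
private def asMap : F →+ F where
  toFun t := t ^ 2 + t
  map_zero' := by ring
  map_add' x y := by rw [add_pow_char]; ring

private theorem range_eq : (asMap F).range = (tr2 F).ker := by
  have hle : (asMap F).range ≤ (tr2 F).ker := by
    rintro _ ⟨t, rfl⟩
    rw [AddMonoidHom.mem_ker]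
    show tr2 F (t ^ 2 + t) = 0
    rw [map_add, tr2_sq, CharTwo.add_self_eq_zero]
  refine AddSubgroup.eq_of_le_of_card_ge hle ?_
  have h1 : Nat.card (asMap F).ker * Nat.card (asMap F).range = Nat.card F := by
    rw [← AddSubgroup.index_ker, AddSubgroup.card_mul_index]
  have h2 : Nat.card (tr2 F).ker * Nat.card (tr2 F).range = Nat.card F := by
    rw [← AddSubgroup.index_ker, AddSubgroup.card_mul_index]
  have h3 : Nat.card (tr2 F).range = 2 := by
    rw [AddMonoidHom.range_eq_top.2 (tr2_surj F)]
    simp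
  have h4 : Nat.card (asMap F).ker ≤ 2 := by
    have : ((asMap F).ker : Set F) ⊆ {0, 1} := by
      intro t ht
      have ht' : t ^ 2 + t = 0 := ht
      have : t * (t + 1) = 0 := by rw [← ht']; ring
      rcases mul_eq_zero.1 this with h | h
      · left; exact h
      · right
        exact (CharTwo.add_eq_zero).1 h
    calc Nat.card (asMap F).ker = ((asMap F).ker : Set F).ncard := rfl
      _ ≤ ({0, 1} : Set F).ncard := Set.ncard_le_ncard this (Set.toFinite _)
      _ ≤ 2 := Set.ncard_insert_le _ _ |>.trans (by simp)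
  rw [h3] at h2
  have h5 : 0 < Nat.card (asMap F).range := Nat.card_pos
  nlinarith

private theorem card_sol (c : F) :
    ((univ.filter (fun t : F => t ^ 2 + t = c)).card : ℤ) = 1 + eps (tr2 F c) := by
  by_cases hc : tr2 F c = 0
  · have h1 : c ∈ (asMap F).range := by rw [range_eq]; exact hc
    obtain ⟨t0, ht0⟩ := h1
    have ht0' : t0 ^ 2 + t0 = c := ht0
    have h2 : univ.filter (fun t : F => t ^ 2 + t = c) = {t0, t0 + 1} := by
      ext t
      simp only [mem_filter, mem_univ, true_and, mem_insert, mem_singleton]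
      have h2' : (2 : F) = 0 := CharTwo.two_eq_zero
      constructor
      · intro h
        have : (t + t0) * (t + (t0 + 1)) = 0 := by
          have e : (t + t0) * (t + (t0 + 1)) = (t ^ 2 + t) + (t0 ^ 2 + t0) + 2 * (t * t0) := by ring
          rw [e, h, ht0', h2', CharTwo.add_self_eq_zero]; ring
        rcases mul_eq_zero.1 this with h | h
        · left; exact (CharTwo.add_eq_zero).1 h
        · right; exact (CharTwo.add_eq_zero).1 h
      · rintro (rfl | rfl)
        · exact ht0'
        · rw [← ht0']
          have e : (t0 + 1) ^ 2 + (t0 + 1) = t0 ^ 2 + t0 + 2 * (t0 + 1) := by ring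
          rw [e, h2']; ring
    rw [h2, card_pair (by simp), hc, eps_zero]
    norm_num
  · have h1 : tr2 F c = 1 := by
      have : ∀ z : ZMod 2, z ≠ 0 → z = 1 := by decide
      exact this _ hc
    have h2 : univ.filter (fun t : F => t ^ 2 + t = c) = ∅ := by
      rw [filter_eq_empty_iff]
      intro t _ ht
      apply hc
      have : c ∈ (asMap F).range := ⟨t, ht⟩
      rw [range_eq] at this
      exact this
    rw [h2, h1, eps_one]
    simp

variable (a : F)

/-- The polynomial of the curve. -/
private noncomputable def crv : F[X][X] := X ^ 2 + C X * X - C (X ^ 3 + C a * X)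

private theorem crv_coeff0 : (crv F a).coeff 0 = -(X ^ 3 + C a * X) := by
  unfold crv
  rw [coeff_sub, coeff_add, coeff_C_mul, coeff_X_pow, coeff_X_zero, coeff_C_zero]
  simp

private theorem crv_coeff1 : (crv F a).coeff 1 = X := by
  unfold crv
  rw [coeff_sub, coeff_add, coeff_C_mul, coeff_X_pow, coeff_X_one, coeff_C]
  simp

private theorem crv_cab : IsCab 2 3 (crv F a) where
  monic := by
    have h1 : crv F a = X ^ 2 + (C X * X - C (X ^ 3 + C a * X)) := by unfold crv; ring
    rw [h1]
    apply monic_X_pow_add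
    refine lt_of_le_of_lt (degree_sub_le _ _) ?_
    rw [max_lt_iff]
    constructor
    · exact lt_of_le_of_lt (degree_C_mul_X_le _) (by norm_num)
    · exact lt_of_le_of_lt degree_C_le (by norm_num)
  deg := by
    have h1 : crv F a = X ^ 2 + (C X * X - C (X ^ 3 + C a * X)) := by unfold crv; ring
    rw [h1, natDegree_eq_of_degree_eq_some]
    rw [degree_add_eq_left_of_degree_lt, degree_X_pow]
    rw [degree_X_pow]
    refine lt_of_le_of_lt (degree_sub_le _ _) ?_
    rw [max_lt_iff]
    constructor
    · exact lt_of_le_of_lt (degree_C_mul_X_le _) (by norm_num)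
    · exact lt_of_le_of_lt degree_C_le (by norm_num)
  lead := by
    rw [crv_coeff0]
    simp [coeff_X]
  wt := by
    intro i j hj hij hne
    have hj' : j = 0 ∨ j = 1 := by omega
    rcases hj' with rfl | rfl
    · rw [crv_coeff0] at hne
      have h3 : i ≠ 3 := by
        intro h; exact hij (by rw [h])
      have h1 : i = 1 := by
        by_contra h1
        apply hne
        simp [coeff_X_pow, coeff_X, h3, Ne.symm h1]
      omega
    · rw [crv_coeff1] at hne
      have h1 : i = 1 := by
        by_contra h1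
        apply hne
        simp [coeff_X, Ne.symm h1]
      omega

private theorem crv_der : derivative (crv F a) ≠ 0 := by
  intro h
  have h1 : (derivative (crv F a)).coeff 0 = 0 := by rw [h]; simp
  rw [coeff_derivative, zero_add, crv_coeff1] at h1
  simp at h1

private theorem crv_eval (x y : F) :
    (crv F a).evalEval x y = y ^ 2 + x * y - (x ^ 3 + a * x) := by
  simp [crv, evalEval]
  ring

private theorem card_fib {x : F} (hx : x ≠ 0) :
    ((univ.filter (fun y : F => (crv F a).evalEval x y = 0)).card : ℤ) =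
      1 + eps (tr2 F (1 * x + a * x⁻¹)) := by
  rw [← card_sol]
  congr 1
  refine card_nbij' (fun y => x⁻¹ * y) (fun t => x * t) ?_ ?_ ?_ ?_
  · intro y hy
    simp only [coe_filter, mem_univ, true_and, Set.mem_ofPred_eq, crv_eval] at hy ⊢
    have h1 : y ^ 2 + x * y = x ^ 3 + a * x := by linear_combination hy
    field_simp
    linear_combination h1
  · intro t ht
    simp only [coe_filter, mem_univ, true_and, Set.mem_ofPred_eq, crv_eval] at ht ⊢
    have h1 : x ^ 2 * (t ^ 2 + t) = x ^ 2 * (1 * x + a * x⁻¹) := by rw [ht]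
    have h2 : x ^ 2 * (1 * x + a * x⁻¹) = x ^ 3 + a * x := by field_simp
    rw [h2] at h1
    linear_combination h1
  · intro y _
    simp only []
    rw [mul_inv_cancel_left₀ hx]
  · intro t _
    simp only []
    rw [inv_mul_cancel_left₀ hx]

private theorem card_fib0 :
    ((univ.filter (fun y : F => (crv F a).evalEval 0 y = 0)).card : ℤ) = 1 := by
  have h1 : univ.filter (fun y : F => (crv F a).evalEval 0 y = 0) = {0} := by
    ext y
    simp [crv_eval]
  rw [h1]
  simp

private theorem NF_crv : (NF (crv F a) : ℤ) = (Fintype.card F : ℤ) + kl (tr2 F) 1 a := by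
  have h1 : NF (crv F a) = (univ.filter (fun z : F × F => (crv F a).evalEval z.1 z.2 = 0)).card := by
    unfold NF
    rw [Nat.card_eq_fintype_card, Fintype.card_subtype]
  have h2 : ((univ.filter (fun z : F × F => (crv F a).evalEval z.1 z.2 = 0)).card : ℤ) =
      ∑ x : F, ((univ.filter (fun y : F => (crv F a).evalEval x y = 0)).card : ℤ) := by
    rw [card_filter]
    push_cast
    rw [Fintype.sum_prod_type]
    refine sum_congr rfl fun x _ => ?_
    rw [card_filter]
    push_cast
    rfl
  have h3 : ∀ g : F → ℤ, ∑ x : F, g x = g 0 + ∑ u : Fˣ, g u := by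
    intro g
    rw [← add_sum_erase univ g (mem_univ 0)]
    congr 1
    have : (univ : Finset F).erase 0 = (univ : Finset Fˣ).image (fun u : Fˣ => (u : F)) := by
      ext x
      simp only [mem_erase, mem_univ, and_true, mem_image, true_and]
      constructor
      · intro hx; exact ⟨Units.mk0 x hx, rfl⟩
      · rintro ⟨u, rfl⟩; exact u.ne_zero
    rw [this, sum_image (fun u _ v _ h => Units.ext h)]
  rw [h1, h2, h3, card_fib0]
  have h4 : ∑ u : Fˣ, ((univ.filter (fun y : F => (crv F a).evalEval (u : F) y = 0)).card : ℤ) =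
      ∑ u : Fˣ, (1 + eps (tr2 F (1 * (u : F) + a * ((u⁻¹ : Fˣ) : F)))) := by
    refine sum_congr rfl fun u _ => ?_
    rw [card_fib F a u.ne_zero, Units.val_inv_eq_inv_val]
  rw [h4, sum_add_distrib]
  have h5 : ∑ _u : Fˣ, (1 : ℤ) = (Fintype.card F : ℤ) - 1 := by
    rw [sum_const, card_univ, Fintype.card_units, nsmul_eq_mul, mul_one,
      Nat.cast_sub Fintype.card_pos]
    simp
  rw [h5, kl]
  ring

end KlA

theorem kl_rough : ∃ C : ℝ, ∀ (F : Type) [Field F] [Fintype F] [DecidableEq F] [CharP F 2] (a : F),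
    a ≠ 0 → |(kl (tr2 F) 1 a : ℝ)| ≤ C * Real.sqrt (Fintype.card F) := by
  have : Fact (Nat.Prime 2) := ⟨Nat.prime_two⟩
  have hn : Num 2 3 := ⟨by norm_num, le_rfl, by norm_num⟩
  obtain ⟨C, -, hC⟩ := SZp.cab_weil_q 2 hn
  refine ⟨C, fun F _ _ _ _ a _ => ?_⟩
  have h1 := hC F (crv F a) (crv_cab F a) (crv_der F a)
  have h2 : af (crv F a) = -kl (tr2 F) 1 a := by
    rw [af, NF_crv, Nat.card_eq_fintype_card]
    ring
  rw [h2, Nat.card_eq_fintype_card] at h1
  push_cast at h1
  rwa [abs_neg] at h1

end Pool.Agent.GolS
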