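import Pool.Agent.GolS.Defs

/-!
# Module KlB: Kloosterman sums in a quadratic extension (characteristic 2)

`κ' + κ² = 2 q`, where `κ = kl (tr2 F) 1 a`, `κ' = kl (tr2 F') 1 a`, `q = card F`, `[F' : F] = 2`,
`a ∈ F`, `a ≠ 0`.

Proof. `tr2 F' z = tr2 F (Tr z)`, `Tr z = z + z^q ∈ F`, and with `N z = z^{q+1} ∈ F`
`Tr (z + a/z) = Tr z + a Tr z / N z`. So with `h(σ,ν) = eps (tr2 F (σ + a σ / ν))`
`κ' = ∑_{z ≠ 0} h(Tr z, N z)` and `κ² = ∑_{x,y ∈ Fˣ} h(x + y, x y)`
(as `x + a/x + y + a/y = σ + a σ/ν` for `σ = x + y`, `ν = x y`). For each `(σ,ν) ∈ F × Fˣ`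
`#{z ∈ F' : Tr z = σ, N z = ν} + #{(x,y) ∈ Fˣ × Fˣ : x + y = σ, x y = ν} = 2`.

* `σ = 0`: `x = y = √ν`, one pair; `Tr z = 0` iff `z ∈ F` and then `N z = z² = ν`: one `z`.
* `σ ≠ 0`: divide by `σ` (`x = σ t`, `y = σ (1 + t)`, `x y = σ² (t² + t)`;
  `z = σ t` with `t + t^q = 1`, `N z = σ² t (1 + t)`). With `c = ν/σ²`: the number of `t ∈ F` with
  `t² + t = c` is `1 + eps (tr2 F c)`. The number of `t ∈ F'` with `t + t^q = 1` and
  `t² + t = c` is `1 - eps (tr2 F c)`: the equation `t² + t = c` has two solutions `t, t+1` in `F'`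
  (`tr2 F' c = tr2 F (c + c) = 0`); `t^q` is a solution as well, so `t^q = t` or `t^q = t + 1`; and
  `t^q = t` iff `t ∈ F` iff `c` is of the form `s² + s` with `s ∈ F` iff `tr2 F c = 0`.
  (Or count the roots of `T² + σ T + ν` in `F'` directly.)

So `κ' + κ² = 2 ∑_{σ ∈ F, ν ∈ Fˣ} h(σ,ν) = 2 ∑_ν ∑_σ eps (tr2 F (σ (1 + a/ν)))
= 2 q #{ν : 1 + a/ν = 0} = 2 q` (characteristic 2: `ν = a`).
-/

set_option linter.all false

namespace Pool.Agent.GolS

open Finset

section aux

variable {F F' : Type} [Field F] [Fintype F] [DecidableEq F] [CharP F 2] [Field F']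
    [Fintype F'] [DecidableEq F'] [CharP F' 2] [Algebra F F']

private theorem kb_two (x : F) : x + x = 0 := CharTwo.add_self_eq_zero x

private theorem kb_surj (F : Type) [Field F] [Fintype F] [CharP F 2] : ∃ t : F, tr2 F t = 1 := by
  letI := ZMod.algebra F 2
  haveI : Algebra.IsSeparable (ZMod 2) F := inferInstance
  exact Algebra.trace_surjective (ZMod 2) F 1

private theorem kb_sum0 : ∑ s : F, eps (tr2 F s) = 0 := by
  obtain ⟨t, ht⟩ := kb_surj F
  have h1 : ∑ s : F, eps (tr2 F (s + t)) = ∑ s : F, eps (tr2 F s) :=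
    Equiv.sum_comp (Equiv.addRight t) (fun s => eps (tr2 F s))
  have h2 : ∑ s : F, eps (tr2 F (s + t)) = -∑ s : F, eps (tr2 F s) := by
    rw [← Finset.sum_neg_distrib]
    refine Finset.sum_congr rfl fun s _ => ?_
    rw [map_add, ht, eps_add, eps_one]
    ring
  linarith

private theorem kb_sumc {c : F} (hc : c ≠ 0) : ∑ s : F, eps (tr2 F (s * c)) = 0 := by
  have h1 : ∑ s : F, eps (tr2 F (s * c)) = ∑ s : F, eps (tr2 F s) :=
    Equiv.sum_comp (Equiv.mulRight₀ c hc) (fun s => eps (tr2 F s))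
  rw [h1]
  exact kb_sum0

private theorem kb_tr (F F' : Type) [Field F] [Fintype F] [CharP F 2] [Field F']
    [Fintype F'] [CharP F' 2] [Algebra F F'] (z : F') :
    tr2 F' z = tr2 F (Algebra.trace F F' z) := by
  letI := ZMod.algebra F 2
  letI := ZMod.algebra F' 2
  haveI : IsScalarTower (ZMod 2) F F' := IsScalarTower.of_algebraMap_eq' (RingHom.ext_zmod _ _)
  haveI : Module.Finite F F' := Module.Finite.of_finite
  show Algebra.trace (ZMod 2) F' z = Algebra.trace (ZMod 2) F (Algebra.trace F F' z)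
  exact (Algebra.trace_trace z).symm

private theorem kb_trace (h2 : Module.finrank F F' = 2) (z : F') :
    algebraMap F F' (Algebra.trace F F' z) = z + z ^ (Fintype.card F) := by
  rw [FiniteField.algebraMap_trace_eq_sum_pow, h2, Finset.sum_range_succ, Finset.sum_range_one,
    pow_zero, pow_one, pow_one, Nat.card_eq_fintype_card]

private theorem kb_norm (h2 : Module.finrank F F' = 2) (z : F') :
    algebraMap F F' (Algebra.norm F z) = z * z ^ (Fintype.card F) := by
  rw [FiniteField.algebraMap_norm_eq_prod_pow, h2, Finset.prod_range_succ, Finset.prod_range_one,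
    pow_zero, pow_one, pow_one, Nat.card_eq_fintype_card]

/-- trace and norm of a unit -/
private noncomputable def fA (F F' : Type) [Field F] [Field F'] [Algebra F F'] (z : F'ˣ) :
    F × Fˣ :=
  (Algebra.trace F F' (z : F'), Units.map (Algebra.norm F : F' →* F) z)

private def fB (F : Type) [Field F] (p : Fˣ × Fˣ) : F × Fˣ :=
  ((p.1 : F) + (p.2 : F), p.1 * p.2)

private theorem kb_rootA (h2 : Module.finrank F F' = 2) {z : F'ˣ} {s : F} {ν : Fˣ}
    (h : fA F F' z = (s, ν)) :
    (z : F') + (z : F') ^ (Fintype.card F) = algebraMap F F' s ∧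
    (z : F') ^ 2 + algebraMap F F' s * z + algebraMap F F' (ν : F) = 0 := by
  unfold fA at h
  rw [Prod.mk.injEq] at h
  obtain ⟨h3, h4⟩ := h
  have h5 : Algebra.norm F (z : F') = (ν : F) := by rw [← h4]; rfl
  have e1 := kb_trace h2 (z : F')
  have e2 := kb_norm h2 (z : F')
  rw [h3] at e1
  rw [h5] at e2
  refine ⟨e1.symm, ?_⟩
  rw [e1, e2]
  have e3 := kb_two ((z : F') ^ 2)
  have e4 := kb_two ((z : F') * (z : F') ^ (Fintype.card F))
  linear_combination e3 + e4

private theorem kb_rootB {x y : Fˣ} {s : F} {ν : Fˣ} (h : fB F (x, y) = (s, ν)) :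
    (x : F) + y = s ∧ (x : F) ^ 2 + s * x + ν = 0 := by
  unfold fB at h
  rw [Prod.mk.injEq] at h
  obtain ⟨h3, h4⟩ := h
  have h5 : (x : F) * y = ν := by rw [← h4]; rfl
  refine ⟨h3, ?_⟩
  rw [← h3, ← h5]
  have e3 := kb_two ((x : F) ^ 2)
  have e4 := kb_two ((x : F) * y)
  simp only
  linear_combination e3 + e4

private theorem kb_roots2 {s ν r t : F'} (hr : r ^ 2 + s * r + ν = 0) (ht : t ^ 2 + s * t + ν = 0)
    (h : r ≠ t) : r + t = s := by
  have h1 : (r - t) * (r + t + s) = 0 := by linear_combination hr - ht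
  rcases mul_eq_zero.1 h1 with h2 | h2
  · exact absurd (sub_eq_zero.1 h2) h
  · have h3 := kb_two s
    linear_combination h2 - h3

private theorem kb_le (h2 : Module.finrank F F' = 2) (p : F × Fˣ) :
    (univ.filter (fun z : F'ˣ => fA F F' z = p)).card +
      (univ.filter (fun q : Fˣ × Fˣ => fB F q = p)).card ≤ 2 := by
  obtain ⟨s, ν⟩ := p
  obtain ⟨SA, hSA⟩ : ∃ SA : Finset F', SA = (univ.filter (fun z : F'ˣ => fA F F' z = (s, ν))).image
    (fun z : F'ˣ => (z : F')) := ⟨_, rfl⟩
  obtain ⟨SB, hSB⟩ : ∃ SB : Finset F', SB = (univ.filter (fun q : Fˣ × Fˣ => fB F q = (s, ν))).image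
    (fun q => algebraMap F F' (q.1 : F)) := ⟨_, rfl⟩
  have hcA : (univ.filter (fun z : F'ˣ => fA F F' z = (s, ν))).card = SA.card := by
    rw [hSA]
    exact (Finset.card_image_of_injective _ Units.val_injective).symm
  have hcB : (univ.filter (fun q : Fˣ × Fˣ => fB F q = (s, ν))).card = SB.card := by
    rw [hSB]
    refine (Finset.card_image_of_injOn ?_).symm
    rintro ⟨x, y⟩ hx ⟨x', y'⟩ hx' hxx
    have h3 := (kb_rootB ((Finset.mem_filter.1 (Finset.mem_coe.1 hx)).2)).1
    have h4 := (kb_rootB ((Finset.mem_filter.1 (Finset.mem_coe.1 hx')).2)).1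
    have h5 : (x : F) = x' := (algebraMap F F').injective hxx
    have h6 : (y : F) = y' := by
      rw [h5] at h3
      linear_combination h3 - h4
    rw [Prod.mk.injEq]
    exact ⟨Units.ext h5, Units.ext h6⟩
  have hA : ∀ r ∈ SA, r + r ^ (Fintype.card F) = algebraMap F F' s ∧
      r ^ 2 + algebraMap F F' s * r + algebraMap F F' (ν : F) = 0 := by
    intro r hr
    rw [hSA, Finset.mem_image] at hr
    obtain ⟨z, hz, rfl⟩ := hr
    exact kb_rootA h2 (Finset.mem_filter.1 hz).2
  have hB : ∀ r ∈ SB, (∃ x : F, algebraMap F F' x = r) ∧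
      r ^ 2 + algebraMap F F' s * r + algebraMap F F' (ν : F) = 0 := by
    intro r hr
    rw [hSB, Finset.mem_image] at hr
    obtain ⟨⟨x, y⟩, hz, rfl⟩ := hr
    refine ⟨⟨_, rfl⟩, ?_⟩
    have h3 := (kb_rootB (Finset.mem_filter.1 hz).2).2
    rw [← map_pow, ← map_mul, ← map_add, ← map_add, h3, map_zero]
  rw [hcA, hcB]
  by_cases hd : Disjoint SA SB
  · rw [← Finset.card_union_of_disjoint hd]
    by_contra hlt
    push Not at hlt
    obtain ⟨u, hu, v, hv, w, hw, huv, huw, hvw⟩ := Finset.two_lt_card.1 hlt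
    have hroot : ∀ r ∈ SA ∪ SB, r ^ 2 + algebraMap F F' s * r + algebraMap F F' (ν : F) = 0 := by
      intro r hr
      rcases Finset.mem_union.1 hr with h3 | h3
      · exact (hA r h3).2
      · exact (hB r h3).2
    have h4 := kb_roots2 (hroot u hu) (hroot v hv) huv
    have h5 := kb_roots2 (hroot u hu) (hroot w hw) huw
    exact hvw (by linear_combination h4 - h5)
  · rw [Finset.not_disjoint_iff] at hd
    obtain ⟨z, hzA, hzB⟩ := hd
    obtain ⟨⟨x, hx⟩, hz⟩ := hB z hzB
    have h3 : algebraMap F F' s = 0 := by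
      rw [← (hA z hzA).1, ← hx, ← map_pow, FiniteField.pow_card]
      exact kb_two _
    have huniq : ∀ r : F', r ^ 2 + algebraMap F F' s * r + algebraMap F F' (ν : F) = 0 → r = z := by
      intro r hr
      by_contra hne
      have h4 := kb_roots2 hr hz hne
      rw [h3] at h4
      have h5 := kb_two z
      exact hne (by linear_combination h4 - h5)
    have hA1 : SA.card ≤ 1 := Finset.card_le_one.2 fun r hr t ht => by
      rw [huniq r (hA r hr).2, huniq t (hA t ht).2]
    have hB1 : SB.card ≤ 1 := Finset.card_le_one.2 fun r hr t ht => by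
      rw [huniq r (hB r hr).2, huniq t (hB t ht).2]
    omega

private theorem kb_eq (h2 : Module.finrank F F' = 2) (p : F × Fˣ) :
    (univ.filter (fun z : F'ˣ => fA F F' z = p)).card +
      (univ.filter (fun q : Fˣ × Fˣ => fB F q = p)).card = 2 := by
  have hsum : ∑ p : F × Fˣ, ((univ.filter (fun z : F'ˣ => fA F F' z = p)).card +
      (univ.filter (fun q : Fˣ × Fˣ => fB F q = p)).card) = ∑ p : F × Fˣ, 2 := by
    rw [Finset.sum_add_distrib, ← Finset.card_eq_sum_card_fiberwise (fun _ _ => Finset.mem_coe.2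
      (Finset.mem_univ _)), ← Finset.card_eq_sum_card_fiberwise (fun _ _ => Finset.mem_coe.2
      (Finset.mem_univ _)), Finset.sum_const, Finset.card_univ, Finset.card_univ,
      Finset.card_univ, Fintype.card_prod, Fintype.card_prod, Fintype.card_units,
      Fintype.card_units, Module.card_eq_pow_finrank (K := F) (V := F'), h2, smul_eq_mul]
    have h3 : 1 ≤ Fintype.card F := Fintype.card_pos
    obtain ⟨r, hr⟩ := Nat.exists_eq_add_of_le h3
    rw [hr]
    have e1 : 1 + r - 1 = r := by omega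
    have e2 : (1 + r) ^ 2 - 1 = r ^ 2 + 2 * r := by
      have : (1 + r) ^ 2 = r ^ 2 + 2 * r + 1 := by ring
      omega
    rw [e1, e2]
    ring
  exact (Finset.sum_eq_sum_iff_of_le (fun p _ => kb_le h2 p)).1 hsum p (Finset.mem_univ _)

private theorem kb_sums (h2 : Module.finrank F F' = 2) (h : F × Fˣ → ℤ) :
    ∑ z : F'ˣ, h (fA F F' z) + ∑ q : Fˣ × Fˣ, h (fB F q) = 2 * ∑ p : F × Fˣ, h p := by
  have e1 : ∑ z : F'ˣ, h (fA F F' z) =
      ∑ p : F × Fˣ, ((univ.filter (fun z : F'ˣ => fA F F' z = p)).card : ℤ) * h p := by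
    rw [← Finset.sum_fiberwise univ (fun z : F'ˣ => fA F F' z)]
    refine Finset.sum_congr rfl fun p _ => ?_
    rw [Finset.sum_congr rfl (g := fun _ => h p) (fun z hz => by
      rw [(Finset.mem_filter.1 hz).2]), Finset.sum_const, nsmul_eq_mul]
  have e2 : ∑ q : Fˣ × Fˣ, h (fB F q) =
      ∑ p : F × Fˣ, ((univ.filter (fun q : Fˣ × Fˣ => fB F q = p)).card : ℤ) * h p := by
    rw [← Finset.sum_fiberwise univ (fun q : Fˣ × Fˣ => fB F q)]
    refine Finset.sum_congr rfl fun p _ => ?_
    rw [Finset.sum_congr rfl (g := fun _ => h p) (fun z hz => by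
      rw [(Finset.mem_filter.1 hz).2]), Finset.sum_const, nsmul_eq_mul]
  rw [e1, e2, ← Finset.sum_add_distrib, Finset.mul_sum]
  refine Finset.sum_congr rfl fun p _ => ?_
  rw [← add_mul]
  have h3 := kb_eq h2 p (F := F) (F' := F')
  have h4 : ((univ.filter (fun z : F'ˣ => fA F F' z = p)).card : ℤ) +
      ((univ.filter (fun q : Fˣ × Fˣ => fB F q = p)).card : ℤ) = 2 := by
    exact_mod_cast h3
  rw [h4]

end aux

theorem kl_ext (F F' : Type) [Field F] [Fintype F] [DecidableEq F] [CharP F 2] [Field F']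
    [Fintype F'] [DecidableEq F'] [CharP F' 2] [Algebra F F'] (h2 : Module.finrank F F' = 2) (a : F)
    (ha : a ≠ 0) :
    kl (tr2 F') 1 (algebraMap F F' a) + (kl (tr2 F) 1 a) ^ 2 = 2 * (Fintype.card F : ℤ) := by
  obtain ⟨h, hh⟩ : ∃ h : F × Fˣ → ℤ,
    h = fun p => eps (tr2 F (p.1 + a * (p.1 * ((p.2⁻¹ : Fˣ) : F)))) := ⟨_, rfl⟩
  have hA : kl (tr2 F') 1 (algebraMap F F' a) = ∑ z : F'ˣ, h (fA F F' z) := by
    unfold kl
    refine Finset.sum_congr rfl fun z _ => ?_
    rw [hh]
    show _ = eps (tr2 F (Algebra.trace F F' (z : F') + a * (Algebra.trace F F' (z : F') *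
      (((Units.map (Algebra.norm F : F' →* F) z)⁻¹ : Fˣ) : F))))
    rw [kb_tr F F']
    congr 2
    apply (algebraMap F F').injective
    have hz : (z : F') ≠ 0 := z.ne_zero
    have hN : algebraMap F F' (((Units.map (Algebra.norm F : F' →* F) z)⁻¹ : Fˣ) : F) =
        ((z : F') * (z : F') ^ (Fintype.card F))⁻¹ := by
      rw [Units.val_inv_eq_inv_val, map_inv₀, ← kb_norm h2]
      rfl
    rw [kb_trace h2, map_add (algebraMap F F'), map_mul (algebraMap F F'),
      map_mul (algebraMap F F'), hN, kb_trace h2, Units.val_inv_eq_inv_val]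
    have hfrob : ((1 : F') * z + algebraMap F F' a * (z : F')⁻¹) ^ (Fintype.card F) =
        (z : F') ^ (Fintype.card F) + algebraMap F F' a * ((z : F') ^ (Fintype.card F))⁻¹ := by
      have h3 : ∀ x y : F', (x + y) ^ (Fintype.card F) =
          x ^ (Fintype.card F) + y ^ (Fintype.card F) := by
        intro x y
        have h4 := map_add (FiniteField.frobeniusAlgHom F F') x y
        simpa only [FiniteField.coe_frobeniusAlgHom] using h4
      rw [h3, one_mul, mul_pow, ← map_pow, FiniteField.pow_card, inv_pow]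
    rw [hfrob]
    have hq : (z : F') ^ (Fintype.card F) ≠ 0 := pow_ne_zero _ hz
    field_simp
    ring
  have hB : (kl (tr2 F) 1 a) ^ 2 = ∑ q : Fˣ × Fˣ, h (fB F q) := by
    unfold kl
    rw [pow_two, Finset.sum_mul_sum, Fintype.sum_prod_type]
    refine Finset.sum_congr rfl fun x _ => Finset.sum_congr rfl fun y _ => ?_
    rw [hh]
    show _ = eps (tr2 F (((x : F) + y) + a * (((x : F) + y) * (((x * y)⁻¹ : Fˣ) : F))))
    rw [← eps_add, ← map_add]
    congr 2
    have hx : (x : F) ≠ 0 := x.ne_zero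
    have hy : (y : F) ≠ 0 := y.ne_zero
    rw [Units.val_inv_eq_inv_val, Units.val_inv_eq_inv_val, Units.val_inv_eq_inv_val,
      Units.val_mul]
    field_simp
    ring
  rw [hA, hB, kb_sums h2]
  congr 1
  rw [Fintype.sum_prod_type, Finset.sum_comm]
  have hν : ∀ ν : Fˣ, ∑ s : F, h (s, ν) = if ν = Units.mk0 a ha then (Fintype.card F : ℤ) else 0 := by
    intro ν
    have h3 : ∀ s : F, h (s, ν) = eps (tr2 F (s * (1 + a * ((ν⁻¹ : Fˣ) : F)))) := by
      intro s
      rw [hh]
      show eps (tr2 F (s + a * (s * ((ν⁻¹ : Fˣ) : F)))) = _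
      congr 2
      ring
    rw [Finset.sum_congr rfl (fun s _ => h3 s)]
    split_ifs with h4
    · have h5 : (1 : F) + a * ((ν⁻¹ : Fˣ) : F) = 0 := by
        rw [h4, Units.val_inv_eq_inv_val, Units.val_mk0, mul_inv_cancel₀ ha]
        exact kb_two 1
      simp only [h5, mul_zero, map_zero, eps_zero, Finset.sum_const, Finset.card_univ,
        nsmul_eq_mul, mul_one]
    · apply kb_sumc
      intro h5
      apply h4
      apply Units.ext
      rw [Units.val_mk0]
      have hne : (ν : F) ≠ 0 := ν.ne_zero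
      rw [Units.val_inv_eq_inv_val] at h5
      have h6 : (ν : F) + a = 0 := by
        have h7 : ((1 : F) + a * (ν : F)⁻¹) * ν = ν + a := by
          field_simp
        rw [← h7, h5, zero_mul]
      have h8 := kb_two a
      linear_combination h6 - h8
  rw [Finset.sum_congr rfl (fun ν _ => hν ν), Finset.sum_ite_eq' univ (Units.mk0 a ha)]
  simp

end Pool.Agent.GolS
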