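import Pool.Agent.GolS.KlA
import Pool.Agent.GolS.KlB

/-!
# Module KlC: the Weil bound for Kloosterman sums in characteristic 2

1. `|kl (tr2 F) 1 a| ≤ 2 √q` for `a ≠ 0`. Put `t(F,a) = (kl (tr2 F) 1 a)² / q`. By `kl_ext` with
   `F' = FiniteField.Extension F 2 2` (Mathlib.FieldTheory.Finite.Extension, a type in `Type`; degree
   2, `finrank_extension`; card `q²`) `t(F',a) = (2 q - κ²)²/q² = (t(F,a) - 2)²`. If
   `t(F,a) ≥ 4 + ε`, `ε > 0`, then `t(F',a) ≥ (2 + ε)² ≥ 4 + 4 ε`. By induction over `j` (for all `F`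
   at once): there is a field with `t ≥ 4 + 4^j ε`. But `t ≤ C²` by `kl_rough`. So `t(F,a) ≤ 4`.
2. General `l ≠ 0`: there is `θ ≠ 0` with `l x = tr2 F (θ x)` for all `x` (the trace form is
   nondegenerate; or count: the `q` maps `x ↦ tr2 F (θ x)` are pairwise different and there are
   exactly `q` additive maps `F → 𝔽₂`).
3. `kl l a b = kl (tr2 F) (θ a) (θ b) = kl (tr2 F) 1 (θ² a b)`: substitute `y ↦ (θ a)⁻¹ y`.
-/

namespace Pool.Agent.GolS

/-- The bound `kappa ^ 2 ≤ B q` for all fields. -/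
private def QB (B : ℝ) : Prop :=
  ∀ (F : Type) [Field F] [Fintype F] [DecidableEq F] [CharP F 2] (a : F), a ≠ 0 →
    ((kl (tr2 F) 1 a : ℤ) : ℝ) ^ 2 ≤ B * (Fintype.card F : ℝ)

private lemma qb_step {B : ℝ} (hB : 0 ≤ B) (h : QB B) : QB (2 + Real.sqrt B) := by
  intro F _ _ _ _ a ha
  haveI : Fact (Nat.Prime 2) := ⟨Nat.prime_two⟩
  haveI : NeZero (2 : ℕ) := ⟨two_ne_zero⟩
  let F' := FiniteField.Extension F 2 2
  letI : Fintype F' := Fintype.ofFinite F'
  letI : DecidableEq F' := Classical.decEq F'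
  haveI : CharP F' 2 := charP_of_injective_algebraMap (algebraMap F F').injective 2
  have hf : Module.finrank F F' = 2 := FiniteField.finrank_extension F 2 2
  have ha' : algebraMap F F' a ≠ 0 := by
    intro h0
    exact ha ((map_eq_zero (algebraMap F F')).1 h0)
  have h1 := kl_ext F F' hf a ha
  have h2 := h F' (algebraMap F F' a) ha'
  have hc : (Fintype.card F' : ℝ) = (Fintype.card F : ℝ) ^ 2 := by
    have h3 : Fintype.card F' = Fintype.card F ^ 2 := by
      have h4 := Module.card_eq_pow_finrank (K := F) (V := F')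
      rw [hf] at h4
      exact h4
    rw [h3]
    push_cast
    rfl
  rw [hc] at h2
  set κ' : ℝ := ((kl (tr2 F') 1 (algebraMap F F' a) : ℤ) : ℝ) with hκ'
  have h5 : κ' + ((kl (tr2 F) 1 a : ℤ) : ℝ) ^ 2 = 2 * (Fintype.card F : ℝ) := by
    rw [hκ']
    exact_mod_cast h1
  have hq : (0 : ℝ) ≤ (Fintype.card F : ℝ) := Nat.cast_nonneg _
  have h6 : |κ'| ≤ Real.sqrt B * (Fintype.card F : ℝ) := by
    apply abs_le_of_sq_le_sq _ (by positivity)
    rw [mul_pow, Real.sq_sqrt hB]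
    exact h2
  have h7 := neg_abs_le κ'
  linarith

private lemma qb_four : QB 4 := by
  set S : Set ℝ := {B : ℝ | 4 ≤ B ∧ QB B} with hS
  have hne : S.Nonempty := by
    obtain ⟨C, hC⟩ := kl_rough
    refine ⟨max 4 (C ^ 2), le_max_left _ _, ?_⟩
    intro F _ _ _ _ a ha
    have h1 := hC F a ha
    have hq : (0 : ℝ) ≤ (Fintype.card F : ℝ) := Nat.cast_nonneg _
    have h2 : ((kl (tr2 F) 1 a : ℤ) : ℝ) ^ 2 ≤ (C * Real.sqrt (Fintype.card F)) ^ 2 := by
      rw [← sq_abs]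
      exact pow_le_pow_left₀ (abs_nonneg _) h1 2
    rw [mul_pow, Real.sq_sqrt hq] at h2
    exact h2.trans (mul_le_mul_of_nonneg_right (le_max_right _ _) hq)
  have hbd : BddBelow S := ⟨4, fun B hB => hB.1⟩
  set b : ℝ := sInf S with hb
  have h4 : 4 ≤ b := le_csInf hne fun B hB => hB.1
  have hQ : QB b := by
    intro F _ _ _ _ a ha
    have hq : (0 : ℝ) < (Fintype.card F : ℝ) := by
      have : 0 < Fintype.card F := Fintype.card_pos
      exact_mod_cast this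
    rw [← div_le_iff₀ hq]
    refine le_csInf hne fun B hB => ?_
    rw [div_le_iff₀ hq]
    exact hB.2 F a ha
  have hs2 : 2 ≤ Real.sqrt b := by
    rw [show (2 : ℝ) = Real.sqrt 4 by
      rw [show (4 : ℝ) = 2 ^ 2 by norm_num]
      exact (Real.sqrt_sq (by norm_num)).symm]
    exact Real.sqrt_le_sqrt h4
  have hmem : 2 + Real.sqrt b ∈ S := ⟨by linarith, qb_step (by linarith) hQ⟩
  have h5 : b ≤ 2 + Real.sqrt b := csInf_le hbd hmem
  have h6 : Real.sqrt b ^ 2 = b := Real.sq_sqrt (by linarith)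
  have h7 : Real.sqrt b ≤ 2 := by nlinarith
  have h8 : b = 4 := by nlinarith
  rw [← h8]
  exact hQ

private lemma exists_theta {F : Type} [Field F] [Fintype F] [CharP F 2] (l : F →+ ZMod 2)
    (hl : l ≠ 0) : ∃ θ : F, θ ≠ 0 ∧ ∀ x, l x = tr2 F (θ * x) := by
  letI := ZMod.algebra F 2
  haveI : Fact (Nat.Prime 2) := ⟨Nat.prime_two⟩
  haveI : FiniteDimensional (ZMod 2) F := Module.Finite.of_finite
  have hnd := traceForm_nondegenerate (ZMod 2) F
  set l' : Module.Dual (ZMod 2) F := AddMonoidHom.toZModLinearMap 2 l with hl'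
  set θ : F := ((Algebra.traceForm (ZMod 2) F).toDual hnd).symm l' with hθ
  have h1 : ∀ x, l x = tr2 F (θ * x) := by
    intro x
    have h2 : (Algebra.traceForm (ZMod 2) F).toDual hnd θ = l' := by
      rw [hθ]
      exact LinearEquiv.apply_symm_apply _ _
    have h3 := LinearMap.congr_fun h2 x
    rw [LinearMap.BilinForm.toDual_def] at h3
    exact h3.symm
  refine ⟨θ, ?_, h1⟩
  intro h0
  apply hl
  ext x
  rw [h1, h0, zero_mul, map_zero]
  rfl

private lemma kl_subst {F : Type} [Field F] [Fintype F] [DecidableEq F] [CharP F 2]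
    {l : F →+ ZMod 2} {θ : F} (hθ : θ ≠ 0) (h : ∀ x, l x = tr2 F (θ * x)) {a b : F} (ha : a ≠ 0) :
    kl l a b = kl (tr2 F) 1 (θ ^ 2 * a * b) := by
  unfold kl
  set u : Fˣ := Units.mk0 (θ * a) (mul_ne_zero hθ ha) with hu
  have hu' : (u : F) = θ * a := rfl
  rw [← Equiv.sum_comp (Equiv.mulLeft u⁻¹)]
  refine Finset.sum_congr rfl fun z _ => ?_
  rw [h]
  congr 2
  rw [Equiv.coe_mulLeft]
  have h1 : θ * a * ((u⁻¹ : Fˣ) : F) = 1 := by
    rw [← hu', Units.mul_inv]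
  have e1 : ((u⁻¹ * z : Fˣ) : F) = ((u⁻¹ : Fˣ) : F) * (z : F) := Units.val_mul _ _
  have e2 : (((u⁻¹ * z)⁻¹ : Fˣ) : F) = ((z⁻¹ : Fˣ) : F) * (θ * a) := by
    rw [mul_inv_rev, inv_inv, Units.val_mul, hu']
  rw [e1, e2]
  linear_combination (z : F) * h1

theorem abs_kl_le {F : Type} [Field F] [Fintype F] [DecidableEq F] [CharP F 2] (l : F →+ ZMod 2)
    (hl : l ≠ 0) {a b : F} (ha : a ≠ 0) (hb : b ≠ 0) :
    |(kl l a b : ℝ)| ≤ 2 * Real.sqrt (Fintype.card F) := by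
  obtain ⟨θ, hθ, h1⟩ := exists_theta l hl
  rw [kl_subst hθ h1 ha]
  have h2 : θ ^ 2 * a * b ≠ 0 := mul_ne_zero (mul_ne_zero (pow_ne_zero 2 hθ) ha) hb
  have h3 := qb_four F (θ ^ 2 * a * b) h2
  have hq : (0 : ℝ) ≤ (Fintype.card F : ℝ) := Nat.cast_nonneg _
  apply abs_le_of_sq_le_sq _ (by positivity)
  rw [mul_pow, Real.sq_sqrt hq]
  linarith

end Pool.Agent.GolS
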