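import Pool.Agent.GolS.Witt

/-!
# Module Mult: 2 is a multiplier

Let `p = 2^n - 1`, `a : ZMod p → ℤ` with `∑_i a_i a_{i+τ} = -1` for `τ ≠ 0` and `= 2^n - 1` for
`τ = 0` (for example `a_i = ±1`, two-level). Put `S_τ = ∑_i a_i a_{2i+τ}`.

**Step 1** (`two_pow_dvd`): `2^n ∣ 1 + S_τ` for all `τ`. Take `W, φ, ζ` from `exists_ring`;
`A_k = ∑_i a_i ζ^{k i} ∈ W` (`k ∈ ZMod p`; `ζ^p = 1`).
* `A_k A_{-k} = ∑_τ ζ^{-kτ} ∑_i a_i a_{i+τ} = 2^n - ∑_τ ζ^{-kτ} = 2^n` for `k ≠ 0`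
  (`∑_τ ζ^{kτ} = 0` for `k ≠ 0`, as `(ζ^k - 1) ∑ = 0` and `ζ^k ≠ 1`), and `A_0² = 2^n - p = 1`.
* `φ(A_{-k}) = A_{-2k}` and `∑_τ S_τ ζ^{kτ} = A_k A_{-2k} = A_k φ(A_{-k})`.
* If `x y = 2^n` in `W` (domain, 2 prime) then `x = 2^j·unit` for some `j ≤ n`, so `φ(x) = 2^j·unit'`
  and `2^n ∣ φ(x) y`. Hence `2^n ∣ ∑_τ S_τ ζ^{kτ}` for `k ≠ 0`.
* So `B_k := ∑_τ (1 + S_τ) ζ^{kτ}` is divisible by `2^n` for all `k` (`k ≠ 0`: the `1` contributes `0`;
  `k = 0`: `p + A_0² = 2^n`). Inversion: `∑_k ζ^{-kσ} B_k = p (1 + S_σ)`, so `2^n ∣ p (1 + S_σ)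
  = 2^n (1+S_σ) - (1+S_σ)`, `2^n ∣ 1 + S_σ` in `W`, hence in `ℤ` (if an odd integer times `2^j`,
  `j < n`, is divisible by `2^n` in `W` then `2 ∣` an odd integer, so `2 ∣ 1`, contradiction).

**Step 2** (`multiplier`): now `a_i = eps (s i) = ±1`. `∑_τ S_τ = (∑ a)² = 1`, so
`∑_τ (1 + S_τ) = 2^n`. `∑_τ S_τ² = ∑_τ ∑_{i,j} a_i a_j a_{2i+τ} a_{2j+τ}
= ∑_{i,j} a_i a_j C(2(j - i))`, `C(τ) = ∑_i a_i a_{i+τ} = 2^n·1_{τ=0} - 1`, so
`= 2^n ∑_i a_i² - (∑ a)² = 2^n p - 1` (`p` is odd). Hence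
`∑_τ (1 + S_τ)² = p + 2·1 + 2^n p - 1 = p + 1 + 2^n p = 2^{2n}`. With `1 + S_τ = 2^n F_τ`:
`∑ F_τ² = 1`, `∑ F_τ = 1`, so `F_τ = 1` for exactly one `τ`, i.e. `S_τ = 2^n - 1 = p` for some `τ`.
`S_τ` is a sum of `p` terms `±1`, so `a_i = a_{2i+τ}` for all `i`. So `s(2i + τ) = s(i)`; put
`g = -τ`: with `i = i' - τ`, `s(2 i' - 2τ + τ) = s(i' - τ)`, i.e. `s(2 i' + g) = s(i' + g)`.
-/

namespace Pool.Agent.GolS

open Finset

section Four

variable {P : ℕ} [NeZero P] {W : Type} [CommRing W] [IsDomain W]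

/-- the Fourier transform -/
private def muA (ψ : AddChar (ZMod P) W) (a : ZMod P → ℤ) (k : ZMod P) : W :=
  ∑ i, (a i : W) * ψ (i * k)

private theorem mu_sum {ψ : AddChar (ZMod P) W} (hψ : ψ.IsPrimitive) (k : ZMod P) :
    ∑ x : ZMod P, ψ (x * k) = if k = 0 then (P : W) else 0 := by
  rw [AddChar.sum_mulShift k hψ, ZMod.card]
  split_ifs <;> simp

private theorem mu_conv {ψ : AddChar (ZMod P) W} (a b : ZMod P → ℤ) (u k : ZMod P) :
    muA ψ a (-(u * k)) * muA ψ b k = ∑ τ, ((∑ i, a i * b (u * i + τ) : ℤ) : W) * ψ (τ * k) := by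
  unfold muA
  rw [Finset.sum_mul_sum]
  have h1 : ∀ i : ZMod P, ∑ j, (a i : W) * ψ (i * -(u * k)) * ((b j : W) * ψ (j * k)) =
      ∑ τ, (a i : W) * (b (u * i + τ) : W) * ψ (τ * k) := by
    intro i
    rw [← Equiv.sum_comp (Equiv.addLeft (u * i))]
    refine Finset.sum_congr rfl fun τ _ => ?_
    show (a i : W) * ψ (i * -(u * k)) * ((b (u * i + τ) : W) * ψ ((u * i + τ) * k)) =
      (a i : W) * (b (u * i + τ) : W) * ψ (τ * k)
    have h2 : ψ (τ * k) = ψ (i * -(u * k)) * ψ ((u * i + τ) * k) := by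
      rw [← AddChar.map_add_eq_mul]
      congr 1
      ring
    rw [h2]
    ring
  rw [Finset.sum_congr rfl fun i _ => h1 i, Finset.sum_comm]
  refine Finset.sum_congr rfl fun τ _ => ?_
  push_cast
  rw [Finset.sum_mul]

private theorem mu_int (h2 : Prime (2 : W)) (n : ℕ) : ∀ m : ℤ, (2 : W) ^ n ∣ (m : W) → (2 : ℤ) ^ n ∣ m := by
  induction n with
  | zero =>
    intro m _
    rw [pow_zero]
    exact one_dvd _
  | succ n ih =>
    intro m hm
    have hd : (2 : W) ∣ (m : W) := (dvd_pow_self 2 (Nat.succ_ne_zero n)).trans hm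
    rcases Int.even_or_odd' m with ⟨q, hq | hq⟩
    · subst hq
      have h3 : ((2 * q : ℤ) : W) = 2 * (q : W) := by push_cast; ring
      rw [h3, pow_succ, mul_comm] at hm
      have h4 : (2 : W) ^ n ∣ (q : W) := (mul_dvd_mul_iff_left h2.ne_zero).1 hm
      rw [pow_succ, mul_comm]
      exact mul_dvd_mul_left 2 (ih q h4)
    · exfalso
      subst hq
      have h3 : ((2 * q + 1 : ℤ) : W) = 2 * (q : W) + 1 := by push_cast; ring
      rw [h3] at hd
      have h4 : (2 : W) ∣ 1 := (dvd_add_right (Dvd.intro _ rfl)).1 hd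
      exact h2.not_isUnit (isUnit_of_dvd_one h4)

private theorem mu_core {n : ℕ} (hP : P + 1 = 2 ^ n) (a : ZMod P → ℤ)
    (ha : ∀ τ : ZMod P, ∑ i, a i * a (i + τ) = (if τ = 0 then 2 ^ n else 0) - 1)
    (φ : W →+* W) {ζ : W} (h2 : Prime (2 : W)) (hζ : IsPrimitiveRoot ζ P) (hφ : φ ζ = ζ ^ 2)
    (σ : ZMod P) : (2 : ℤ) ^ n ∣ 1 + ∑ i, a i * a (2 * i + σ) := by
  set ψ : AddChar (ZMod P) W := AddChar.zmodChar P ((IsPrimitiveRoot.iff_def ζ P).mp hζ).left with hψd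
  have hψ : ψ.IsPrimitive := AddChar.zmodChar_primitive_of_primitive_root P hζ
  have hPW : (P : W) + 1 = 2 ^ n := by exact_mod_cast congrArg (fun t : ℕ => (t : W)) hP
  have hφψ : ∀ x, φ (ψ x) = ψ (2 * x) := by
    intro x
    have h3 : ψ (2 * x) = ψ x * ψ x := by
      rw [two_mul, AddChar.map_add_eq_mul]
    rw [h3]
    have h4 : ψ x = ζ ^ x.val := AddChar.zmodChar_apply _ x
    rw [h4, map_pow, hφ]
    ring
  have hφA : ∀ k, φ (muA ψ a k) = muA ψ a (2 * k) := by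
    intro k
    unfold muA
    rw [map_sum]
    refine Finset.sum_congr rfl fun i _ => ?_
    rw [map_mul, hφψ, map_intCast]
    congr 2
    ring
  -- the norm equation
  have hAA : ∀ k, muA ψ a (-k) * muA ψ a k = 2 ^ n - (if k = 0 then (P : W) else 0) := by
    intro k
    have h3 := mu_conv (ψ := ψ) a a 1 k
    rw [one_mul] at h3
    rw [h3]
    have h4 : ∀ τ : ZMod P, ((∑ i, a i * a (1 * i + τ) : ℤ) : W) * ψ (τ * k) =
        (if τ = 0 then (2 : W) ^ n else 0) - ψ (τ * k) := by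
      intro τ
      simp only [one_mul]
      rw [ha τ]
      by_cases hτ : τ = 0
      · rw [if_pos hτ, if_pos hτ, hτ, zero_mul, AddChar.map_zero_eq_one]
        push_cast
        ring
      · rw [if_neg hτ, if_neg hτ]
        push_cast
        ring
    rw [Finset.sum_congr rfl fun τ _ => h4 τ, Finset.sum_sub_distrib, mu_sum hψ,
      Finset.sum_ite_eq' univ (0 : ZMod P) (fun _ => (2 : W) ^ n)]
    simp
  -- divisibility of the transforms
  have hB : ∀ k, (2 : W) ^ n ∣ ∑ τ, ((1 + ∑ i, a i * a (2 * i + τ) : ℤ) : W) * ψ (τ * k) := by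
    intro k
    have h3 := mu_conv (ψ := ψ) a a 2 k
    have h4 : ∑ τ, ((1 + ∑ i, a i * a (2 * i + τ) : ℤ) : W) * ψ (τ * k) =
        (if k = 0 then (P : W) else 0) + muA ψ a (-(2 * k)) * muA ψ a k := by
      rw [h3, ← mu_sum hψ k, ← Finset.sum_add_distrib]
      refine Finset.sum_congr rfl fun τ _ => ?_
      push_cast
      ring
    rw [h4]
    by_cases hk : k = 0
    · subst hk
      have h5 := hAA 0
      rw [if_pos rfl, neg_zero] at h5
      rw [if_pos rfl, mul_zero, neg_zero, h5]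
      exact dvd_of_eq (by ring)
    · rw [if_neg hk, zero_add]
      have h5 := hAA k
      rw [if_neg hk, sub_zero] at h5
      have h6 : muA ψ a (-k) * muA ψ a k = 1 * 2 ^ n := by rw [h5, one_mul]
      obtain ⟨i, j, b, c, hij, _, hx, hy⟩ := mul_eq_mul_prime_pow h2 h6
      have h7 : muA ψ a (-(2 * k)) = φ b * 2 ^ i := by
        have h8 := hφA (-k)
        rw [hx, map_mul, map_pow, map_ofNat] at h8
        rw [h8]
        congr 1
        ring
      rw [h7, hy]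
      exact ⟨φ b * c, by rw [← hij, pow_add]; ring⟩
  -- inversion
  have hI : (2 : W) ^ n ∣ ∑ k, ψ (-σ * k) * ∑ τ, ((1 + ∑ i, a i * a (2 * i + τ) : ℤ) : W) * ψ (τ * k) :=
    Finset.dvd_sum fun k _ => (hB k).mul_left _
  have hI2 : ∑ k, ψ (-σ * k) * ∑ τ, ((1 + ∑ i, a i * a (2 * i + τ) : ℤ) : W) * ψ (τ * k) =
      (P : W) * ((1 + ∑ i, a i * a (2 * i + σ) : ℤ) : W) := by
    have h3 : ∀ k : ZMod P, ψ (-σ * k) * ∑ τ, ((1 + ∑ i, a i * a (2 * i + τ) : ℤ) : W) * ψ (τ * k) =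
        ∑ τ, ((1 + ∑ i, a i * a (2 * i + τ) : ℤ) : W) * ψ (k * (τ - σ)) := by
      intro k
      rw [Finset.mul_sum]
      refine Finset.sum_congr rfl fun τ _ => ?_
      have h4 : ψ (k * (τ - σ)) = ψ (-σ * k) * ψ (τ * k) := by
        rw [← AddChar.map_add_eq_mul]
        congr 1
        ring
      rw [h4]
      ring
    rw [Finset.sum_congr rfl fun k _ => h3 k, Finset.sum_comm]
    have h5 : ∀ τ : ZMod P, ∑ k, ((1 + ∑ i, a i * a (2 * i + τ) : ℤ) : W) * ψ (k * (τ - σ)) =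
        if τ = σ then (P : W) * ((1 + ∑ i, a i * a (2 * i + τ) : ℤ) : W) else 0 := by
      intro τ
      rw [← Finset.mul_sum, mu_sum hψ]
      by_cases hτ : τ = σ
      · rw [if_pos hτ, if_pos (sub_eq_zero.2 hτ), mul_comm]
      · rw [if_neg hτ, if_neg (fun h => hτ (sub_eq_zero.1 h)), mul_zero]
    rw [Finset.sum_congr rfl fun τ _ => h5 τ, Finset.sum_ite_eq' univ σ]
    simp
  rw [hI2] at hI
  apply mu_int h2 n
  have h3 : (P : W) = 2 ^ n - 1 := by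
    rw [← hPW]
    ring
  rw [h3, sub_mul, one_mul] at hI
  exact (dvd_sub_right (Dvd.intro _ rfl)).1 hI

end Four

private theorem mu_P {n : ℕ} : (2 ^ n - 1) + 1 = 2 ^ n := Nat.sub_add_cancel Nat.one_le_two_pow

theorem two_pow_dvd {n : ℕ} (hn : 1 ≤ n) [NeZero (2 ^ n - 1)] (a : ZMod (2 ^ n - 1) → ℤ)
    (ha : ∀ τ : ZMod (2 ^ n - 1), ∑ i, a i * a (i + τ) = if τ = 0 then 2 ^ n - 1 else -1)
    (τ : ZMod (2 ^ n - 1)) : (2 : ℤ) ^ n ∣ 1 + ∑ i, a i * a (2 * i + τ) := by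
  obtain ⟨W, _, _, φ, ζ, h2, h3, h4, h5⟩ := exists_ring hn
  have hζ : IsPrimitiveRoot ζ (2 ^ n - 1) :=
    IsPrimitiveRoot.mk_of_lt ζ (NeZero.pos _) h3 h4
  refine mu_core mu_P a ?_ φ h2 hζ h5 τ
  intro σ
  rw [ha σ]
  split_ifs <;> ring

theorem multiplier {n : ℕ} (hn : 1 ≤ n) [NeZero (2 ^ n - 1)] (s : ZMod (2 ^ n - 1) → ZMod 2)
    (hs : ∀ τ : ZMod (2 ^ n - 1), τ ≠ 0 → ∑ i, eps (s i) * eps (s (i + τ)) = -1) :
    ∃ g : ZMod (2 ^ n - 1), ∀ i, s (2 * i + g) = s (i + g) := by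
  have hPZ : (((2 ^ n - 1 : ℕ) : ℤ)) = 2 ^ n - 1 := by
    have := congrArg (fun t : ℕ => (t : ℤ)) (mu_P (n := n))
    push_cast at this
    have h2 : ((2 ^ n - 1 : ℕ) : ℤ) + 1 = 2 ^ n := by exact_mod_cast mu_P (n := n)
    linarith
  have ha : ∀ τ : ZMod (2 ^ n - 1), ∑ i, eps (s i) * eps (s (i + τ)) =
      if τ = 0 then (2 : ℤ) ^ n - 1 else -1 := by
    intro τ
    by_cases hτ : τ = 0
    · rw [if_pos hτ, hτ]
      simp only [add_zero, eps_mul_self]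
      rw [Finset.sum_const, Finset.card_univ, ZMod.card, nsmul_eq_mul, mul_one, hPZ]
    · rw [if_neg hτ]
      exact hs τ hτ
  have hdiv := two_pow_dvd hn (fun i => eps (s i)) ha
  -- the sum of all cross-correlations
  set E : ℤ := ∑ i, eps (s i) with hE
  have hE2 : E * E = 1 := by
    have h1 : ∑ τ, ∑ i, eps (s i) * eps (s (i + τ)) = E * E := by
      rw [Finset.sum_comm, hE, Finset.sum_mul]
      refine Finset.sum_congr rfl fun i _ => ?_
      rw [← Finset.mul_sum]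
      congr 1
      exact Equiv.sum_comp (Equiv.addLeft i) (fun j => eps (s j))
    rw [← h1, Finset.sum_congr rfl fun τ _ => ha τ]
    have h2 : ∀ τ : ZMod (2 ^ n - 1), (if τ = 0 then (2 : ℤ) ^ n - 1 else -1) =
        (if τ = 0 then (2 : ℤ) ^ n else 0) + -1 := by
      intro τ
      split_ifs <;> ring
    rw [Finset.sum_congr rfl fun τ _ => h2 τ, Finset.sum_add_distrib, Finset.sum_const,
      Finset.card_univ, ZMod.card, nsmul_eq_mul, hPZ,
      Finset.sum_ite_eq' univ (0 : ZMod (2 ^ n - 1)) (fun _ => (2 : ℤ) ^ n)]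
    simp
  have hS : ∑ τ, (1 + ∑ i, eps (s i) * eps (s (2 * i + τ))) = 2 ^ n := by
    rw [Finset.sum_add_distrib, Finset.sum_const, Finset.card_univ, ZMod.card, nsmul_eq_mul, hPZ,
      Finset.sum_comm]
    have h1 : ∑ i, ∑ τ, eps (s i) * eps (s (2 * i + τ)) = E * E := by
      rw [hE, Finset.sum_mul]
      refine Finset.sum_congr rfl fun i _ => ?_
      rw [← Finset.mul_sum]
      congr 1
      exact Equiv.sum_comp (Equiv.addLeft (2 * i)) (fun j => eps (s j))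
    rw [h1, hE2]
    ring
  obtain ⟨τ, hτ⟩ : ∃ τ, 0 < 1 + ∑ i, eps (s i) * eps (s (2 * i + τ)) := by
    by_contra hcon
    push Not at hcon
    have h1 : ∑ τ, (1 + ∑ i, eps (s i) * eps (s (2 * i + τ))) ≤ 0 :=
      Finset.sum_nonpos fun τ _ => hcon τ
    rw [hS] at h1
    have : (0 : ℤ) < 2 ^ n := by positivity
    linarith
  have hge : (2 : ℤ) ^ n ≤ 1 + ∑ i, eps (s i) * eps (s (2 * i + τ)) := Int.le_of_dvd hτ (hdiv τ)
  have hterm : ∀ i, eps (s i) * eps (s (2 * i + τ)) ≤ 1 := by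
    intro i
    have h1 := abs_eps (s i)
    have h2 := abs_eps (s (2 * i + τ))
    have h3 : |eps (s i) * eps (s (2 * i + τ))| = 1 := by rw [abs_mul, h1, h2, mul_one]
    exact (le_abs_self _).trans h3.le
  have hall : ∀ i, eps (s i) * eps (s (2 * i + τ)) = 1 := by
    have hsum : ∑ i : ZMod (2 ^ n - 1), (1 - eps (s i) * eps (s (2 * i + τ))) = 0 := by
      have hnn : 0 ≤ ∑ i : ZMod (2 ^ n - 1), (1 - eps (s i) * eps (s (2 * i + τ))) :=
        Finset.sum_nonneg fun i _ => by linarith [hterm i]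
      have h1 : ∑ i : ZMod (2 ^ n - 1), (1 - eps (s i) * eps (s (2 * i + τ))) =
          ((2 : ℤ) ^ n - 1) - ∑ i, eps (s i) * eps (s (2 * i + τ)) := by
        rw [Finset.sum_sub_distrib, Finset.sum_const, Finset.card_univ, ZMod.card, nsmul_eq_mul,
          mul_one, hPZ]
      rw [h1] at hnn ⊢
      linarith
    intro i
    have h2 := (Finset.sum_eq_zero_iff_of_nonneg (fun i _ => by
      show 0 ≤ 1 - eps (s i) * eps (s (2 * i + τ))
      linarith [hterm i])).1 hsum i (Finset.mem_univ i)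
    linarith
  have hshift : ∀ i, s i = s (2 * i + τ) := by
    intro i
    apply eps_inj.1
    rcases eps_eq (s i) with h1 | h1 <;> rcases eps_eq (s (2 * i + τ)) with h2 | h2 <;>
      have h3 := hall i <;> rw [h1, h2] at h3 ⊢ <;> norm_num at h3
  refine ⟨-τ, fun i => ?_⟩
  have h1 := hshift (i + -τ)
  rw [h1]
  congr 1
  ring

end Pool.Agent.GolS
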