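import Pool.Agent.GolS.Prop

/-!
# Module Start: choice of the starting point

`p = 2^n - 1`, `Q = n² K`, `9 Q² < 2^n`, `n ≥ 21`. For each `i ∈ ZMod p` let `z i` be the solution of the
recurrence `c` with `z i k = s(i+k)`, `k < n` (exists by recursion).
* `propagate` with `N = n`: for every `t < p` (`< 2^n`) `#{i : s(i+t) ≠ z i t} ≤ Q`.
* with `N = n + 1`: for `k < n` we have `p + k < 2^{n+1}`, so `#{i : s(i+p+k) ≠ z i (p+k)} ≤ (n+1) n K`.
  Let `E` be the set of `i` for which this fails for some `k < n`: `|E| ≤ n (n+1) n K = (n+1) Q`. For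
  `i ∉ E`: `z i (p+k) = s(i+p+k) = s(i+k) = z i k` for `k < n` (`p = 0` in `ZMod p`), hence
  `z i (p+t) = z i t` for all `t` (both satisfy the recurrence): `Per n (z i)`.
* Let `w_i = #{t < p : s(i+t) ≠ z i t}`; `∑_i w_i ≤ p Q`. If `20 w_i > 21 Q` for all `i ∉ E` then
  `20 w_i ≥ 21 Q + 1`, `(p - (n+1) Q) (21 Q + 1) ≤ 20 p Q`, so `p (Q + 1) ≤ (n+1) Q (21 Q + 1)
  ≤ 21 (n+1) Q (Q+1)`, `p ≤ 21 (n+1) Q`. But `(21 (n+1) Q)² = 441 (n+1)² Q² ≤ 49 (n+1)² 2^n < p²` for
  `n ≥ 21` (`49 (n+1)² < 2^n - 2`: induction from `n = 21`, `49·484 = 23716`). Contradiction.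
-/

namespace Pool.Agent.GolS

/-- solutions of the recurrence with given initial values -/
private theorem st_sol {n : ℕ} (c : Fin n → ZMod 2) (x : ℕ → ZMod 2) :
    ∃ z : ℕ → ZMod 2, Rec n c z ∧ ∀ k < n, z k = x k := by
  let E : LinearRecurrence (ZMod 2) := ⟨n, c⟩
  refine ⟨E.mkSol (fun k => x k), ?_, ?_⟩
  · intro i
    exact E.is_sol_mkSol _ i
  · intro k hk
    exact E.mkSol_eq_init (fun k => x k) ⟨k, hk⟩

/-- uniqueness -/
private theorem st_uniq {n : ℕ} {c : Fin n → ZMod 2} {y z : ℕ → ZMod 2} (hy : Rec n c y)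
    (hz : Rec n c z) (h : ∀ k < n, y k = z k) : ∀ t, y t = z t := by
  intro t
  induction t using Nat.strong_induction_on with
  | _ t ih =>
    rcases Nat.lt_or_ge t n with ht | ht
    · exact h t ht
    · obtain ⟨r, rfl⟩ := Nat.exists_eq_add_of_le' ht
      rw [hy r, hz r]
      refine Finset.sum_congr rfl fun j _ => ?_
      rw [ih (r + j) (by have := j.2; omega)]

private theorem st_pow {n : ℕ} (hn : 21 ≤ n) : 49 * (n + 1) ^ 2 + 2 < 2 ^ n := by
  induction n, hn using Nat.le_induction with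
  | base => norm_num
  | succ m hm ih =>
    have h : 2 ^ (m + 1) = 2 * 2 ^ m := by ring
    rw [h]
    nlinarith

private theorem st_aux {n p : ℕ} (hn : 21 ≤ n) (h2n : 2 ^ n = p + 1) [NeZero p]
    (s : ZMod p → ZMod 2)
    (hs : ∀ i, s (2 * i) = s i) (c : Fin n → ZMod 2) (K : ℕ)
    (hK : (Finset.univ.filter fun i : ZMod p =>
      s (i + (n : ZMod p)) ≠
        ∑ j : Fin n, c j * s (i + ((j : ℕ) : ZMod p))).card ≤ K)
    (hQ : 9 * n ^ 4 * K ^ 2 < 2 ^ n) :
    ∃ (i₀ : ZMod p) (z : ℕ → ZMod 2), Rec n c z ∧ (∀ i, z (i + p) = z i) ∧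
      20 * ((Finset.range p).filter fun t : ℕ =>
        s (i₀ + (t : ZMod p)) ≠ z t).card ≤ 21 * (n ^ 2 * K) := by
  classical
  have hodd : Odd p := by
    rw [← Nat.not_even_iff_odd]
    intro hev
    have h1 : Even (2 ^ n) := (Nat.even_pow.2 ⟨even_two, by omega⟩)
    rw [h2n] at h1
    exact (Nat.even_add_one.1 h1) hev
  have hex : ∀ i : ZMod p, ∃ z : ℕ → ZMod 2, Rec n c z ∧ ∀ k < n, z k = s (i + (k : ZMod p)) :=
    fun i => st_sol c fun k => s (i + (k : ZMod p))
  choose z hz hz0 using hex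
  have hnlt : n < 2 ^ n := Nat.lt_two_pow_self
  have prop := fun N t ht => propagate hodd (by omega : 1 ≤ n) s hs c z hz hz0 K hK N t ht
  set Q := n ^ 2 * K with hQdef
  -- the bad starting points
  set E : Finset (ZMod p) := (Finset.range n).biUnion fun k =>
    Finset.univ.filter fun i : ZMod p => s (i + ((p + k : ℕ) : ZMod p)) ≠ z i (p + k) with hE
  have hEc : E.card ≤ (n + 1) * Q := by
    calc E.card ≤ ∑ k ∈ Finset.range n, (Finset.univ.filter fun i : ZMod p =>
          s (i + ((p + k : ℕ) : ZMod p)) ≠ z i (p + k)).card := Finset.card_biUnion_le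
      _ ≤ ∑ _k ∈ Finset.range n, (n + 1) * n * K := by
          refine Finset.sum_le_sum fun k hk => prop (n + 1) (p + k) ?_
          rw [Finset.mem_range] at hk
          rw [pow_succ]
          omega
      _ = (n + 1) * Q := by
          rw [Finset.sum_const, Finset.card_range, hQdef, smul_eq_mul]
          ring
  have hper : ∀ i, i ∉ E → ∀ t, z i (t + p) = z i t := by
    intro i hi
    have h1 : ∀ k < n, z i (k + p) = z i k := by
      intro k hk
      have h2 : s (i + ((p + k : ℕ) : ZMod p)) = z i (p + k) := by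
        by_contra hne
        exact hi (Finset.mem_biUnion.2 ⟨k, Finset.mem_range.2 hk,
          Finset.mem_filter.2 ⟨Finset.mem_univ _, hne⟩⟩)
      rw [add_comm k p, ← h2, hz0 i k hk]
      push_cast
      rw [ZMod.natCast_self, zero_add]
    have h3 : Rec n c (fun t => z i (t + p)) := by
      intro t
      have h4 := hz i (t + p)
      have e1 : t + n + p = t + p + n := by ring
      simp only
      rw [e1, h4]
      refine Finset.sum_congr rfl fun j _ => ?_
      have e2 : t + p + (j : ℕ) = t + j + p := by ring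
      rw [e2]
    exact fun t => st_uniq h3 (hz i) h1 t
  -- the weights
  set w : ZMod p → ℕ := fun i => ((Finset.range p).filter fun t : ℕ =>
        s (i + (t : ZMod p)) ≠ z i t).card with hw
  have hsum : ∑ i, w i ≤ p * Q := by
    have h1 : ∑ i, w i = ∑ t ∈ Finset.range p,
        (Finset.univ.filter fun i : ZMod p => s (i + (t : ZMod p)) ≠ z i t).card := by
      simp only [hw, Finset.card_filter]
      rw [Finset.sum_comm]
    rw [h1]
    calc ∑ t ∈ Finset.range p,
        (Finset.univ.filter fun i : ZMod p => s (i + (t : ZMod p)) ≠ z i t).card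
        ≤ ∑ _t ∈ Finset.range p, n * n * K := by
          refine Finset.sum_le_sum fun t ht => prop n t ?_
          rw [Finset.mem_range] at ht
          omega
      _ = p * Q := by
          rw [Finset.sum_const, Finset.card_range, hQdef, smul_eq_mul]
          ring
  have key : ∃ i, i ∉ E ∧ 20 * w i ≤ 21 * Q := by
    by_contra hcon
    push Not at hcon
    have h1 : (Finset.univ \ E).card * (21 * Q + 1) ≤ 20 * ∑ i, w i := by
      rw [Finset.mul_sum]
      calc (Finset.univ \ E).card * (21 * Q + 1) = ∑ _i ∈ Finset.univ \ E, (21 * Q + 1) := by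
            rw [Finset.sum_const, smul_eq_mul]
        _ ≤ ∑ i ∈ Finset.univ \ E, 20 * w i := by
            refine Finset.sum_le_sum fun i hi => ?_
            rw [Finset.mem_sdiff] at hi
            exact hcon i hi.2
        _ ≤ ∑ i, 20 * w i := Finset.sum_le_sum_of_subset (Finset.subset_univ _)
    have h2 : (Finset.univ \ E).card + E.card = p := by
      rw [Finset.card_sdiff_add_card_eq_card (Finset.subset_univ E), Finset.card_univ, ZMod.card]
    set e := (Finset.univ \ E).card with he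
    have h3 : p ≤ e + (n + 1) * Q := by omega
    have h4 : p * (21 * Q + 1) ≤ 20 * (p * Q) + (n + 1) * Q * (21 * Q + 1) := by
      calc p * (21 * Q + 1) ≤ (e + (n + 1) * Q) * (21 * Q + 1) := Nat.mul_le_mul_right _ h3
        _ = e * (21 * Q + 1) + (n + 1) * Q * (21 * Q + 1) := by ring
        _ ≤ 20 * ∑ i, w i + (n + 1) * Q * (21 * Q + 1) := by omega
        _ ≤ _ := by
            have := Nat.mul_le_mul_left 20 hsum
            omega
    have h5 : p * (Q + 1) ≤ 21 * (n + 1) * Q * (Q + 1) := by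
      have e1 : p * (21 * Q + 1) = 20 * (p * Q) + p * (Q + 1) := by ring
      have e2 : (n + 1) * Q * (21 * Q + 1) ≤ (n + 1) * Q * (21 * (Q + 1)) :=
        Nat.mul_le_mul_left _ (by omega)
      have e3 : (n + 1) * Q * (21 * (Q + 1)) = 21 * (n + 1) * Q * (Q + 1) := by ring
      omega
    have h6 : p ≤ 21 * (n + 1) * Q := Nat.le_of_mul_le_mul_right h5 (by omega)
    have h7 : p ^ 2 ≤ (21 * (n + 1) * Q) ^ 2 := Nat.pow_le_pow_left h6 2
    have h8 : (21 * (n + 1) * Q) ^ 2 = 49 * (n + 1) ^ 2 * (9 * n ^ 4 * K ^ 2) := by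
      rw [hQdef]
      ring
    have h9 : 49 * (n + 1) ^ 2 * (9 * n ^ 4 * K ^ 2) ≤ 49 * (n + 1) ^ 2 * 2 ^ n :=
      Nat.mul_le_mul_left _ hQ.le
    have h10 := st_pow hn
    rw [h2n] at h9 h10
    rw [h8] at h7
    have h11 : p ^ 2 ≤ 49 * (n + 1) ^ 2 * (p + 1) := h7.trans h9
    set a := 49 * (n + 1) ^ 2 with ha
    -- `a + 2 < p + 1`
    have h12 : a * (p + 1) ≤ (p - 2) * (p + 1) := Nat.mul_le_mul_right _ (by omega)
    have h13 : (p - 2) * (p + 1) < p ^ 2 := by
      obtain ⟨q, hq⟩ : ∃ q, p = q + 2 := ⟨p - 2, by omega⟩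
      rw [hq]
      simp only [Nat.add_sub_cancel]
      nlinarith
    omega
  obtain ⟨i, hi, hwi⟩ := key
  exact ⟨i, z i, hz i, hper i hi, hwi⟩

theorem exists_start {n : ℕ} (hn : 21 ≤ n) [NeZero (2 ^ n - 1)] (s : ZMod (2 ^ n - 1) → ZMod 2)
    (hs : ∀ i, s (2 * i) = s i) (c : Fin n → ZMod 2) (K : ℕ)
    (hK : (Finset.univ.filter fun i : ZMod (2 ^ n - 1) =>
      s (i + (n : ZMod (2 ^ n - 1))) ≠
        ∑ j : Fin n, c j * s (i + ((j : ℕ) : ZMod (2 ^ n - 1)))).card ≤ K)
    (hQ : 9 * n ^ 4 * K ^ 2 < 2 ^ n) :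
    ∃ (i₀ : ZMod (2 ^ n - 1)) (z : ℕ → ZMod 2), Rec n c z ∧ Per n z ∧
      20 * ((Finset.range (2 ^ n - 1)).filter fun t : ℕ =>
        s (i₀ + (t : ZMod (2 ^ n - 1))) ≠ z t).card ≤ 21 * (n ^ 2 * K) :=
  st_aux hn (by
    have : 0 < 2 ^ n := by positivity
    omega) s hs c K hK hQ

end Pool.Agent.GolS
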