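import Pool.Agent.GolS.Defs

/-!
# Module ZSpan: a linear recurring sequence near a two-level sequence is an m-sequence

`p = 2^n - 1`, `n ≥ 2`, `z` has period `p` and satisfies the recurrence `c` of order `n`; `s` is
two-level, `w = #{i < p : s i ≠ z i}`, `4 w < 2^n`. Claim: `MSeq n z`.

Proof. Windows `v(t) = (z (t+j))_{j<n}`, `t < p`.
* They are pairwise different: let `t < t' < p`, `v(t) = v(t')`, `d = t' - t`. By the recurrence
  `z_{i+d} = z_i` for all `i ≥ t`, and by the period for all `i`. So
  `{i < p : s i ≠ s (i+d)} ⊆ {i : s i ≠ z i} ∪ {i : s (i+d) ≠ z (i+d)}` has `≤ 2 w` elements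
  (both sets have `w` elements by periodicity), but `TwoLevel` says that it has `2^{n-1}`:
  `2^{n-1} ≤ 2 w`, contradiction.
* They are nonzero: if `v(t) = 0` then `z_i = 0` for all `i ≥ t`, so `v(t+1) = 0 = v(t)`; as `p ≥ 3`
  this gives two positions `< p` (mod `p`) with the same window, contradiction.
* So `t ↦ v(t)` is an injective map from `range p` to the `p` nonzero words, hence a bijection: `Span`.
-/

namespace Pool.Agent.GolS

private lemma zs_per {p : ℕ} {z : ℕ → ZMod 2} (h : ∀ i, z (i + p) = z i) (k i : ℕ) :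
    z (i + k * p) = z i := by
  induction k with
  | zero => simp
  | succ k ih =>
    rw [show i + (k + 1) * p = (i + k * p) + p by ring, h, ih]

private lemma zs_rec {n : ℕ} {z : ℕ → ZMod 2} {c : Fin n → ZMod 2} (hz : Rec n c z) {t t' : ℕ}
    (h : ∀ j : Fin n, z (t + (j : ℕ)) = z (t' + (j : ℕ))) (m : ℕ) : z (t + m) = z (t' + m) := by
  induction m using Nat.strong_induction_on with
  | _ m ih =>
    rcases lt_or_ge m n with hm | hm
    · exact h ⟨m, hm⟩
    · have e1 : t + m = (t + (m - n)) + n := by omega
      have e2 : t' + m = (t' + (m - n)) + n := by omega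
      rw [e1, e2, hz, hz]
      refine Finset.sum_congr rfl fun j _ => ?_
      have hj := j.2
      have := ih (m - n + j) (by omega)
      rw [add_assoc, add_assoc, this]

private lemma zs_shift {p d : ℕ} (P : ℕ → Prop) [DecidablePred P] (hP : Function.Periodic P p) :
    ((Finset.range p).filter fun i => P (i + d)).card = ((Finset.range p).filter P).card := by
  have h1 := Nat.filter_Ico_card_eq_of_periodic d p P hP
  rw [Nat.count_eq_card_filter_range] at h1
  rw [← h1]
  refine Finset.card_bij (fun i _ => i + d) ?_ ?_ ?_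
  · intro i hi
    rw [Finset.mem_filter, Finset.mem_range] at hi
    rw [Finset.mem_filter, Finset.mem_Ico]
    exact ⟨by omega, hi.2⟩
  · intro i _ j _ hij
    have : i + d = j + d := hij
    omega
  · intro j hj
    rw [Finset.mem_filter, Finset.mem_Ico] at hj
    refine ⟨j - d, ?_, by omega⟩
    rw [Finset.mem_filter, Finset.mem_range]
    refine ⟨by omega, ?_⟩
    have e : j - d + d = j := by omega
    rw [e]
    exact hj.2

private lemma zs_core {n : ℕ} (hn : 2 ≤ n) {s z : ℕ → ZMod 2} (hs : Per n s) (h2 : TwoLevel n s)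
    (hp : Per n z)
    (hw : 4 * ((Finset.range (2 ^ n - 1)).filter fun i => s i ≠ z i).card < 2 ^ n)
    {t d : ℕ} (hd : 0 < d) (hd' : d < 2 ^ n - 1) (h : ∀ m, z (t + m) = z (t + d + m)) : False := by
  set p := 2 ^ n - 1 with hpdef
  have hp1 : 0 < p := by omega
  have hall : ∀ i, z (i + d) = z i := by
    intro i
    have htp : t ≤ t * p := Nat.le_mul_of_pos_right t hp1
    have e1 := zs_per hp t (i + d)
    have e2 := zs_per hp t i
    have e3 := h (i + t * p - t)
    have e4 : t + (i + t * p - t) = i + t * p := by omega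
    have e5 : t + d + (i + t * p - t) = i + d + t * p := by omega
    rw [e4, e5] at e3
    change z (i + d + t * p) = z (i + d) at e1
    change z (i + t * p) = z i at e2
    rw [← e1, ← e2, e3]
  have hcard := h2 d hd hd'
  have hsub : ((Finset.range p).filter fun i => s i ≠ s (i + d)) ⊆
      ((Finset.range p).filter fun i => s i ≠ z i) ∪
        ((Finset.range p).filter fun i => s (i + d) ≠ z (i + d)) := by
    intro i hi
    rw [Finset.mem_filter] at hi
    rw [Finset.mem_union, Finset.mem_filter, Finset.mem_filter]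
    by_contra hcon
    push Not at hcon
    have a1 : s i = z i := hcon.1 hi.1
    have a2 : s (i + d) = z (i + d) := hcon.2 hi.1
    exact hi.2 (by rw [a1, a2, hall])
  have hper : Function.Periodic (fun i => s i ≠ z i) p := by
    intro i
    have b1 : s (i + p) = s i := hs i
    have b2 : z (i + p) = z i := hp i
    simp only [b1, b2]
  have hsh := zs_shift (d := d) (fun i => s i ≠ z i) hper
  have h3 := (Finset.card_le_card hsub).trans (Finset.card_union_le _ _)
  have h4 : 2 ^ n = 2 * 2 ^ (n - 1) := by
    rw [← pow_succ']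
    congr 1
    omega
  have h5 : ((Finset.range p).filter fun i => s (i + d) ≠ z (i + d)).card =
      ((Finset.range p).filter fun i => s i ≠ z i).card := hsh
  rw [hcard, h5] at h3
  omega

theorem mseq_of_near {n : ℕ} (hn : 2 ≤ n) {s z : ℕ → ZMod 2} (hs : Per n s) (h2 : TwoLevel n s)
    {c : Fin n → ZMod 2} (hz : Rec n c z) (hp : Per n z)
    (hw : 4 * ((Finset.range (2 ^ n - 1)).filter fun i => s i ≠ z i).card < 2 ^ n) :
    MSeq n z := by
  have h4 : 4 ≤ 2 ^ n := by
    calc 4 = 2 ^ 2 := by norm_num
      _ ≤ 2 ^ n := Nat.pow_le_pow_right (by norm_num) hn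
  have hinj : ∀ t t', t < t' → t' < 2 ^ n - 1 →
      ¬ ∀ j : Fin n, z (t + (j : ℕ)) = z (t' + (j : ℕ)) := by
    intro t t' htt ht' hcon
    refine zs_core hn hs h2 hp hw (t := t) (d := t' - t) (by omega) (by omega) ?_
    intro m
    have e : t + (t' - t) + m = t' + m := by omega
    rw [e]
    exact zs_rec hz hcon m
  have hne : ∀ t, (fun j : Fin n => z (t + (j : ℕ))) ≠ 0 := by
    intro t hcon
    have h0 : ∀ m, z (t + m) = 0 := by
      intro m
      induction m using Nat.strong_induction_on with
      | _ m ih =>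
        rcases lt_or_ge m n with hm | hm
        · exact congrFun hcon ⟨m, hm⟩
        · have e1 : t + m = (t + (m - n)) + n := by omega
          rw [e1, hz]
          refine Finset.sum_eq_zero fun j _ => ?_
          have hj := j.2
          have := ih (m - n + j) (by omega)
          rw [add_assoc, this, mul_zero]
    refine zs_core hn hs h2 hp hw (t := t) (d := 1) (by omega) (by omega) ?_
    intro m
    rw [h0 m, add_assoc, h0]
  let v : Fin (2 ^ n - 1) → {w : Fin n → ZMod 2 // w ≠ 0} := fun t =>
    ⟨fun j => z ((t : ℕ) + (j : ℕ)), hne t⟩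
  have hvinj : Function.Injective v := by
    intro a b hab
    have hab' : ∀ j : Fin n, z ((a : ℕ) + (j : ℕ)) = z ((b : ℕ) + (j : ℕ)) := by
      intro j
      exact congrFun (congrArg Subtype.val hab) j
    rcases lt_trichotomy (a : ℕ) (b : ℕ) with h | h | h
    · exact absurd hab' (hinj a b h b.2)
    · exact Fin.ext h
    · exact absurd (fun j => (hab' j).symm) (hinj b a h a.2)
  have hcard : Fintype.card (Fin (2 ^ n - 1)) = Fintype.card {w : Fin n → ZMod 2 // w ≠ 0} := by
    rw [Fintype.card_fin, Fintype.card_subtype_compl, Fintype.card_fun, ZMod.card,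
      Fintype.card_fin]
    simp
  have hbij := (Fintype.bijective_iff_injective_and_card v).2 ⟨hvinj, hcard⟩
  refine ⟨hp, ?_, c, hz⟩
  intro w hw0
  obtain ⟨t, ht⟩ := hbij.2 ⟨w, hw0⟩
  have htw : ∀ j : Fin n, z ((t : ℕ) + (j : ℕ)) = w j := fun j =>
    congrFun (congrArg Subtype.val ht) j
  refine ⟨t, ⟨t.2, htw⟩, ?_⟩
  rintro i ⟨hi, hiw⟩
  have : v ⟨i, hi⟩ = v t := by
    rw [ht]
    apply Subtype.ext
    funext j
    exact hiw j
  have := hvinj this
  rw [← this]

end Pool.Agent.GolS
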