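import Pool.Agent.GolS.Gap
import Pool.Agent.GolS.Mult
import Pool.Agent.GolS.Start
import Pool.Agent.GolS.ZSpan

/-!
# Module Main: two-level sequences which nearly satisfy an affine recurrence of order `n`

`near_linear`: `s` two-level of period `p = 2^n - 1`, `K` = number of `i < p` with
`s(i+n) ≠ b + ∑ c_j s(i+j)`, `9 n⁴ K² < 2^n`. Then `s` or `1 + s` is an m-sequence.

Proof. Everything is invariant under shifts of `s` (`Per`, `TwoLevel`, `K`; and `MSeq n (s(·+g))` implies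
`MSeq n s`: use the shift by `p g - g`). Write `s̄ : ZMod p → 𝔽₂`, `s i = s̄ i`.
`TwoLevel` is `∑_i eps (s̄ i) eps (s̄ (i+τ)) = p - 2^n = -1` for `τ ≠ 0`. By `multiplier` we may assume
`s̄(2i) = s̄(i)`.

*`n = 1`*: `p = 1`, `s` is constant; the constant sequence `1` is an m-sequence (`c = 1`).

*`b = 0`, `K = 0`, `n ≥ 2`*: `Rec n c s`; `mseq_of_near` with `z = s`.

*`b = 0`, `K ≥ 1`*: then `9 n⁴ < 2^n`, so `n ≥ 21` (check `n ≤ 20`: `9 n⁴ ≥ 2^n`; e.g. `n = 20`:
`1440000 ≥ 1048576`). `exists_start` gives `i₀, z`; let `s'(t) = s̄(i₀+t)`, a shift of `s`, and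
`w = #{t<p : s' t ≠ z t}`, `20 w ≤ 21 Q`, `Q = n² K`, `9 Q² < 2^n`. `4 w < 2^n`, so `z` is an m-sequence
(`mseq_of_near`). By `gap` (for `s'` and `z`) `w = 0` or
`2^n ≤ 2 w² + (2 √(2^n) + 1) w`. With `r = √(2^n) = 2^{n/2}`: `Q < r/3`, `w ≤ 1.05 Q < 0.35 r`,
so `2 w² + 2 r w + w < 0.245 r² + 0.7 r² + 0.35 r = 0.945 r² + 0.35 r < r²` (`r > 6.4`). So `w = 0`,
`s' = z` is an m-sequence.

*`b = 1`, `∑ c_j = 0`*: `s' = 1 + s` is two-level and
`s'(i+n) = ∑ c_j s'(i+j)` iff `s(i+n) = 1 + ∑ c_j s(i+j)`: the case `b = 0` for `s'` gives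
`MSeq n s'` or `MSeq n (1 + s')`.

*`b = 1`, `∑ c_j = 1`*: impossible. Let `r_i = s̄(i+n) + ∑ c_j s̄(i+j)`, so `r_i = 1` for all but `K` of
the `i`. `r_{i+n} + ∑_j c_j r_{i+j} = s̄(i+2n) + 2 ∑_j c_j s̄(i+n+j) + ∑_{j,l} c_j c_l s̄(i+j+l)
= s̄(i+2n) + ∑_j c_j s̄(i+2j)` (characteristic 2). For `i = 2m` this is
`s̄(m+n) + ∑ c_j s̄(m+j) = r_m` (`s̄(2i) = s̄(i)`). As `(n+2) K < p` (for `K = 0` trivial, else
`n ≥ 21`) there is an `m` with `r_m = 1` and `r_{2m+j} = 1` for `0 ≤ j ≤ n`. Then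
`1 + ∑ c_j = 1`, `∑ c_j = 0`, a contradiction.

`span_rec`: if moreover `Span n s` then `∃ c', Rec n c' s`: if `MSeq n s` clear. `MSeq n (1+s)` is
impossible: `Span` for `s` implies that `s` has exactly `2^{n-1}` ones in a period (the first
letters of the `2^n - 1` nonzero words), the same for `1 + s`, sum `2^n = 2^n - 1`, contradiction.

`gap'`: `w = 0` or `2^n < 9 w²`: if `w ≥ 1` and `9 w² ≤ 2^n` then `w ≤ r/3`, so
`2 w² + 2 r w + w ≤ 8 r²/9 + r/3 < r²` if `r > 3`; if `r ≤ 3` then `2^n ≤ 9`, `n ≤ 3`, `9 w² ≥ 9 > 8`.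
-/

namespace Pool.Agent.GolS

open Finset

section conv

variable {p : ℕ} [NeZero p]

lemma sum_zmod {M : Type*} [AddCommMonoid M] (F : ZMod p → M) :
    ∑ i : ZMod p, F i = ∑ i ∈ range p, F (i : ZMod p) := by
  refine Finset.sum_nbij' (fun i => i.val) (fun i => (i : ZMod p)) ?_ ?_ ?_ ?_ ?_
  · intro i _
    exact mem_range.2 (ZMod.val_lt i)
  · intro i _
    exact mem_univ _
  · intro i _
    exact ZMod.natCast_zmod_val i
  · intro i hi
    exact ZMod.val_cast_of_lt (mem_range.1 hi)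
  · intro i _
    rw [ZMod.natCast_zmod_val]

lemma card_zmod (P : ZMod p → Prop) [DecidablePred P] :
    (univ.filter fun i : ZMod p => P i).card = ((range p).filter fun i : ℕ => P (i : ZMod p)).card := by
  rw [card_filter, card_filter, sum_zmod]

/-- The function on `ZMod p` of a sequence. -/
def sb (p : ℕ) (s : ℕ → ZMod 2) : ZMod p → ZMod 2 := fun i => s i.val

omit [NeZero p] in
lemma sb_cast {s : ℕ → ZMod 2} (hs : ∀ i, s (i + p) = s i) (i : ℕ) :
    sb p s (i : ZMod p) = s i := by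
  rw [sb, ZMod.val_natCast]
  exact Function.Periodic.map_mod_nat hs i

end conv

/-- The two-level condition for functions on `ZMod p`. -/
def TL {p : ℕ} [NeZero p] (S : ZMod p → ZMod 2) : Prop :=
  ∀ τ : ZMod p, τ ≠ 0 → ∑ i, eps (S i) * eps (S (i + τ)) = -1

lemma eps_mul_eps (a b : ZMod 2) : eps a * eps b = 1 - 2 * (if a ≠ b then 1 else 0) := by
  revert a b
  decide

lemma corr_eq {p : ℕ} [NeZero p] (S : ZMod p → ZMod 2) (τ : ℕ) :
    ∑ i, eps (S i) * eps (S (i + (τ : ZMod p))) =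
      (p : ℤ) - 2 * ((range p).filter fun i : ℕ => S (i : ZMod p) ≠ S ((i + τ : ℕ) : ZMod p)).card := by
  rw [sum_zmod]
  simp only [eps_mul_eps, sum_sub_distrib, sum_const, card_range, ← mul_sum, nsmul_eq_mul, mul_one]
  congr 2
  rw [card_filter]
  push_cast
  rfl

lemma tl_iff {n : ℕ} (hn : 1 ≤ n) [NeZero (2 ^ n - 1)] (S : ZMod (2 ^ n - 1) → ZMod 2) :
    TL S ↔ TwoLevel n (fun i : ℕ => S (i : ZMod (2 ^ n - 1))) := by
  have hp : ((2 ^ n - 1 : ℕ) : ℤ) = 2 ^ n - 1 := by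
    rw [Nat.cast_sub Nat.one_le_two_pow]
    push_cast
    rfl
  have h2 : (2 : ℤ) ^ n = 2 * 2 ^ (n - 1) := by
    obtain ⟨m, rfl⟩ : ∃ m, n = m + 1 := ⟨n - 1, by omega⟩
    rw [Nat.add_sub_cancel, pow_succ]
    ring
  constructor
  · intro h τ h0 h1
    have hτ : (τ : ZMod (2 ^ n - 1)) ≠ 0 := by
      intro h3
      rw [ZMod.natCast_eq_zero_iff] at h3
      exact absurd (Nat.le_of_dvd h0 h3) (not_le.2 h1)
    have h4 := h _ hτ
    rw [corr_eq, hp, h2] at h4
    have h5 : ((((range (2 ^ n - 1)).filter fun i : ℕ => S (i : ZMod (2 ^ n - 1)) ≠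
        S ((i + τ : ℕ) : ZMod (2 ^ n - 1))).card : ℕ) : ℤ) = ((2 ^ (n - 1) : ℕ) : ℤ) := by
      push_cast at h4 ⊢
      linarith
    exact_mod_cast h5
  · intro h τ hτ
    have h1 : 0 < τ.val := Nat.pos_of_ne_zero fun h0 => hτ ((ZMod.val_eq_zero τ).1 h0)
    have h3 := h τ.val h1 (ZMod.val_lt τ)
    have h4 := corr_eq S τ.val
    rw [ZMod.natCast_zmod_val] at h4
    rw [h4, hp, h2, h3]
    push_cast
    ring

lemma per_cast {n : ℕ} (S : ZMod (2 ^ n - 1) → ZMod 2) :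
    Per n (fun i : ℕ => S (i : ZMod (2 ^ n - 1))) := by
  intro i
  show S ((i + (2 ^ n - 1) : ℕ) : ZMod (2 ^ n - 1)) = _
  rw [Nat.cast_add, ZMod.natCast_self, add_zero]

/-- Shifts of m-sequences. -/
lemma mseq_shift {n : ℕ} {s : ℕ → ZMod 2} (hs : MSeq n s) (g : ℕ) :
    MSeq n (fun i => s (i + g)) := by
  obtain ⟨h1, h2, c, h3⟩ := hs
  have hper : Function.Periodic s (2 ^ n - 1) := h1
  refine ⟨?_, ?_, c, ?_⟩
  · intro i
    show s (i + (2 ^ n - 1) + g) = s (i + g)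
    rw [show i + (2 ^ n - 1) + g = i + g + (2 ^ n - 1) by ring, h1]
  · intro w hw
    obtain ⟨i, ⟨hi, hi2⟩, hu⟩ := h2 w hw
    have hp : 0 < 2 ^ n - 1 := by omega
    -- position (i - g) mod p
    set p := 2 ^ n - 1 with hpdef
    have key : ∀ a b : ℕ, a ≡ b [MOD p] → s a = s b := by
      intro a b hab
      rw [← hper.map_mod_nat a, ← hper.map_mod_nat b]
      exact congrArg s hab
    refine ⟨(i + (p - g % p)) % p, ⟨Nat.mod_lt _ hp, ?_⟩, ?_⟩
    · intro j
      rw [← hi2 j]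
      apply key
      have h4 : (i + (p - g % p)) % p + (j : ℕ) + g ≡ i + (p - g % p) + j + g [MOD p] :=
        ((Nat.mod_modEq _ _).add_right _).add_right _
      refine h4.trans ?_
      have h5 : g % p ≤ p := (Nat.mod_lt _ hp).le
      have h6 : i + (p - g % p) + j + g ≡ i + (p - g % p) + j + g % p [MOD p] :=
        (Nat.mod_modEq _ _).symm.add_left _
      refine h6.trans ?_
      rw [show i + (p - g % p) + (j : ℕ) + g % p = i + j + p by omega]
      exact Nat.add_modEq_right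
    · intro i' hi'
      obtain ⟨hi', hi2'⟩ := hi'
      have h4 : (i' + g) % p = i := by
        apply hu
        refine ⟨Nat.mod_lt _ hp, fun j => ?_⟩
        rw [← hi2' j]
        apply key
        have : (i' + g) % p + (j : ℕ) ≡ i' + g + j [MOD p] := (Nat.mod_modEq _ _).add_right _
        refine this.trans ?_
        rw [show i' + g + (j : ℕ) = i' + j + g by ring]
      have h5 : i' ≡ (i + (p - g % p)) [MOD p] := by
        have h6 : i + (p - g % p) ≡ i' + g + (p - g % p) [MOD p] := by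
          rw [← h4]
          exact (Nat.mod_modEq _ _).add_right _
        refine (h6.trans ?_).symm
        have h7 : i' + g + (p - g % p) ≡ i' + g % p + (p - g % p) [MOD p] :=
          ((Nat.mod_modEq _ _).symm.add_left _).add_right _
        refine h7.trans ?_
        have h8 : g % p ≤ p := (Nat.mod_lt _ hp).le
        rw [show i' + g % p + (p - g % p) = i' + p by omega]
        exact Nat.add_modEq_right
      have h9 : i' % p = (i + (p - g % p)) % p := h5
      rwa [Nat.mod_eq_of_lt hi'] at h9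
  · intro i
    show s (i + n + g) = ∑ j : Fin n, c j * s (i + (j : ℕ) + g)
    rw [show i + n + g = i + g + n by ring, h3]
    exact sum_congr rfl fun j _ => by rw [show i + g + (j : ℕ) = i + (j : ℕ) + g by ring]

lemma mseq_unshift {n : ℕ} [NeZero (2 ^ n - 1)] (S : ZMod (2 ^ n - 1) → ZMod 2)
    (g : ZMod (2 ^ n - 1)) (h : MSeq n (fun i : ℕ => S ((i : ZMod (2 ^ n - 1)) + g))) :
    MSeq n (fun i : ℕ => S (i : ZMod (2 ^ n - 1))) := by
  have h1 := mseq_shift h (-g).val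
  have h2 : (fun i : ℕ => S (((i + (-g).val : ℕ) : ZMod (2 ^ n - 1)) + g)) =
      fun i : ℕ => S (i : ZMod (2 ^ n - 1)) := by
    funext i
    rw [Nat.cast_add, ZMod.natCast_zmod_val, add_assoc, neg_add_cancel, add_zero]
  rwa [h2] at h1


section core

variable {n : ℕ} [NeZero (2 ^ n - 1)]

/-- The number of violations of an affine recurrence. -/
def bad (S : ZMod (2 ^ n - 1) → ZMod 2) (c : Fin n → ZMod 2) (b : ZMod 2) : ℕ :=
  (univ.filter fun i : ZMod (2 ^ n - 1) =>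
    S (i + (n : ZMod (2 ^ n - 1))) ≠ b + ∑ j : Fin n, c j * S (i + ((j : ℕ) : ZMod (2 ^ n - 1)))).card

lemma tl_shift {S : ZMod (2 ^ n - 1) → ZMod 2} (h : TL S) (g : ZMod (2 ^ n - 1)) : TL (fun i => S (i + g)) := by
  intro τ hτ
  rw [← h τ hτ]
  refine Fintype.sum_equiv (Equiv.addRight g) _ _ fun i => ?_
  simp only [Equiv.coe_addRight]
  rw [show i + τ + g = i + g + τ by ring]

lemma bad_shift (S : ZMod (2 ^ n - 1) → ZMod 2) (c : Fin n → ZMod 2) (b : ZMod 2) (g : ZMod (2 ^ n - 1)) :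
    bad (fun i => S (i + g)) c b = bad S c b := by
  unfold bad
  refine card_equiv (Equiv.addRight g) fun i => ?_
  simp only [mem_filter, mem_univ, true_and, Equiv.coe_addRight]
  rw [show i + (n : ZMod (2 ^ n - 1)) + g = i + g + n by ring]
  simp_rw [show ∀ x : ZMod (2 ^ n - 1), i + x + g = i + g + x from fun x => by ring]

lemma tl_compl {S : ZMod (2 ^ n - 1) → ZMod 2} (h : TL S) : TL (fun i => 1 + S i) := by
  intro τ hτ
  rw [← h τ hτ]
  refine sum_congr rfl fun i _ => ?_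
  rw [eps_add, eps_add, eps_one]
  ring

/-- linear recurrence without violations -/
lemma case_zero (hn : 2 ≤ n) {S : ZMod (2 ^ n - 1) → ZMod 2} (h : TL S) {c : Fin n → ZMod 2}
    (hK : bad S c 0 = 0) : MSeq n (fun i : ℕ => S (i : ZMod (2 ^ n - 1))) := by
  have h1 : Rec n c (fun i : ℕ => S (i : ZMod (2 ^ n - 1))) := by
    intro i
    by_contra h2
    rw [bad, card_eq_zero] at hK
    have : (i : ZMod (2 ^ n - 1)) ∈ (∅ : Finset (ZMod (2 ^ n - 1))) := by
      rw [← hK, mem_filter]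
      refine ⟨mem_univ _, fun h3 => h2 ?_⟩
      push_cast
      rw [h3, zero_add]
    exact absurd this (notMem_empty _)
  refine mseq_of_near hn (per_cast S) ((tl_iff (by omega) S).1 h) h1 (per_cast S) ?_
  simp

lemma real_ineq {r Q w : ℝ} (hr : 6.4 < r) (hQ0 : 0 ≤ Q) (hw0 : 0 ≤ w) (hQ : 9 * Q ^ 2 < r ^ 2)
    (hw : 20 * w ≤ 21 * Q) : 2 * w ^ 2 + (2 * r + 1) * w < r ^ 2 := by
  have h1 : 3 * Q < r := by
    nlinarith
  have h2 : w < 0.35 * r := by linarith
  nlinarith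

lemma n_ge {K : ℕ} (hK : K ≠ 0) (hQ : 9 * n ^ 4 * K ^ 2 < 2 ^ n) (hn : 1 ≤ n) : 21 ≤ n := by
  by_contra h
  push Not at h
  have h1 : 9 * n ^ 4 < 2 ^ n := by
    refine lt_of_le_of_lt ?_ hQ
    exact Nat.le_mul_of_pos_right _ (by positivity)
  interval_cases n <;> revert h1 <;> decide

lemma case_lin (hn : 2 ≤ n) {S : ZMod (2 ^ n - 1) → ZMod 2} (h : TL S) (hs : ∀ i, S (2 * i) = S i)
    {c : Fin n → ZMod 2} (hK : 9 * n ^ 4 * bad S c 0 ^ 2 < 2 ^ n) :
    MSeq n (fun i : ℕ => S (i : ZMod (2 ^ n - 1))) := by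
  by_cases h0 : bad S c 0 = 0
  · exact case_zero hn h h0
  have hn21 := n_ge h0 hK (by omega)
  have hb : (univ.filter fun i : ZMod (2 ^ n - 1) =>
      S (i + (n : ZMod (2 ^ n - 1))) ≠ ∑ j : Fin n, c j * S (i + ((j : ℕ) : ZMod (2 ^ n - 1)))).card ≤ bad S c 0 := by
    unfold bad
    simp only [zero_add]
    exact le_rfl
  obtain ⟨i₀, z, hz1, hz2, hz3⟩ := exists_start hn21 S hs c _ hb hK
  set K := bad S c 0 with hKdef
  have hTL : TL (fun i => S (i + i₀)) := tl_shift h i₀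
  have e1 : ∀ t : ℕ, S (i₀ + (t : ZMod (2 ^ n - 1))) = (fun i : ℕ => S ((i : ZMod (2 ^ n - 1)) + i₀)) t := by
    intro t
    rw [add_comm]
  simp only [e1] at hz3
  set w := ((range (2 ^ n - 1)).filter fun t : ℕ => (fun i : ℕ => S ((i : ZMod (2 ^ n - 1)) + i₀)) t ≠ z t).card with hw
  have h2 := (tl_iff (n := n) (by omega) _).1 hTL
  have h3 : Per n (fun i : ℕ => S ((i : ZMod (2 ^ n - 1)) + i₀)) := per_cast (fun i => S (i + i₀))
  have hQ : 9 * (n ^ 2 * K) ^ 2 < 2 ^ n := by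
    calc 9 * (n ^ 2 * K) ^ 2 = 9 * n ^ 4 * K ^ 2 := by ring
      _ < 2 ^ n := hK
  have hw4 : 4 * w < 2 ^ n := by
    by_contra h5
    push Not at h5
    -- 2^n ≤ 4 w, 20 w ≤ 21 Q → 5·2^n ≤ 21 Q → 25·4^n ≤ 441 Q² < 49·2^n
    have h6 : 5 * 2 ^ n ≤ 21 * (n ^ 2 * K) := by omega
    have h7 : (5 * 2 ^ n) ^ 2 ≤ (21 * (n ^ 2 * K)) ^ 2 := Nat.pow_le_pow_left h6 2
    have h8 : 2 ^ 2 ≤ 2 ^ n := Nat.pow_le_pow_right (by norm_num) (by omega)
    nlinarith
  have hM : MSeq n z := mseq_of_near hn h3 h2 hz1 hz2 hw4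
  have hw0 : w = 0 := by
    rcases gap (by omega) h3 h2 hM w hw.symm with h5 | h5
    · exact h5
    exfalso
    have hr : (2 : ℝ) ^ n = Real.sqrt ((2 : ℝ) ^ n) ^ 2 := (Real.sq_sqrt (by positivity)).symm
    have h6 : 6.4 < Real.sqrt ((2 : ℝ) ^ n) := by
      rw [Real.lt_sqrt (by norm_num)]
      calc (6.4 : ℝ) ^ 2 < 2 ^ 21 := by norm_num
        _ ≤ 2 ^ n := pow_le_pow_right₀ (by norm_num) hn21
    have h7 : 9 * ((n ^ 2 * K : ℕ) : ℝ) ^ 2 < Real.sqrt ((2 : ℝ) ^ n) ^ 2 := by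
      rw [← hr]
      exact_mod_cast hQ
    have h8 : 20 * (w : ℝ) ≤ 21 * ((n ^ 2 * K : ℕ) : ℝ) := by exact_mod_cast hz3
    have h9 := real_ineq h6 (Nat.cast_nonneg _) (Nat.cast_nonneg _) h7 h8
    rw [← hr] at h9
    linarith
  have h5 : (fun i : ℕ => S ((i : ZMod (2 ^ n - 1)) + i₀)) = z := by
    have hP : ∀ t < (2 ^ n - 1), (fun i : ℕ => S ((i : ZMod (2 ^ n - 1)) + i₀)) t = z t := by
      intro t ht
      by_contra h6
      rw [hw, card_eq_zero] at hw0
      have : t ∈ (∅ : Finset ℕ) := by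
        rw [← hw0, mem_filter]
        exact ⟨mem_range.2 ht, h6⟩
      exact absurd this (notMem_empty _)
    funext t
    have hp : 0 < (2 ^ n - 1) := Nat.pos_of_ne_zero (NeZero.ne (2 ^ n - 1))
    have e3 := Function.Periodic.map_mod_nat (f := fun i : ℕ => S ((i : ZMod (2 ^ n - 1)) + i₀)) (a := (2 ^ n - 1)) h3 t
    have e4 := Function.Periodic.map_mod_nat (f := z) (a := (2 ^ n - 1)) hz2 t
    rw [← e3, ← e4]
    exact hP _ (Nat.mod_lt _ hp)
  refine mseq_unshift S i₀ ?_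
  rw [h5]
  exact hM


lemma zmod2_add_self (x : ZMod 2) : x + x = 0 := CharTwo.add_self_eq_zero x

omit [NeZero (2 ^ n - 1)] in
/-- `r_{i+n} + ∑ c_j r_{i+j} = s_{i+2n} + ∑ c_j s_{i+2j}`. -/
lemma double_rec (S : ZMod (2 ^ n - 1) → ZMod 2) (c : Fin n → ZMod 2) (i : ZMod (2 ^ n - 1)) :
    (S (i + (n : ZMod (2 ^ n - 1)) + (n : ZMod (2 ^ n - 1))) +
        ∑ j : Fin n, c j * S (i + (n : ZMod (2 ^ n - 1)) + ((j : ℕ) : ZMod (2 ^ n - 1)))) +
      ∑ l : Fin n, c l * (S (i + ((l : ℕ) : ZMod (2 ^ n - 1)) + (n : ZMod (2 ^ n - 1))) +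
        ∑ j : Fin n, c j * S (i + ((l : ℕ) : ZMod (2 ^ n - 1)) + ((j : ℕ) : ZMod (2 ^ n - 1)))) =
    S (i + (n : ZMod (2 ^ n - 1)) + (n : ZMod (2 ^ n - 1))) +
      ∑ j : Fin n, c j * S (i + ((j : ℕ) : ZMod (2 ^ n - 1)) + ((j : ℕ) : ZMod (2 ^ n - 1))) := by
  have h1 : ∑ l : Fin n, c l * (S (i + ((l : ℕ) : ZMod (2 ^ n - 1)) + (n : ZMod (2 ^ n - 1))) +
        ∑ j : Fin n, c j * S (i + ((l : ℕ) : ZMod (2 ^ n - 1)) + ((j : ℕ) : ZMod (2 ^ n - 1)))) =
      ∑ l : Fin n, c l * S (i + ((l : ℕ) : ZMod (2 ^ n - 1)) + (n : ZMod (2 ^ n - 1))) +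
        ∑ l : Fin n, ∑ j : Fin n, c l * c j * S (i + ((l : ℕ) : ZMod (2 ^ n - 1)) + ((j : ℕ) : ZMod (2 ^ n - 1))) := by
    rw [← sum_add_distrib]
    refine sum_congr rfl fun l _ => ?_
    rw [mul_add, mul_sum]
    congr 1
    exact sum_congr rfl fun j _ => by ring
  have h2 : ∑ l : Fin n, ∑ j : Fin n, c l * c j * S (i + ((l : ℕ) : ZMod (2 ^ n - 1)) + ((j : ℕ) : ZMod (2 ^ n - 1))) =
      ∑ j : Fin n, c j * S (i + ((j : ℕ) : ZMod (2 ^ n - 1)) + ((j : ℕ) : ZMod (2 ^ n - 1))) := by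
    rw [← sum_product']
    have h3 : ∑ x : Fin n × Fin n,
        c x.1 * c x.2 * S (i + ((x.1 : ℕ) : ZMod (2 ^ n - 1)) + ((x.2 : ℕ) : ZMod (2 ^ n - 1))) =
        ∑ x ∈ (univ : Finset (Fin n × Fin n)).filter (fun x => x.1 = x.2),
          c x.1 * c x.2 * S (i + ((x.1 : ℕ) : ZMod (2 ^ n - 1)) + ((x.2 : ℕ) : ZMod (2 ^ n - 1))) +
        ∑ x ∈ (univ : Finset (Fin n × Fin n)).filter (fun x => ¬ x.1 = x.2),
          c x.1 * c x.2 * S (i + ((x.1 : ℕ) : ZMod (2 ^ n - 1)) + ((x.2 : ℕ) : ZMod (2 ^ n - 1))) :=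
      (sum_filter_add_sum_filter_not _ _ _).symm
    have h4 : ∑ x ∈ (univ : Finset (Fin n × Fin n)).filter (fun x => ¬ x.1 = x.2),
          c x.1 * c x.2 * S (i + ((x.1 : ℕ) : ZMod (2 ^ n - 1)) + ((x.2 : ℕ) : ZMod (2 ^ n - 1))) = 0 := by
      refine sum_involution (fun x _ => (x.2, x.1)) ?_ ?_ ?_ ?_
      · intro x _
        have : c x.2 * c x.1 * S (i + ((x.2 : ℕ) : ZMod (2 ^ n - 1)) + ((x.1 : ℕ) : ZMod (2 ^ n - 1))) =
            c x.1 * c x.2 * S (i + ((x.1 : ℕ) : ZMod (2 ^ n - 1)) + ((x.2 : ℕ) : ZMod (2 ^ n - 1))) := by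
          rw [mul_comm (c x.2), add_right_comm]
        rw [this]
        exact zmod2_add_self _
      · intro x hx _ h5
        rw [mem_filter] at hx
        exact hx.2 (congrArg Prod.snd h5)
      · intro x hx
        rw [mem_filter] at hx ⊢
        exact ⟨mem_univ _, fun h => hx.2 h.symm⟩
      · intro x _
        rfl
    have h5 : ∑ x ∈ (univ : Finset (Fin n × Fin n)).filter (fun x => x.1 = x.2),
          c x.1 * c x.2 * S (i + ((x.1 : ℕ) : ZMod (2 ^ n - 1)) + ((x.2 : ℕ) : ZMod (2 ^ n - 1))) =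
        ∑ j : Fin n, c j * S (i + ((j : ℕ) : ZMod (2 ^ n - 1)) + ((j : ℕ) : ZMod (2 ^ n - 1))) := by
      refine sum_nbij' (fun x => x.1) (fun j => (j, j)) ?_ ?_ ?_ ?_ ?_
      · intro x _
        exact mem_univ _
      · intro j _
        rw [mem_filter]
        exact ⟨mem_univ _, rfl⟩
      · intro x hx
        rw [mem_filter] at hx
        exact Prod.ext rfl hx.2
      · intro j _
        rfl
      · intro x hx
        rw [mem_filter] at hx
        rw [← hx.2]
        have : c x.1 * c x.1 = c x.1 := by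
          have : ∀ y : ZMod 2, y * y = y := by decide
          exact this _
        rw [this]
    rw [show (univ : Finset (Fin n)) ×ˢ (univ : Finset (Fin n)) = univ from rfl, h3, h4, h5,
      add_zero]
  rw [h1, h2]
  have h6 : ∑ l : Fin n, c l * S (i + ((l : ℕ) : ZMod (2 ^ n - 1)) + (n : ZMod (2 ^ n - 1))) =
      ∑ j : Fin n, c j * S (i + (n : ZMod (2 ^ n - 1)) + ((j : ℕ) : ZMod (2 ^ n - 1))) :=
    sum_congr rfl fun j _ => by rw [add_right_comm]
  rw [h6]
  have h7 := zmod2_add_self (∑ j : Fin n, c j * S (i + (n : ZMod (2 ^ n - 1)) + ((j : ℕ) : ZMod (2 ^ n - 1))))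
  linear_combination h7

/-- The affine recurrence with `∑ c_j = 1` is impossible. -/
lemma case_imp (hn : 1 ≤ n) {S : ZMod (2 ^ n - 1) → ZMod 2} (hs : ∀ i, S (2 * i) = S i)
    {c : Fin n → ZMod 2} (hc : ∑ j, c j = 1) (hK : 9 * n ^ 4 * bad S c 1 ^ 2 < 2 ^ n) : False := by
  classical
  set K := bad S c 1 with hKdef
  have hsmall : (n + 2) * K < (2 ^ n - 1) := by
    rcases Nat.eq_zero_or_pos K with h0 | h0
    · rw [h0, mul_zero]
      exact Nat.pos_of_ne_zero (NeZero.ne _)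
    · have h21 := n_ge h0.ne' hK hn
      have h1 : (3 * n ^ 2 * K) ^ 2 < 2 ^ n := by
        calc (3 * n ^ 2 * K) ^ 2 = 9 * n ^ 4 * K ^ 2 := by ring
          _ < 2 ^ n := hK
      have h2 : 3 * n ^ 2 * K ≤ (3 * n ^ 2 * K) ^ 2 := Nat.le_self_pow (by norm_num) _
      have h4 : n + 3 ≤ 3 * n ^ 2 := by nlinarith
      have h3 : (n + 2) * K + 1 ≤ 3 * n ^ 2 * K := by
        calc (n + 2) * K + 1 ≤ (n + 3) * K := by nlinarith
          _ ≤ 3 * n ^ 2 * K := Nat.mul_le_mul_right _ h4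
      omega
  set B := univ.filter fun i : ZMod (2 ^ n - 1) =>
    S (i + (n : ZMod (2 ^ n - 1))) ≠ 1 + ∑ j : Fin n, c j * S (i + ((j : ℕ) : ZMod (2 ^ n - 1))) with hB
  have hBK : B.card = K := rfl
  -- a good m
  have hex : ∃ m : ZMod (2 ^ n - 1), m ∉ B ∧ ∀ j ≤ n, 2 * m + ((j : ℕ) : ZMod (2 ^ n - 1)) ∉ B := by
    by_contra hcon
    push Not at hcon
    have hodd : IsUnit (2 : ZMod (2 ^ n - 1)) := by
      have h1 : Nat.Coprime 2 (2 ^ n - 1) := by
        rw [Nat.coprime_two_left, Nat.odd_iff]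
        have : 2 ∣ 2 ^ n := dvd_pow_self 2 (by omega)
        have := Nat.one_le_two_pow (n := n)
        omega
      exact_mod_cast (ZMod.isUnit_iff_coprime 2 (2 ^ n - 1)).2 h1
    have hcov : (univ : Finset (ZMod (2 ^ n - 1))) ⊆
        B ∪ (range (n + 1)).biUnion fun j => univ.filter fun m => 2 * m + ((j : ℕ) : ZMod (2 ^ n - 1)) ∈ B := by
      intro m _
      by_cases hm : m ∈ B
      · exact mem_union_left _ hm
      · obtain ⟨j, hj, hj2⟩ := hcon m hm
        refine mem_union_right _ (mem_biUnion.2 ⟨j, mem_range.2 (by omega), ?_⟩)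
        rw [mem_filter]
        exact ⟨mem_univ _, hj2⟩
    have h1 := card_le_card hcov
    rw [card_univ, ZMod.card] at h1
    have h2 : ((range (n + 1)).biUnion fun j =>
        univ.filter fun m => 2 * m + ((j : ℕ) : ZMod (2 ^ n - 1)) ∈ B).card ≤ (n + 1) * K := by
      refine (card_biUnion_le).trans ?_
      refine (sum_le_card_nsmul _ _ K fun j _ => ?_).trans (by rw [card_range, smul_eq_mul])
      rw [← hBK]
      refine card_le_card_of_injOn (fun m => 2 * m + ((j : ℕ) : ZMod (2 ^ n - 1))) ?_ ?_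
      · intro m hm
        have := (mem_filter.1 (Finset.mem_coe.1 hm)).2
        exact this
      · intro m _ m' _ hmm
        exact hodd.mul_left_cancel (add_right_cancel hmm)
    have h3 := card_union_le B ((range (n + 1)).biUnion fun j =>
        univ.filter fun m => 2 * m + ((j : ℕ) : ZMod (2 ^ n - 1)) ∈ B)
    have h4 : (n + 2) * K = K + (n + 1) * K := by ring
    omega
  obtain ⟨m, hm, hmj⟩ := hex
  have g1 : ∀ i ∉ B, S (i + (n : ZMod (2 ^ n - 1))) + ∑ j : Fin n, c j * S (i + ((j : ℕ) : ZMod (2 ^ n - 1))) = 1 := by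
    intro i hi
    rw [hB, mem_filter] at hi
    push Not at hi
    rw [hi (mem_univ _), add_assoc, zmod2_add_self, add_zero]
  have h1 := double_rec S c (2 * m)
  have h2 : S (2 * m + (n : ZMod (2 ^ n - 1)) + (n : ZMod (2 ^ n - 1))) +
      ∑ j : Fin n, c j * S (2 * m + ((j : ℕ) : ZMod (2 ^ n - 1)) + ((j : ℕ) : ZMod (2 ^ n - 1))) = 1 := by
    rw [← g1 m hm]
    congr 1
    · rw [← hs (m + n)]
      congr 1
      ring
    · refine sum_congr rfl fun j _ => ?_
      rw [← hs (m + ((j : ℕ) : ZMod (2 ^ n - 1)))]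
      congr 2
      ring
  rw [h2, g1 _ (hmj n le_rfl)] at h1
  have h3 : ∑ l : Fin n, c l * (S (2 * m + ((l : ℕ) : ZMod (2 ^ n - 1)) + (n : ZMod (2 ^ n - 1))) +
      ∑ j : Fin n, c j * S (2 * m + ((l : ℕ) : ZMod (2 ^ n - 1)) + ((j : ℕ) : ZMod (2 ^ n - 1)))) = 1 := by
    rw [← hc]
    refine sum_congr rfl fun l _ => ?_
    rw [g1 _ (hmj l (by omega)), mul_one]
  rw [h3] at h1
  revert h1
  decide

/-- The theorem for a centred sequence. -/
lemma case_all (hn : 2 ≤ n) {S : ZMod (2 ^ n - 1) → ZMod 2} (h : TL S) (hs : ∀ i, S (2 * i) = S i)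
    {c : Fin n → ZMod 2} {b : ZMod 2} (hK : 9 * n ^ 4 * bad S c b ^ 2 < 2 ^ n) :
    MSeq n (fun i : ℕ => S (i : ZMod (2 ^ n - 1))) ∨ MSeq n (fun i : ℕ => 1 + S (i : ZMod (2 ^ n - 1))) := by
  have hb : ∀ y : ZMod 2, y = 0 ∨ y = 1 := by decide
  rcases hb b with rfl | rfl
  · exact Or.inl (case_lin hn h hs hK)
  · have hc : ∑ j, c j = 0 ∨ ∑ j, c j = 1 := by
      generalize ∑ j, c j = y
      revert y
      decide
    rcases hc with hc | hc
    · right
      have h1 : bad (fun i => 1 + S i) c 0 = bad S c 1 := by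
        unfold bad
        congr 1
        ext i
        simp only [mem_filter, mem_univ, true_and, zero_add]
        have h2 : ∑ j : Fin n, c j * (1 + S (i + ((j : ℕ) : ZMod (2 ^ n - 1)))) =
            ∑ j : Fin n, c j * S (i + ((j : ℕ) : ZMod (2 ^ n - 1))) := by
          simp only [mul_add, mul_one, sum_add_distrib, hc, zero_add]
        rw [h2]
        generalize S (i + (n : ZMod (2 ^ n - 1))) = x
        generalize ∑ j : Fin n, c j * S (i + ((j : ℕ) : ZMod (2 ^ n - 1))) = y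
        revert x y
        decide
      exact case_lin hn (S := fun i => 1 + S i) (tl_compl h) (fun i => by simp only [hs]) (c := c)
        (by rw [h1]; exact hK)
    · exact (case_imp (by omega) hs hc hK).elim

end core

lemma case_one {s : ℕ → ZMod 2} (hs : Per 1 s) : MSeq 1 s ∨ MSeq 1 (fun i => 1 + s i) := by
  have h0 : ∀ i, s i = s 0 := by
    intro i
    induction i with
    | zero => rfl
    | succ i ih => rw [← ih]; exact hs i
  have key : ∀ t : ℕ → ZMod 2, (∀ i, t i = 1) → MSeq 1 t := by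
    intro t ht
    refine ⟨fun i => by rw [ht, ht], ?_, fun _ => 1, ?_⟩
    · intro w hw
      refine ⟨0, ⟨by norm_num, fun j => ?_⟩, ?_⟩
      · rw [ht]
        have h1 : w 0 ≠ 0 := by
          intro h2
          apply hw
          funext j
          rw [Subsingleton.elim j 0, h2]
          rfl
        have : ∀ y : ZMod 2, y ≠ 0 → 1 = y := by decide
        rw [Subsingleton.elim j 0]
        exact this _ h1
      · intro y hy
        have := hy.1
        norm_num at this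
        exact this
    · intro i
      rw [ht]
      simp [ht]
  have h1 : s 0 = 0 ∨ s 0 = 1 := by
    generalize s 0 = y
    revert y
    decide
  rcases h1 with h1 | h1
  · right
    exact key _ fun i => by rw [h0, h1, add_zero]
  · left
    exact key _ fun i => by rw [h0, h1]

theorem near_linear {n : ℕ} (hn : 1 ≤ n) {s : ℕ → ZMod 2} (hs : Per n s) (h2 : TwoLevel n s)
    (c : Fin n → ZMod 2) (b : ZMod 2)
    (hK : 9 * n ^ 4 * ((Finset.range (2 ^ n - 1)).filter fun i =>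
      s (i + n) ≠ b + ∑ j : Fin n, c j * s (i + (j : ℕ))).card ^ 2 < 2 ^ n) :
    MSeq n s ∨ MSeq n (fun i => 1 + s i) := by
  rcases Nat.lt_or_ge 1 n with hn2 | hn1
  swap
  · obtain rfl : n = 1 := by omega
    exact case_one hs
  have hpn : NeZero (2 ^ n - 1) := by
    refine ⟨?_⟩
    have : 2 ^ 1 ≤ 2 ^ n := Nat.pow_le_pow_right (by norm_num) hn
    omega
  set S : ZMod (2 ^ n - 1) → ZMod 2 := sb (2 ^ n - 1) s with hS
  have hSc : ∀ i : ℕ, S (i : ZMod (2 ^ n - 1)) = s i := sb_cast hs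
  have hSf : (fun i : ℕ => S (i : ZMod (2 ^ n - 1))) = s := funext hSc
  have hTL : TL S := by
    rw [tl_iff hn, hSf]
    exact h2
  have hbad : bad S c b = ((Finset.range (2 ^ n - 1)).filter fun i =>
      s (i + n) ≠ b + ∑ j : Fin n, c j * s (i + (j : ℕ))).card := by
    unfold bad
    rw [card_zmod]
    congr 1
    refine filter_congr fun i _ => ?_
    rw [← hSc (i + n)]
    push_cast
    simp_rw [← hSc (i + _)]
    push_cast
    rfl
  rw [← hbad] at hK
  obtain ⟨g, hg⟩ := multiplier hn S hTL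
  have h3 := case_all (S := fun i => S (i + g)) (c := c) (b := b) hn2 (tl_shift hTL g) hg
    (by rw [bad_shift]; exact hK)
  rcases h3 with h3 | h3
  · left
    have h4 := mseq_unshift S g h3
    rwa [hSf] at h4
  · right
    have h4 := mseq_unshift (fun i => 1 + S i) g h3
    simp only [hSc] at h4
    exact h4


/-- The number of ones of a span-`n` sequence. -/
lemma ones_of_span {n : ℕ} (hn : 1 ≤ n) {s : ℕ → ZMod 2} (hs : Span n s) :
    ((range (2 ^ n - 1)).filter fun i => s i = 1).card = 2 ^ (n - 1) := by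
  obtain ⟨m, rfl⟩ : ∃ m, n = m + 1 := ⟨n - 1, by omega⟩
  rw [Nat.add_sub_cancel]
  have h1 : (univ : Finset (Fin m → ZMod 2)).card = 2 ^ m := by
    rw [card_univ, Fintype.card_fun, ZMod.card, Fintype.card_fin]
  rw [← h1]
  symm
  have hne : ∀ w : Fin m → ZMod 2, (Fin.cons 1 w : Fin (m + 1) → ZMod 2) ≠ 0 := by
    intro w h
    have := congrFun h 0
    rw [Fin.cons_zero] at this
    exact one_ne_zero this
  refine card_bij (fun w _ => (hs (Fin.cons 1 w) (hne w)).choose) ?_ ?_ ?_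
  · intro w _
    have h2 := (hs (Fin.cons 1 w) (hne w)).choose_spec.1
    rw [mem_filter]
    refine ⟨mem_range.2 h2.1, ?_⟩
    have := h2.2 0
    rw [Fin.cons_zero] at this
    exact this
  · intro w _ w' _ hww
    have h2 := (hs (Fin.cons 1 w) (hne w)).choose_spec.1.2
    have h3 := (hs (Fin.cons 1 w') (hne w')).choose_spec.1.2
    funext j
    have h4 := h2 j.succ
    have h5 := h3 j.succ
    rw [Fin.cons_succ] at h4 h5
    rw [← h4, ← h5]
    simp only at hww
    rw [hww]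
  · intro i hi
    rw [mem_filter, mem_range] at hi
    refine ⟨fun j => s (i + (j : ℕ) + 1), mem_univ _, ?_⟩
    refine ((hs _ (hne _)).choose_spec.2 i ⟨hi.1, fun j => ?_⟩).symm
    refine Fin.cases ?_ (fun j => ?_) j
    · rw [Fin.cons_zero]
      exact hi.2
    · rw [Fin.cons_succ, Fin.val_succ]
      rfl

theorem span_rec {n : ℕ} (hn : 1 ≤ n) {s : ℕ → ZMod 2} (hs : Span n s)
    (h : MSeq n s ∨ MSeq n (fun i => 1 + s i)) : MSeq n s := by
  rcases h with h | h
  · exact h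
  exfalso
  have h1 := ones_of_span hn hs
  have h2 := ones_of_span hn h.2.1
  have h3 : ((range (2 ^ n - 1)).filter fun i => 1 + s i = 1) =
      (range (2 ^ n - 1)).filter fun i => ¬ s i = 1 := by
    refine filter_congr fun i _ => ?_
    generalize s i = y
    revert y
    decide
  rw [h3] at h2
  have h4 := card_filter_add_card_filter_not (s := range (2 ^ n - 1)) (fun i => s i = 1)
  rw [h1, h2, card_range] at h4
  have h5 : 2 ^ n = 2 * 2 ^ (n - 1) := by
    obtain ⟨m, rfl⟩ : ∃ m, n = m + 1 := ⟨n - 1, by omega⟩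
    rw [Nat.add_sub_cancel, pow_succ]
    ring
  have h6 := Nat.one_le_two_pow (n := n)
  omega

theorem gap' {n : ℕ} (hn : 1 ≤ n) {s u : ℕ → ZMod 2} (hs : Per n s) (h2 : TwoLevel n s)
    (hu : MSeq n u) : (∀ i, s i = u i) ∨
      2 ^ n < 9 * ((Finset.range (2 ^ n - 1)).filter fun i => s i ≠ u i).card ^ 2 := by
  set w := ((Finset.range (2 ^ n - 1)).filter fun i => s i ≠ u i).card with hw
  rcases gap hn hs h2 hu w rfl with h | h
  · left
    intro i
    by_contra hi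
    rw [hw, card_eq_zero] at h
    have hp : 0 < 2 ^ n - 1 := by
      have : 2 ^ 1 ≤ 2 ^ n := Nat.pow_le_pow_right (by norm_num) hn
      omega
    have : i % (2 ^ n - 1) ∈ (∅ : Finset ℕ) := by
      rw [← h, mem_filter]
      refine ⟨mem_range.2 (Nat.mod_lt _ hp), ?_⟩
      rw [Function.Periodic.map_mod_nat (f := s) hs, Function.Periodic.map_mod_nat (f := u) hu.1]
      exact hi
    exact absurd this (notMem_empty _)
  · by_cases hw0 : w = 0
    · rw [hw0] at h
      have : (0 : ℝ) < 2 ^ n := by positivity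
      norm_num at h
      linarith
    right
    by_contra hcon
    push Not at hcon
    have hw1 : 1 ≤ w := Nat.one_le_iff_ne_zero.2 hw0
    have hn4 : 4 ≤ n := by
      by_contra h5
      push Not at h5
      have h6 : 2 ^ n ≤ 2 ^ 3 := Nat.pow_le_pow_right (by norm_num) (by omega)
      nlinarith
    have hr : (2 : ℝ) ^ n = Real.sqrt ((2 : ℝ) ^ n) ^ 2 := (Real.sq_sqrt (by positivity)).symm
    have hr0 : 0 ≤ Real.sqrt ((2 : ℝ) ^ n) := Real.sqrt_nonneg _
    have h6 : 3 < Real.sqrt ((2 : ℝ) ^ n) := by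
      rw [Real.lt_sqrt (by norm_num)]
      calc (3 : ℝ) ^ 2 < 2 ^ 4 := by norm_num
        _ ≤ 2 ^ n := pow_le_pow_right₀ (by norm_num) hn4
    have h7 : 9 * (w : ℝ) ^ 2 ≤ Real.sqrt ((2 : ℝ) ^ n) ^ 2 := by
      rw [← hr]
      exact_mod_cast hcon
    have h8 : (0 : ℝ) ≤ w := Nat.cast_nonneg _
    set r := Real.sqrt ((2 : ℝ) ^ n) with hrdef
    have h9 : 3 * (w : ℝ) ≤ r := by
      by_contra h10
      push Not at h10
      nlinarith
    rw [hr] at h
    nlinarith

end Pool.Agent.GolS
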