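import Pool.Agent.GolS.Defs

/-!
# Module Prop: propagation

**`rec_dec`.** If `z_{i+n} = ∑ c_j z_{i+j}` then `y_k = z_{τ+2k}` satisfies the same recurrence:
`z_{i+2n} = ∑_j c_j z_{i+n+j} = ∑_{j,l} c_j c_l z_{i+j+l} = ∑_j c_j² z_{i+2j}` (the terms `j ≠ l`
cancel in pairs, characteristic 2) `= ∑_j c_j z_{i+2j}`. Take `i = τ + 2k`.

**`propagate`.** `m` odd, `s : ZMod m → ZMod 2` with `s(2i) = s(i)`; the recurrence `c` fails for `s` at
`≤ K` positions; `z i` is the solution of the recurrence with `z i k = s(i+k)` for `k < n`. Then for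
`t < 2^N` we have `s(i + t) = z i t` for all but `N n K` of the `i`.
Induction on `N`. `N = 0`: `t = 0`, `z i 0 = s i` (`n ≥ 1`). Step: let `t < 2^{N+1}`, `t = 2 t' + τ`,
`τ ∈ {0,1}`, `t' < 2^N`. Call `i` good if the recurrence holds at the positions `i, …, i+n-1`; at most
`n K` of the `i` are not good. For good `i`, `z i l = s(i + l)` for all `l ≤ 2n - 1` (`l = n + r`,
`r < n`: `s(i+r+n) = ∑ c_j s(i+r+j) = ∑ c_j z i (r+j) = z i (r+n)`, strong induction). Let
`i' = (i + τ)/2 ∈ ZMod m` (`m` odd). For `k < n`: `z i' k = s(i'+k) = s(2i'+2k) = s(i+τ+2k)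
= z i (τ+2k)` (`τ + 2k ≤ 2n - 1`). Both sides satisfy the recurrence in `k` (`rec_dec`), so
`z i' k = z i (τ+2k)` for all `k`. If moreover `s(i'+t') = z i' t'` then
`s(i+t) = s(i+τ+2t') = s(2(i'+t')) = s(i'+t') = z i' t' = z i (τ+2t') = z i t`. As `i ↦ i'` is a
bijection of `ZMod m`, the number of exceptions is `≤ n K + N n K`.
-/

namespace Pool.Agent.GolS

theorem rec_dec {n : ℕ} {c : Fin n → ZMod 2} {z : ℕ → ZMod 2} (hz : Rec n c z) (τ : ℕ) :
    Rec n c (fun k => z (τ + 2 * k)) := by
  intro k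
  show z (τ + 2 * (k + n)) = ∑ j : Fin n, c j * z (τ + 2 * (k + (j : ℕ)))
  have h1 : z (τ + 2 * (k + n)) = ∑ j : Fin n, ∑ l : Fin n,
      c j * (c l * z (τ + 2 * k + (j : ℕ) + (l : ℕ))) := by
    have e1 : τ + 2 * (k + n) = (τ + 2 * k + n) + n := by ring
    rw [e1, hz]
    refine Finset.sum_congr rfl fun j _ => ?_
    have e2 : τ + 2 * k + n + (j : ℕ) = (τ + 2 * k + (j : ℕ)) + n := by ring
    rw [e2, hz, Finset.mul_sum]
  rw [h1, ← Finset.sum_product', Finset.univ_product_univ]
  have h2 : (Finset.univ : Finset (Fin n × Fin n)) =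
      (Finset.univ : Finset (Fin n)).diag ∪ (Finset.univ : Finset (Fin n)).offDiag := by
    rw [Finset.diag_union_offDiag, Finset.univ_product_univ]
  rw [h2, Finset.sum_union (Finset.disjoint_diag_offDiag _), Finset.sum_diag]
  have h3 : ∑ x ∈ (Finset.univ : Finset (Fin n)).offDiag,
      c x.1 * (c x.2 * z (τ + 2 * k + (x.1 : ℕ) + (x.2 : ℕ))) = 0 := by
    refine Finset.sum_involution (fun x _ => (x.2, x.1)) ?_ ?_ ?_ ?_
    · intro x _
      have e1 : τ + 2 * k + (x.2 : ℕ) + (x.1 : ℕ) = τ + 2 * k + (x.1 : ℕ) + (x.2 : ℕ) := by ring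
      show c x.1 * (c x.2 * z (τ + 2 * k + (x.1 : ℕ) + (x.2 : ℕ))) +
        c x.2 * (c x.1 * z (τ + 2 * k + (x.2 : ℕ) + (x.1 : ℕ))) = 0
      rw [e1, mul_left_comm (c x.2)]
      exact CharTwo.add_self_eq_zero _
    · intro x hx _ h
      rw [Finset.mem_offDiag] at hx
      exact hx.2.2 (congrArg Prod.snd h)
    · intro x hx
      rw [Finset.mem_offDiag] at hx ⊢
      exact ⟨hx.2.1, hx.1, hx.2.2.symm⟩
    · intro x _
      rfl
  rw [h3, add_zero]
  refine Finset.sum_congr rfl fun j _ => ?_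
  have e1 : τ + 2 * k + (j : ℕ) + (j : ℕ) = τ + 2 * (k + (j : ℕ)) := by ring
  rw [e1, ← mul_assoc]
  congr 1
  generalize c j = x
  revert x
  decide

theorem rec_unique {n : ℕ} {c : Fin n → ZMod 2} {y y' : ℕ → ZMod 2} (hy : Rec n c y)
    (hy' : Rec n c y') (h : ∀ k < n, y k = y' k) (k : ℕ) : y k = y' k := by
  induction k using Nat.strong_induction_on with
  | _ k ih =>
    by_cases hk : k < n
    · exact h k hk
    · obtain ⟨r, rfl⟩ : ∃ r, k = r + n := ⟨k - n, by omega⟩
      rw [hy, hy']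
      refine Finset.sum_congr rfl fun j _ => ?_
      rw [ih (r + (j : ℕ)) (by have := j.2; omega)]

theorem propagate {m : ℕ} [NeZero m] (hm : Odd m) {n : ℕ} (hn : 1 ≤ n) (s : ZMod m → ZMod 2)
    (hs : ∀ i, s (2 * i) = s i) (c : Fin n → ZMod 2) (z : ZMod m → ℕ → ZMod 2)
    (hz : ∀ i, Rec n c (z i)) (hz0 : ∀ i, ∀ k < n, z i k = s (i + (k : ZMod m))) (K : ℕ)
    (hK : (Finset.univ.filter fun i : ZMod m =>
      s (i + (n : ZMod m)) ≠ ∑ j : Fin n, c j * s (i + ((j : ℕ) : ZMod m))).card ≤ K)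
    (N t : ℕ) (ht : t < 2 ^ N) :
    (Finset.univ.filter fun i : ZMod m => s (i + (t : ZMod m)) ≠ z i t).card ≤ N * n * K := by
  classical
  set B : Finset (ZMod m) := Finset.univ.filter fun i : ZMod m =>
      s (i + (n : ZMod m)) ≠ ∑ j : Fin n, c j * s (i + ((j : ℕ) : ZMod m)) with hB
  set NG : Finset (ZMod m) := (Finset.range n).biUnion fun r => B.image fun i => i - (r : ZMod m)
    with hNG
  have hNGcard : NG.card ≤ n * K := by
    refine Finset.card_biUnion_le.trans ?_
    refine (Finset.sum_le_card_nsmul _ _ K fun r _ => Finset.card_image_le.trans hK).trans ?_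
    rw [Finset.card_range, smul_eq_mul]
  have hgood : ∀ i, i ∉ NG → ∀ r < n, i + (r : ZMod m) ∉ B := by
    intro i hi r hr hmem
    apply hi
    rw [hNG, Finset.mem_biUnion]
    refine ⟨r, Finset.mem_range.2 hr, Finset.mem_image.2 ⟨i + (r : ZMod m), hmem, ?_⟩⟩
    ring
  have hgood2 : ∀ i, i ∉ NG → ∀ l, l < 2 * n → z i l = s (i + (l : ZMod m)) := by
    intro i hi l
    induction l using Nat.strong_induction_on with
    | _ l ih =>
      intro hl
      by_cases hln : l < n
      · exact hz0 i l hln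
      · obtain ⟨r, rfl⟩ : ∃ r, l = r + n := ⟨l - n, by omega⟩
        have h1 := hgood i hi r (by omega)
        rw [hB, Finset.mem_filter] at h1
        push Not at h1
        have h2 := h1 (Finset.mem_univ _)
        rw [hz i r]
        push_cast
        rw [← add_assoc, h2]
        refine Finset.sum_congr rfl fun j _ => ?_
        rw [ih (r + (j : ℕ)) (by have := j.2; omega) (by have := j.2; omega)]
        push_cast
        rw [add_assoc]
  have hcop : Nat.Coprime 2 m := by
    rw [Nat.coprime_two_left]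
    exact hm
  set u : (ZMod m)ˣ := ZMod.unitOfCoprime 2 hcop with hu
  have huc : (u : ZMod m) = 2 := by
    rw [hu, ZMod.coe_unitOfCoprime]
    norm_num
  induction N generalizing t with
  | zero =>
    have ht0 : t = 0 := by simpa using ht
    subst ht0
    rw [Finset.card_eq_zero.2]
    · simp
    · rw [Finset.filter_eq_empty_iff]
      intro i _ hne
      exact hne (hz0 i 0 (by omega)).symm
  | succ N ih =>
    obtain ⟨t', τ, hτ, htt⟩ : ∃ t' τ : ℕ, τ < 2 ∧ t = τ + 2 * t' :=
      ⟨t / 2, t % 2, Nat.mod_lt _ (by norm_num), by omega⟩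
    have ht' : t' < 2 ^ N := by
      rw [pow_succ] at ht
      omega
    have hIH := ih t' ht'
    set hf : ZMod m → ZMod m := fun i => ((u⁻¹ : (ZMod m)ˣ) : ZMod m) * (i + (τ : ZMod m)) with hhf
    have hf2 : ∀ i, 2 * hf i = i + (τ : ZMod m) := by
      intro i
      rw [hhf, ← huc]
      show (u : ZMod m) * (((u⁻¹ : (ZMod m)ˣ) : ZMod m) * (i + (τ : ZMod m))) = _
      rw [← mul_assoc, Units.mul_inv, one_mul]
    have hfinj : Function.Injective hf := by
      intro i j hij
      have h1 := congrArg (fun x => 2 * x) hij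
      simp only [hf2] at h1
      exact add_right_cancel h1
    have hsub : (Finset.univ.filter fun i : ZMod m => s (i + (t : ZMod m)) ≠ z i t) ⊆
        NG ∪ (Finset.univ.filter fun i : ZMod m =>
          s (hf i + (t' : ZMod m)) ≠ z (hf i) t') := by
      intro i hi
      rw [Finset.mem_filter] at hi
      rw [Finset.mem_union]
      by_contra hcon
      push Not at hcon
      obtain ⟨hi1, hi2⟩ := hcon
      rw [Finset.mem_filter] at hi2
      push Not at hi2
      have hi3 := hi2 (Finset.mem_univ _)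
      have hall : ∀ k, z (hf i) k = z i (τ + 2 * k) := by
        refine rec_unique (hz (hf i)) (rec_dec (hz i) τ) ?_
        intro k hk
        show z (hf i) k = z i (τ + 2 * k)
        rw [hz0 (hf i) k hk, hgood2 i hi1 (τ + 2 * k) (by omega), ← hs]
        congr 1
        rw [mul_add, hf2]
        push_cast
        ring
      apply hi.2
      rw [htt, ← hall t', ← hi3, ← hs (hf i + (t' : ZMod m))]
      congr 1
      rw [mul_add, hf2]
      push_cast
      ring
    have hcard2 : (Finset.univ.filter fun i : ZMod m =>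
          s (hf i + (t' : ZMod m)) ≠ z (hf i) t').card ≤ N * n * K := by
      refine le_trans ?_ hIH
      refine Finset.card_le_card_of_injOn hf ?_ hfinj.injOn
      intro i hi
      have hi' := (Finset.mem_filter.1 (Finset.mem_coe.1 hi)).2
      exact Finset.mem_coe.2 (Finset.mem_filter.2 ⟨Finset.mem_univ _, hi'⟩)
    calc (Finset.univ.filter fun i : ZMod m => s (i + (t : ZMod m)) ≠ z i t).card
        ≤ (NG ∪ (Finset.univ.filter fun i : ZMod m =>
          s (hf i + (t' : ZMod m)) ≠ z (hf i) t')).card := Finset.card_le_card hsub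
      _ ≤ NG.card + (Finset.univ.filter fun i : ZMod m =>
          s (hf i + (t' : ZMod m)) ≠ z (hf i) t').card := Finset.card_union_le _ _
      _ ≤ n * K + N * n * K := add_le_add hNGcard hcard2
      _ = (N + 1) * n * K := by ring

end Pool.Agent.GolS
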