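import Pool.Agent.GolS.QuadU
import Pool.Agent.GolS.FldInv
import Pool.Agent.GolS.Mult

/-!
# Module QuadF: quadratic two-level sequences of period `2^(2^a) - 1` are m-sequences

`n = 2^a`, `F` a field with `2^n` elements, `α` a generator of `Fˣ`, `f : F → 𝔽₂` with `f 0 = 0` and
vanishing third differences, `s_i = f (α^i)` two-level and with `2^{n-1}` ones in a period. Then `s` is an
m-sequence.

Proof. `multiplier` (for `s̄ : ZMod (2^n - 1) → 𝔽₂`, `TwoLevel` translated as in the header of Main) gives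
`g` with `s(2i+g) = s(i+g)`. `f'(x) = f(α^g x)`: `f'(x²) = f'(x)` for all `x` (`x = 0` or `x = α^i`),
`f' 0 = 0`, third differences vanish, `∑_{x∈F} eps (f' x) = 1 + ∑_{i<p} eps (s i) = 1 + (p - 2·2^{n-1})
= 0`. `quad_uniserial` with `V = F`, `σ` = Frobenius `x ↦ x²` (linear over `ZMod 2`), `e = 1`:
`(σ+1)^(2^a) = σ^(2^a) + 1 = 0` as `x^(2^n) = x`; `x² = x` iff `x = 0` or `x = 1`. So `f'` is additive, so `f`
is additive; `f ≠ 0`. `mseq_of_field`.
-/

namespace Pool.Agent.GolS

private lemma eps_ind (b : ZMod 2) : eps b = 1 - 2 * (if b = 1 then 1 else 0) := by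
  revert b
  decide

private lemma eps_mul_ind (a b : ZMod 2) : eps a * eps b = 1 - 2 * (if a ≠ b then 1 else 0) := by
  revert a b
  decide

private lemma sum_eps_range (p : ℕ) (P : ℕ → ZMod 2) :
    ∑ i ∈ Finset.range p, eps (P i)
      = p - 2 * (((Finset.range p).filter (fun i => P i = 1)).card : ℤ) := by
  rw [Finset.sum_congr rfl (fun i _ => eps_ind (P i)), Finset.sum_sub_distrib, ← Finset.mul_sum,
    Finset.sum_boole]
  simp

private lemma sum_eps_mul_range (p : ℕ) (P Q : ℕ → ZMod 2) :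
    ∑ i ∈ Finset.range p, eps (P i) * eps (Q i)
      = p - 2 * (((Finset.range p).filter (fun i => P i ≠ Q i)).card : ℤ) := by
  rw [Finset.sum_congr rfl (fun i _ => eps_mul_ind (P i) (Q i)), Finset.sum_sub_distrib,
    ← Finset.mul_sum, Finset.sum_boole]
  simp

private lemma sum_zmod (p : ℕ) [NeZero p] (F : ZMod p → ℤ) :
    ∑ i : ZMod p, F i = ∑ i ∈ Finset.range p, F (i : ZMod p) := by
  apply Finset.sum_nbij' (fun i : ZMod p => i.val) (fun i : ℕ => (i : ZMod p))
  · intro i _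
    exact Finset.mem_range.mpr (ZMod.val_lt i)
  · intro i _
    exact Finset.mem_univ _
  · intro i _
    exact ZMod.natCast_zmod_val i
  · intro i hi
    exact ZMod.val_cast_of_lt (Finset.mem_range.mp hi)
  · intro i _
    rw [ZMod.natCast_zmod_val]

private lemma zmod2_sq (r : ZMod 2) : r ^ 2 = r := by
  revert r
  decide

private lemma frob_pow {F : Type} [Field F] [CharP F 2] [Module (ZMod 2) F] (σ : F →ₗ[ZMod 2] F)
    (hσ : ∀ x, σ x = x ^ 2) (k : ℕ) :
    ∀ x : F, ((σ + 1) ^ (2 ^ k) : F →ₗ[ZMod 2] F) x = x ^ (2 ^ (2 ^ k)) + x := by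
  haveI : Fact (Nat.Prime 2) := ⟨Nat.prime_two⟩
  induction k with
  | zero =>
    intro x
    simp [hσ]
  | succ k ih =>
    intro x
    have e1 : (2 : ℕ) ^ (k + 1) = 2 ^ k + 2 ^ k := by ring
    have e2 : x ^ 2 ^ 2 ^ (k + 1) = (x ^ 2 ^ 2 ^ k) ^ 2 ^ 2 ^ k := by
      rw [← pow_mul, e1, pow_add 2 (2 ^ k) (2 ^ k)]
    rw [e2]
    rw [e1, pow_add, Module.End.mul_apply, ih, ih, add_pow_char_pow]
    have h2 : x ^ 2 ^ 2 ^ k + x ^ 2 ^ 2 ^ k = 0 := CharTwo.add_self_eq_zero _
    calc (x ^ 2 ^ 2 ^ k) ^ 2 ^ 2 ^ k + x ^ 2 ^ 2 ^ k + (x ^ 2 ^ 2 ^ k + x)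
        = (x ^ 2 ^ 2 ^ k) ^ 2 ^ 2 ^ k + (x ^ 2 ^ 2 ^ k + x ^ 2 ^ 2 ^ k) + x := by ring
      _ = (x ^ 2 ^ 2 ^ k) ^ 2 ^ 2 ^ k + x := by rw [h2, add_zero]

theorem quad_mseq (a : ℕ) {F : Type} [Field F] [Fintype F] [CharP F 2]
    (hF : Fintype.card F = 2 ^ (2 ^ a)) (α : Fˣ) (hα : ∀ x : Fˣ, x ∈ Subgroup.zpowers α)
    (f : F → ZMod 2) (h0 : f 0 = 0)
    (h3 : ∀ x y z, f (x + y + z) + f (x + y) + f (x + z) + f (y + z) + f x + f y + f z = 0)
    (h2 : TwoLevel (2 ^ a) (fun i => f ((α ^ i : Fˣ) : F)))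
    (h1 : ((Finset.range (2 ^ (2 ^ a) - 1)).filter fun i =>
      f ((α ^ i : Fˣ) : F) = 1).card = 2 ^ (2 ^ a - 1)) :
    MSeq (2 ^ a) (fun i => f ((α ^ i : Fˣ) : F)) := by
  classical
  set n : ℕ := 2 ^ a with hn
  have hn1 : 1 ≤ n := Nat.one_le_two_pow
  set p : ℕ := 2 ^ n - 1 with hp
  have hpow : 2 ^ n = 2 * 2 ^ (n - 1) := by
    rw [← pow_succ']
    congr 1
    omega
  have hpos2 : 1 ≤ 2 ^ (n - 1) := Nat.one_le_two_pow
  have hp1 : 1 ≤ p := by omega
  haveI : NeZero p := ⟨by omega⟩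
  have hpz : (p : ℤ) = 2 * 2 ^ (n - 1) - 1 := by
    have : p + 1 = 2 * 2 ^ (n - 1) := by omega
    have h : ((p + 1 : ℕ) : ℤ) = ((2 * 2 ^ (n - 1) : ℕ) : ℤ) := by rw [this]
    push_cast at h
    linarith
  -- the order of the generator
  have hord : orderOf α = p := by
    rw [orderOf_eq_card_of_forall_mem_zpowers hα, Nat.card_eq_fintype_card, Fintype.card_units, hF]
  have hαp : α ^ p = 1 := by
    rw [← hord]
    exact pow_orderOf_eq_one α
  set s : ℕ → ZMod 2 := fun i => f ((α ^ i : Fˣ) : F) with hs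
  have hper : ∀ i m : ℕ, s (i + p * m) = s i := by
    intro i m
    show f ((α ^ (i + p * m) : Fˣ) : F) = f ((α ^ i : Fˣ) : F)
    rw [pow_add, pow_mul, hαp, one_pow, mul_one]
  have hmod : ∀ i : ℕ, s (i % p) = s i := by
    intro i
    conv_rhs => rw [← Nat.mod_add_div i p]
    exact (hper _ _).symm
  set sb : ZMod p → ZMod 2 := fun i => s i.val with hsb
  have hsbn : ∀ i : ℕ, sb (i : ZMod p) = s i := by
    intro i
    show s ((i : ZMod p).val) = s i
    rw [ZMod.val_natCast, hmod]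
  have hauto : ∀ τ : ZMod p, τ ≠ 0 → ∑ i, eps (sb i) * eps (sb (i + τ)) = -1 := by
    intro τ hτ
    rw [sum_zmod p (fun i => eps (sb i) * eps (sb (i + τ)))]
    have hval : 0 < τ.val := Nat.pos_of_ne_zero (fun h => hτ ((ZMod.val_eq_zero τ).mp h))
    have e1 : ∀ i : ℕ, sb ((i : ZMod p) + τ) = s (i + τ.val) := by
      intro i
      rw [← hsbn (i + τ.val)]
      congr 1
      push_cast
      rw [ZMod.natCast_zmod_val]
    rw [Finset.sum_congr rfl (fun i _ => by rw [hsbn, e1] :
      ∀ i ∈ Finset.range p, eps (sb (i : ZMod p)) * eps (sb ((i : ZMod p) + τ))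
        = eps (s i) * eps (s (i + τ.val)))]
    rw [sum_eps_mul_range p s (fun i => s (i + τ.val))]
    have h4 := h2 τ.val hval (ZMod.val_lt τ)
    rw [h4, hpz]
    push_cast
    ring
  obtain ⟨g, hg⟩ := multiplier hn1 sb hauto
  -- the shifted function
  set c : Fˣ := α ^ g.val with hc
  have hshift : ∀ i : ℕ, f ((c : F) * ((α ^ i : Fˣ) : F)) = sb ((i : ZMod p) + g) := by
    intro i
    have e1 : sb ((i : ZMod p) + g) = s (i + g.val) := by
      rw [← hsbn (i + g.val)]
      congr 1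
      push_cast
      rw [ZMod.natCast_zmod_val]
    rw [e1]
    show f ((c : F) * ((α ^ i : Fˣ) : F)) = f ((α ^ (i + g.val) : Fˣ) : F)
    rw [pow_add, ← Units.val_mul, mul_comm]
  have hgen : ∀ x : F, x ≠ 0 → ∃ i : ℕ, i < p ∧ ((α ^ i : Fˣ) : F) = x := by
    intro x hx
    have h5 := hα (Units.mk0 x hx)
    rw [mem_zpowers_iff_mem_range_orderOf, Finset.mem_image] at h5
    obtain ⟨i, hi, hi'⟩ := h5
    refine ⟨i, ?_, ?_⟩
    · rw [← hord]
      exact Finset.mem_range.mp hi
    · have := congrArg (fun u : Fˣ => (u : F)) hi'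
      simpa using this
  have hinv : ∀ x : F, f ((c : F) * x ^ 2) = f ((c : F) * x) := by
    intro x
    by_cases hx : x = 0
    · rw [hx]
      simp
    · obtain ⟨i, _, rfl⟩ := hgen x hx
      have e2 : (((α ^ i : Fˣ) : F)) ^ 2 = ((α ^ (2 * i) : Fˣ) : F) := by
        rw [← Units.val_pow_eq_pow_val, ← pow_mul, mul_comm]
      rw [e2, hshift, hshift]
      have := hg (i : ZMod p)
      rw [← this]
      congr 1
      push_cast
      ring
  -- the sum
  have hsumF : ∑ x : F, eps (f x) = 0 := by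
    rw [← Finset.add_sum_erase Finset.univ (fun x => eps (f x)) (Finset.mem_univ (0 : F))]
    have e3 : ∑ x ∈ Finset.univ.erase (0 : F), eps (f x) = ∑ i ∈ Finset.range p, eps (s i) := by
      symm
      apply Finset.sum_bij (fun (i : ℕ) _ => ((α ^ i : Fˣ) : F))
      · intro i _
        exact Finset.mem_erase.mpr ⟨Units.ne_zero _, Finset.mem_univ _⟩
      · intro i hi j hj hij
        have h6 : α ^ i = α ^ j := Units.ext hij
        apply pow_injOn_Iio_orderOf _ _ h6
        · rw [hord]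
          exact Finset.mem_range.mp hi
        · rw [hord]
          exact Finset.mem_range.mp hj
      · intro x hx
        obtain ⟨i, hi, hi'⟩ := hgen x (Finset.mem_erase.mp hx).1
        exact ⟨i, Finset.mem_range.mpr hi, hi'⟩
      · intro i _
        rfl
    rw [e3, sum_eps_range, h0, h1, hpz]
    push_cast
    simp
  have hsumF' : ∑ x : F, eps (f ((c : F) * x)) = 0 := by
    rw [← hsumF]
    apply Fintype.sum_bijective (fun x => (c : F) * x)
    · exact Units.mulLeft_bijective c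
    · intro x
      rfl
  -- the Frobenius
  letI : Algebra (ZMod 2) F := ZMod.algebra F 2
  haveI : Fact (Nat.Prime 2) := ⟨Nat.prime_two⟩
  let σ : F →ₗ[ZMod 2] F :=
    { toFun := fun x => x ^ 2
      map_add' := fun x y => by
        show (x + y) ^ 2 = x ^ 2 + y ^ 2
        exact CharTwo.add_sq x y
      map_smul' := fun r x => by
        show (r • x) ^ 2 = r • x ^ 2
        rw [Algebra.smul_def, Algebra.smul_def, mul_pow, ← map_pow, zmod2_sq] }
  have hσ : ∀ x, σ x = x ^ 2 := fun x => rfl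
  have hnil : (σ + 1) ^ (2 ^ a) = 0 := by
    apply LinearMap.ext
    intro x
    rw [frob_pow σ hσ a x, LinearMap.zero_apply]
    have h7 : x ^ (2 ^ (2 ^ a)) = x := by
      have := FiniteField.pow_card x
      rw [hF] at this
      exact this
    rw [h7]
    exact CharTwo.add_self_eq_zero _
  have hfix : ∀ v : F, σ v = v ↔ v = 0 ∨ v = 1 := by
    intro v
    rw [hσ]
    constructor
    · intro h8
      have h9 : v * (v - 1) = 0 := by ring_nf; linear_combination h8
      rcases mul_eq_zero.mp h9 with h | h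
      · exact Or.inl h
      · exact Or.inr (by linear_combination h)
    · rintro (rfl | rfl)
      · norm_num
      · norm_num
  have hadd' : ∀ x y : F, f ((c : F) * (x + y)) = f ((c : F) * x) + f ((c : F) * y) := by
    apply quad_uniserial a F σ 1 (fun x => f ((c : F) * x)) hF hnil one_ne_zero hfix
    · show f ((c : F) * 0) = 0
      rw [mul_zero, h0]
    · intro x y z
      have := h3 ((c : F) * x) ((c : F) * y) ((c : F) * z)
      show f ((c : F) * (x + y + z)) + f ((c : F) * (x + y)) + f ((c : F) * (x + z))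
        + f ((c : F) * (y + z)) + f ((c : F) * x) + f ((c : F) * y) + f ((c : F) * z) = 0
      rw [mul_add, mul_add, mul_add, mul_add]
      exact this
    · intro x
      exact hinv x
    · exact hsumF'
  have hadd : ∀ x y : F, f (x + y) = f x + f y := by
    intro x y
    have h9 := hadd' (((c⁻¹ : Fˣ) : F) * x) (((c⁻¹ : Fˣ) : F) * y)
    rw [← mul_add, Units.mul_inv_cancel_left, Units.mul_inv_cancel_left,
      Units.mul_inv_cancel_left] at h9
    exact h9
  apply mseq_of_field hn1 hF α hα f hadd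
  have hne : ((Finset.range p).filter fun i => f ((α ^ i : Fˣ) : F) = 1).Nonempty := by
    rw [← Finset.card_pos, h1]
    omega
  obtain ⟨i, hi⟩ := hne
  refine ⟨((α ^ i : Fˣ) : F), ?_⟩
  rw [(Finset.mem_filter.mp hi).2]
  exact one_ne_zero

end Pool.Agent.GolS
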