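import Pool.Agent.GolS.Defs

/-!
# Module QuadU: balanced invariant quadratic functions on a uniserial module of length `2^a`

`V` a finite vector space over `𝔽₂`, `σ : V → V` linear, `N = σ + 1`, `N^(2^a) = 0`, `|V| = 2^(2^a)`,
`ker N = {0, e}`, `e ≠ 0`. `f : V → 𝔽₂` with `f 0 = 0`, vanishing third differences
(quadratic), `f (σ x) = f x`, `∑ eps (f x) = 0`. Claim: `f` is additive.

Notation: `B(x,y) = f(x+y) + f(x) + f(y)`: biadditive (third differences), symmetric,
`B(x,x) = 0`, `B(σx,σy) = B(x,y)`. `R = {r : B(r,·) = 0}`.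

**(Bal)** There is `r ∈ R` with `f r = 1`. Proof: `(∑_x eps f(x))² = ∑_{x,h} eps (f(x) + f(x+h))
= ∑_h eps(f h) ∑_x eps (B(x,h)) = |V| ∑_{h∈R} eps (f h)`, which is `|V||R| ≠ 0` if `f = 0` on `R`.

Induction on `a` (for all `V`).

`a = 0`: `|V| = 2`, `V = {0,e}`, `f 0 = 0`, so `f e = 1` (balanced): additive (or: by (Bal), `R = V`).

Step `a → a+1`: `m = 2^a`, `n = 2m`, `M = N^m = σ^m + 1` (characteristic 2). `|ker N^j| = 2^j` for `j ≤ n`:
`|ker N^{j+1}| ≤ 2 |ker N^j|` (as `N^j` maps `ker N^{j+1}` to `ker N` with kernel `ker N^j`) and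
`|ker N^n| = |V| = 2^n`. `Im M ⊆ ker M` (`M² = 0`) and `|Im M| = 2^n/2^m = 2^m = |ker M|`. Put
`H = Im M = ker M`.
1. `B(Mx, y) = 0` for `y ∈ H`: `B(x + σ^m x, y) = B(x,y) + B(σ^m x, σ^m y) = 0` (`σ^m y = y`).
2. `δ(x) := f(Mx) = f(x) + f(σ^m x) + B(x, σ^m x) = B(x, σ^m x)`; `f|_H` is additive by 1, so `δ` is
   additive; `δ(σx) = δ(x)`, so `δ = 0` on `Im N`.
3. Suppose `δ(z) = 1`. Then `z ∉ Im N`. `Im N = ker N^{n-1}` (`⊆` as `N^n = 0`, same size
   `2^{n-1}`), so `N^{n-1} z ≠ 0`, `N^{n-1} z ∈ ker N`, so `N^{n-1} z = e`. `N^{n-1} = ∑_{i<n} σ^i`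
   (`(1+X)^{2^k - 1} = ∑ X^i` over `𝔽₂`: multiply by `1+X`; on `V` induct on `k`:
   `∑_{i<2^{k+1}} σ^i = (1 + σ^{2^k}) ∑_{i<2^k} σ^i = N^{2^k} N^{2^k-1}`). `σ^n = 1` (`N^n = 0`).
   `B(e,z) = ∑_{i<n} B(σ^i z, z)`: the terms `i` and `n - i` cancel (`B(σ^{n-i} z, z) =
   B(σ^n z, σ^i z) = B(σ^i z, z)`) for `0 < i < m`, the term `i = 0` is `B(z,z) = 0`, so
   `B(e,z) = B(σ^m z, z) = δ(z) = 1`. So `e ∉ R`. But `R` is `σ`-stable; if `R ≠ 0` take `0 ≠ r ∈ R` and
   the last nonzero `N^k r`: it lies in `R ∩ ker N`, so it is `e`. So `R = 0`, contradicting (Bal).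
4. So `δ = 0`, i.e. `f = 0` on `H`. By (Bal) take `r ∈ R`, `f r = 1`; `r ∉ H = ker N^m`. Let `k` be the largest
   with `N^k r ≠ 0`; `k ≥ m`; `N^k r = e`. Show `ker N^j ⊆ R` for `j ≤ m` by induction: for
   `v ∈ ker N^{j+1}`, `N^j v ∈ ker N = {0,e}`; if `0`, `v ∈ ker N^j ⊆ R`; if `e`, then with
   `y = N^{k-j} r ∈ R`, `N^j (v - y) = 0`, `v - y ∈ R`, `v ∈ R`. So `H ⊆ R`.
5. `f(x + h) = f(x) + f(h) + B(x,h) = f(x)` for `h ∈ H`. So there is `f₁ : H → 𝔽₂` with
   `f x = f₁ (M x)`. `f₁` is quadratic, `σ`-invariant (`M σ = σ M`), `f₁ 0 = 0`,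
   `|H| ∑_{y∈H} eps (f₁ y) = ∑_x eps (f x) = 0`. `H` with `σ|_H` satisfies the hypotheses with `a`
   (`N^m = M = 0` on `H`, `|H| = 2^m`, `e ∈ ker N ⊆ ker M = H`). So `f₁` is additive, so `f` is.
-/

set_option autoImplicit false
set_option linter.unusedSectionVars false

namespace Pool.Agent.GolS

namespace QuadU

open Polynomial

variable {V : Type} [AddCommGroup V] [Module (ZMod 2) V]

/-- the polar form -/
def Bf (f : V → ZMod 2) (x y : V) : ZMod 2 := f (x + y) + f x + f y

theorem B_comm (f : V → ZMod 2) (x y : V) : Bf f x y = Bf f y x := by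
  unfold Bf
  rw [add_comm x y]
  ring

theorem B_self {f : V → ZMod 2} (h0 : f 0 = 0) (x : V) : Bf f x x = 0 := by
  unfold Bf
  rw [ZModModule.add_self, h0, zero_add]
  exact ZModModule.add_self _

theorem B_zero {f : V → ZMod 2} (h0 : f 0 = 0) (x : V) : Bf f 0 x = 0 := by
  unfold Bf
  rw [zero_add, h0, add_zero]
  exact ZModModule.add_self _

theorem B_add {f : V → ZMod 2}
    (h3 : ∀ x y z, f (x + y + z) + f (x + y) + f (x + z) + f (y + z) + f x + f y + f z = 0)
    (x y z : V) : Bf f (x + y) z = Bf f x z + Bf f y z := by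
  have h := h3 x y z
  unfold Bf
  revert h
  generalize f (x + y + z) = a1
  generalize f (x + y) = a2
  generalize f (x + z) = a3
  generalize f (y + z) = a4
  generalize f x = a5
  generalize f y = a6
  generalize f z = a7
  revert a1 a2 a3 a4 a5 a6 a7
  decide

theorem B_add' {f : V → ZMod 2}
    (h3 : ∀ x y z, f (x + y + z) + f (x + y) + f (x + z) + f (y + z) + f x + f y + f z = 0)
    (x y z : V) : Bf f x (y + z) = Bf f x y + Bf f x z := by
  rw [B_comm, B_add h3, B_comm f y x, B_comm f z x]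

theorem B_sum {f : V → ZMod 2} (h0 : f 0 = 0)
    (h3 : ∀ x y z, f (x + y + z) + f (x + y) + f (x + z) + f (y + z) + f x + f y + f z = 0)
    {ι : Type} (s : Finset ι) (g : ι → V) (z : V) :
    Bf f (∑ i ∈ s, g i) z = ∑ i ∈ s, Bf f (g i) z := by
  classical
  induction s using Finset.induction_on with
  | empty => simp [B_zero h0]
  | insert i s hi ih => rw [Finset.sum_insert hi, Finset.sum_insert hi, B_add h3, ih]

theorem f_add (f : V → ZMod 2) (x y : V) : f (x + y) = f x + f y + Bf f x y := by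
  unfold Bf
  generalize f (x + y) = a1
  generalize f x = a2
  generalize f y = a3
  revert a1 a2 a3
  decide

theorem bal [Fintype V] {f : V → ZMod 2} (h0 : f 0 = 0)
    (h3 : ∀ x y z, f (x + y + z) + f (x + y) + f (x + z) + f (y + z) + f x + f y + f z = 0)
    (hb : ∑ x, eps (f x) = 0) : ∃ r, (∀ y, Bf f r y = 0) ∧ f r = 1 := by
  classical
  by_contra hne
  push Not at hne
  have h01 : ∀ b : ZMod 2, b ≠ 1 → b = 0 := by decide
  have h10 : ∀ b : ZMod 2, b ≠ 0 → b = 1 := by decide
  have e1 : ∑ x, ∑ h, eps (f x) * eps (f (x + h)) = 0 := by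
    refine Finset.sum_eq_zero fun x _ => ?_
    rw [← Finset.mul_sum]
    have : ∑ h, eps (f (x + h)) = ∑ h, eps (f h) :=
      Fintype.sum_equiv (Equiv.addLeft x) _ _ (fun h => rfl)
    rw [this, hb, mul_zero]
  have e2 : ∀ h, ∑ x, eps (f x) * eps (f (x + h)) =
      if (∀ y, Bf f h y = 0) then (Fintype.card V : ℤ) else 0 := by
    intro h
    have e3 : ∀ x, eps (f x) * eps (f (x + h)) = eps (f h) * eps (Bf f h x) := by
      intro x
      rw [← eps_add, ← eps_add]
      congr 1
      rw [f_add f x h, B_comm f h x]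
      generalize f x = a1
      generalize f h = a2
      generalize Bf f x h = a3
      revert a1 a2 a3
      decide
    simp only [e3]
    rw [← Finset.mul_sum]
    split_ifs with hR
    · rw [h01 _ (hne h hR)]
      simp [hR]
    · push Not at hR
      obtain ⟨y, hy⟩ := hR
      have hy1 := h10 _ hy
      have e4 : ∑ x, eps (Bf f h x) = ∑ x, - eps (Bf f h x) := by
        refine Fintype.sum_equiv (Equiv.addRight y) _ _ (fun x => ?_)
        rw [Equiv.coe_addRight, B_add' h3, hy1, eps_add]
        simp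
      rw [Finset.sum_neg_distrib] at e4
      have e5 : ∑ x, eps (Bf f h x) = 0 := by linarith
      rw [e5, mul_zero]
  rw [Finset.sum_comm] at e1
  simp only [e2] at e1
  have e6 : (if (∀ y, Bf f 0 y = 0) then (Fintype.card V : ℤ) else 0) ≤
      ∑ h : V, if (∀ y, Bf f h y = 0) then (Fintype.card V : ℤ) else 0 := by
    refine Finset.single_le_sum (f := fun h : V =>
      if (∀ y, Bf f h y = 0) then (Fintype.card V : ℤ) else 0) (fun h _ => ?_)
      (Finset.mem_univ 0)
    split_ifs
    · positivity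
    · exact le_rfl
  rw [e1, if_pos (B_zero h0)] at e6
  have : 0 < Fintype.card V := Fintype.card_pos
  omega

/-- `(σ + 1)^(2^k) = σ^(2^k) + 1` -/
theorem pow_two (σ : V →ₗ[ZMod 2] V) (k : ℕ) : (σ + 1) ^ (2 ^ k) = σ ^ (2 ^ k) + 1 := by
  have h : ((X : (ZMod 2)[X]) + 1) ^ (2 ^ k) = X ^ (2 ^ k) + 1 := by
    rw [add_pow_char_pow, one_pow]
  have h2 := congrArg (aeval σ) h
  simpa using h2

theorem geom (σ : V →ₗ[ZMod 2] V) (k : ℕ) :
    (σ + 1) ^ (2 ^ k - 1) = ∑ i ∈ Finset.range (2 ^ k), σ ^ i := by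
  have h : ((X : (ZMod 2)[X]) + 1) ^ (2 ^ k - 1) = ∑ i ∈ Finset.range (2 ^ k), X ^ i := by
    have hne : ((X : (ZMod 2)[X]) + 1) ≠ 0 := by
      have := X_add_C_ne_zero (1 : ZMod 2)
      simpa using this
    apply mul_left_cancel₀ hne
    rw [← pow_succ', Nat.sub_add_cancel Nat.one_le_two_pow, add_pow_char_pow, one_pow]
    have h1 := mul_geom_sum (X : (ZMod 2)[X]) (2 ^ k)
    have h2 : (X : (ZMod 2)[X]) - 1 = X + 1 := CharTwo.sub_eq_add _ _
    rw [h2] at h1
    rw [h1]
    exact (CharTwo.sub_eq_add _ _).symm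
  have h2 := congrArg (aeval σ) h
  simpa using h2

theorem ker_le [FiniteDimensional (ZMod 2) V] (N : V →ₗ[ZMod 2] V) (e : V)
    (hN : ∀ v, N v = 0 → v = 0 ∨ v = e) (j : ℕ) :
    Module.finrank (ZMod 2) (LinearMap.ker (N ^ j)) ≤ j := by
  have hk : Module.finrank (ZMod 2) (LinearMap.ker N) ≤ 1 := by
    have h1 : LinearMap.ker N ≤ Submodule.span (ZMod 2) {e} := by
      intro v hv
      rcases hN v hv with h | h
      · rw [h]; exact Submodule.zero_mem _
      · rw [h]; exact Submodule.mem_span_singleton_self e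
    refine (Submodule.finrank_mono h1).trans ?_
    have h2 := finrank_span_le_card (R := ZMod 2) ({e} : Set V)
    simpa using h2
  induction j with
  | zero =>
    rw [pow_zero]
    have : LinearMap.ker (1 : V →ₗ[ZMod 2] V) = ⊥ := LinearMap.ker_id
    rw [this, finrank_bot]
  | succ j ih =>
    have h1 := LinearMap.finrank_range_add_finrank_ker
      ((N ^ j).domRestrict (LinearMap.ker (N ^ (j + 1))))
    have h2 : Module.finrank (ZMod 2)
        (LinearMap.range ((N ^ j).domRestrict (LinearMap.ker (N ^ (j + 1))))) ≤ 1 := by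
      refine (Submodule.finrank_mono ?_).trans hk
      rintro _ ⟨⟨x, hx⟩, rfl⟩
      rw [LinearMap.mem_ker] at hx ⊢
      rw [LinearMap.domRestrict_apply, ← Module.End.mul_apply, ← pow_succ']
      exact hx
    have h3 : Module.finrank (ZMod 2)
        (LinearMap.ker ((N ^ j).domRestrict (LinearMap.ker (N ^ (j + 1))))) ≤
        Module.finrank (ZMod 2) (LinearMap.ker (N ^ j)) := by
      let g : LinearMap.ker ((N ^ j).domRestrict (LinearMap.ker (N ^ (j + 1)))) →ₗ[ZMod 2]
          LinearMap.ker (N ^ j) :=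
        LinearMap.codRestrict _ ((Submodule.subtype _).comp (Submodule.subtype _))
          (fun x => x.2)
      refine LinearMap.finrank_le_finrank_of_injective (f := g) ?_
      intro x y hxy
      apply Subtype.ext
      apply Subtype.ext
      have h := congrArg (fun z : LinearMap.ker (N ^ j) => (z : V)) hxy
      exact h
    omega

theorem core (a : ℕ) : ∀ (V : Type) [AddCommGroup V] [Module (ZMod 2) V] [Fintype V]
    (σ : V →ₗ[ZMod 2] V) (e : V) (f : V → ZMod 2), Fintype.card V = 2 ^ (2 ^ a) →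
    (σ + 1) ^ (2 ^ a) = 0 → e ≠ 0 → (∀ v, σ v = v ↔ v = 0 ∨ v = e) → f 0 = 0 →
    (∀ x y z, f (x + y + z) + f (x + y) + f (x + z) + f (y + z) + f x + f y + f z = 0) →
    (∀ x, f (σ x) = f x) → (∃ r, (∀ y, Bf f r y = 0) ∧ f r = 1) → ∀ x y, Bf f x y = 0 := by
  have two : ∀ b : ZMod 2, b = 0 ∨ b = 1 := by decide
  have b2 : ∀ b : ZMod 2, b + b = 0 := by decide
  induction a with
  | zero =>
    intro V _ _ _ σ e f hc hp he hfix h0 h3 hs hr x y
    obtain ⟨r, hr, hr1⟩ := hr
    have hall : ∀ v, v = 0 ∨ v = e := by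
      intro v
      rw [← hfix v]
      have h := LinearMap.congr_fun hp v
      simp only [pow_zero, pow_one, LinearMap.add_apply, Module.End.one_apply,
        LinearMap.zero_apply] at h
      have h' := add_eq_zero_iff_eq_neg.1 h
      rw [ZModModule.neg_eq_self] at h'
      exact h'
    have hre : r = e := by
      rcases hall r with h | h
      · rw [h, h0] at hr1
        exact absurd hr1 (by decide)
      · exact h
    rcases hall x with h | h
    · rw [h, B_zero h0]
    · rw [h, ← hre]
      exact hr y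
  | succ a ih =>
    intro V _ _ _ σ e f hc hp he hfix h0 h3 hs hr
    classical
    obtain ⟨r, hr, hr1⟩ := hr
    obtain ⟨m, hm⟩ : ∃ m, m = 2 ^ a := ⟨_, rfl⟩
    have hn : 2 ^ (a + 1) = m + m := by rw [hm, pow_succ]; ring
    have hm1 : 1 ≤ m := by rw [hm]; exact Nat.one_le_two_pow
    obtain ⟨N, hNd⟩ : ∃ N : V →ₗ[ZMod 2] V, N = σ + 1 := ⟨_, rfl⟩
    have hNx : ∀ x, N x = σ x + x := by intro x; rw [hNd]; rfl
    have hMx : ∀ x, (N ^ m) x = (σ ^ m) x + x := by
      intro x
      rw [hNd, hm, pow_two]; rfl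
    have hNn : N ^ (m + m) = 0 := by rw [hNd, ← hn]; exact hp
    have hσn : ∀ x, (σ ^ (m + m)) x = x := by
      intro x
      have h := LinearMap.congr_fun (pow_two σ (a + 1)) x
      rw [hn, ← hNd, hNn] at h
      simp only [LinearMap.zero_apply, LinearMap.add_apply, Module.End.one_apply] at h
      have h' := add_eq_zero_iff_eq_neg.1 h.symm
      rwa [ZModModule.neg_eq_self] at h'
    have hsk : ∀ i x, f ((σ ^ i) x) = f x := by
      intro i
      induction i with
      | zero => intro x; rfl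
      | succ i ih => intro x; rw [pow_succ', Module.End.mul_apply, hs, ih]
    have hB : ∀ i x y, Bf f ((σ ^ i) x) ((σ ^ i) y) = Bf f x y := by
      intro i x y
      unfold Bf
      rw [← map_add, hsk, hsk, hsk]
    have hNk : ∀ v, N v = 0 → v = 0 ∨ v = e := by
      intro v hv
      rw [← hfix v]
      rw [hNx] at hv
      have h' := add_eq_zero_iff_eq_neg.1 hv
      rwa [ZModModule.neg_eq_self] at h'
    have hNe : N e = 0 := by
      rw [hNx, (hfix e).2 (Or.inr rfl)]
      exact ZModModule.add_self e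
    -- dimensions
    have hfr : Module.finrank (ZMod 2) V = m + m := by
      have h := Module.card_eq_pow_finrank (K := ZMod 2) (V := V)
      rw [hc, ZMod.card, hn] at h
      exact (Nat.pow_right_injective le_rfl h).symm
    have hker := ker_le N e hNk
    have hMM : ∀ x, (N ^ m) ((N ^ m) x) = 0 := by
      intro x
      rw [← Module.End.mul_apply, ← pow_add, hNn]; rfl
    have hle : LinearMap.range (N ^ m) ≤ LinearMap.ker (N ^ m) := by
      rintro _ ⟨x, rfl⟩
      exact hMM x
    have hrn := LinearMap.finrank_range_add_finrank_ker (N ^ m)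
    rw [hfr] at hrn
    have hkm := hker m
    have hrk := Submodule.finrank_mono hle
    have hH : LinearMap.range (N ^ m) = LinearMap.ker (N ^ m) :=
      Submodule.eq_of_le_of_finrank_eq hle (by omega)
    have hHfr : Module.finrank (ZMod 2) (LinearMap.range (N ^ m)) = m := by omega
    -- the range of `N`
    have hle1 : LinearMap.range N ≤ LinearMap.ker (N ^ (m + m - 1)) := by
      rintro _ ⟨x, rfl⟩
      rw [LinearMap.mem_ker, ← Module.End.mul_apply, ← pow_succ, Nat.sub_add_cancel (by omega),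
        hNn]
      rfl
    have hR1 : LinearMap.range N = LinearMap.ker (N ^ (m + m - 1)) := by
      have h1 := LinearMap.finrank_range_add_finrank_ker N
      rw [hfr] at h1
      have h2 := hker 1
      rw [pow_one] at h2
      have h3 := hker (m + m - 1)
      have h4 := Submodule.finrank_mono hle1
      exact Submodule.eq_of_le_of_finrank_eq hle1 (by omega)
    -- the last nonzero power
    have hlast : ∀ x, x ≠ 0 → ∃ k, (N ^ k) x = e := by
      intro x hx
      have hex : ∃ k, (N ^ k) x = 0 := ⟨m + m, by rw [hNn]; rfl⟩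
      have hspec := Nat.find_spec hex
      have hpos : Nat.find hex ≠ 0 := by
        intro h
        rw [h, pow_zero] at hspec
        exact hx hspec
      obtain ⟨k, hk⟩ := Nat.exists_eq_succ_of_ne_zero hpos
      have hk1 : (N ^ k) x ≠ 0 := Nat.find_min hex (by omega)
      refine ⟨k, ?_⟩
      rw [hk, Nat.succ_eq_add_one, pow_succ', Module.End.mul_apply] at hspec
      exact (hNk _ hspec).resolve_left hk1
    -- the radical is stable
    have hσB : ∀ s, (∀ y, Bf f s y = 0) → ∀ y, Bf f (σ s) y = 0 := by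
      intro s hs' y
      have h1 : y = (σ ^ 1) ((σ ^ (m + m - 1)) y) := by
        rw [← Module.End.mul_apply, ← pow_add, show 1 + (m + m - 1) = m + m by omega, hσn]
      have h2 := hB 1 s ((σ ^ (m + m - 1)) y)
      rw [← h1, pow_one, hs'] at h2
      exact h2
    have hNB : ∀ s, (∀ y, Bf f s y = 0) → ∀ y, Bf f (N s) y = 0 := by
      intro s hs' y
      rw [hNx, B_add h3, hσB s hs', hs', add_zero]
    have hNkB : ∀ k s, (∀ y, Bf f s y = 0) → ∀ y, Bf f ((N ^ k) s) y = 0 := by
      intro k
      induction k with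
      | zero => intro s hs'; exact hs'
      | succ k ih =>
        intro s hs'
        rw [pow_succ', Module.End.mul_apply]
        exact hNB _ (ih s hs')
    have hr0 : r ≠ 0 := by
      intro h
      rw [h, h0] at hr1
      exact absurd hr1 (by decide)
    obtain ⟨k0, hk0⟩ := hlast r hr0
    have heR : ∀ y, Bf f e y = 0 := by
      rw [← hk0]
      exact hNkB k0 r hr
    -- step 1
    have s1 : ∀ x y, (N ^ m) y = 0 → Bf f ((N ^ m) x) y = 0 := by
      intro x y hy
      have hy' : (σ ^ m) y = y := by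
        rw [hMx] at hy
        have h' := add_eq_zero_iff_eq_neg.1 hy
        rwa [ZModModule.neg_eq_self] at h'
      rw [hMx, B_add h3]
      have h1 := hB m x y
      rw [hy'] at h1
      rw [h1]
      exact b2 _
    -- step 2
    have s2 : ∀ x, f ((N ^ m) x) = Bf f ((σ ^ m) x) x := by
      intro x
      rw [hMx, f_add f, hsk, b2, zero_add]
    have s2a : ∀ x y, f ((N ^ m) (x + y)) = f ((N ^ m) x) + f ((N ^ m) y) := by
      intro x y
      rw [map_add, f_add f, s1 x _ (hMM y), add_zero]
    have s2N : ∀ x, f ((N ^ m) (N x)) = 0 := by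
      intro x
      have hcomm : (N ^ m) (σ x) = σ ((N ^ m) x) := by
        rw [hMx, hMx, map_add, ← Module.End.mul_apply, ← Module.End.mul_apply, ← pow_succ,
          ← pow_succ']
      rw [hNx, s2a, hcomm, hs]
      exact b2 _
    -- step 3
    have s3 : ∀ z, f ((N ^ m) z) = 0 := by
      intro z
      by_contra hz
      have hz1 : f ((N ^ m) z) = 1 := (two _).resolve_left hz
      have hzr : z ∉ LinearMap.range N := by
        rintro ⟨x, rfl⟩
        exact hz (s2N x)
      rw [hR1, LinearMap.mem_ker] at hzr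
      have hze : (N ^ (m + m - 1)) z = e := by
        refine (hNk _ ?_).resolve_left hzr
        rw [← Module.End.mul_apply, ← pow_succ', Nat.sub_add_cancel (by omega), hNn]
        rfl
      have hgeom : (N ^ (m + m - 1)) z = ∑ i ∈ Finset.range (m + m), (σ ^ i) z := by
        have h := LinearMap.congr_fun (geom σ (a + 1)) z
        rw [hn, ← hNd] at h
        rw [h, LinearMap.sum_apply]
      have h1 := heR z
      rw [← hze, hgeom, B_sum h0 h3] at h1
      have hpair : ∀ i, i ≤ m + m → Bf f ((σ ^ (m + m - i)) z) z = Bf f ((σ ^ i) z) z := by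
        intro i hi
        have h2 := hB i ((σ ^ (m + m - i)) z) z
        rw [← Module.End.mul_apply, ← pow_add, show i + (m + m - i) = m + m by omega, hσn,
          B_comm] at h2
        exact h2.symm
      have hsum : ∑ i ∈ Finset.range (m + m), Bf f ((σ ^ i) z) z = Bf f ((σ ^ m) z) z := by
        have hmem : m ∈ Finset.range (m + m) := Finset.mem_range.2 (by omega)
        rw [← Finset.add_sum_erase _ _ hmem]
        have h0mem : 0 ∈ (Finset.range (m + m)).erase m :=
          Finset.mem_erase.2 ⟨by omega, Finset.mem_range.2 (by omega)⟩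
        rw [← Finset.add_sum_erase _ _ h0mem, pow_zero, Module.End.one_apply, B_self h0,
          zero_add]
        have hz0 : ∑ i ∈ ((Finset.range (m + m)).erase m).erase 0, Bf f ((σ ^ i) z) z = 0 := by
          refine Finset.sum_involution (fun i _ => m + m - i) ?_ ?_ ?_ ?_
          · intro i hi
            rw [Finset.mem_erase, Finset.mem_erase, Finset.mem_range] at hi
            show Bf f ((σ ^ i) z) z + Bf f ((σ ^ (m + m - i)) z) z = 0
            rw [hpair i (by omega)]
            exact b2 _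
          · intro i hi _
            rw [Finset.mem_erase, Finset.mem_erase, Finset.mem_range] at hi
            show m + m - i ≠ i
            omega
          · intro i hi
            rw [Finset.mem_erase, Finset.mem_erase, Finset.mem_range] at hi ⊢
            omega
          · intro i hi
            rw [Finset.mem_erase, Finset.mem_erase, Finset.mem_range] at hi
            show m + m - (m + m - i) = i
            omega
        rw [hz0, add_zero]
      rw [hsum, ← s2, hz1] at h1
      exact absurd h1 (by decide)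
    -- step 4
    have hrM : (N ^ m) r ≠ 0 := by
      intro h
      have h1 : r ∈ LinearMap.range (N ^ m) := by
        rw [hH]; exact h
      obtain ⟨x, hx⟩ := h1
      rw [← hx, s3] at hr1
      exact absurd hr1 (by decide)
    obtain ⟨k1, hk1⟩ := hlast _ hrM
    rw [← Module.End.mul_apply, ← pow_add] at hk1
    have s4 : ∀ j, j ≤ m → ∀ v, (N ^ j) v = 0 → ∀ y, Bf f v y = 0 := by
      intro j
      induction j with
      | zero =>
        intro _ v hv y
        have hv' : v = 0 := hv
        rw [hv', B_zero h0]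
      | succ j ih =>
        intro hj v hv y
        rw [pow_succ', Module.End.mul_apply] at hv
        rcases hNk _ hv with h | h
        · exact ih (by omega) v h y
        · have h1 : (N ^ j) (v + (N ^ (k1 + m - j)) r) = 0 := by
            rw [map_add, h, ← Module.End.mul_apply, ← pow_add,
              show j + (k1 + m - j) = k1 + m by omega, hk1]
            exact ZModModule.add_self e
          have h2 := ih (by omega) _ h1 y
          rw [B_add h3, hNkB _ r hr, add_zero] at h2
          exact h2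
    -- step 5
    have s5 : ∀ x h, (N ^ m) h = 0 → f (x + h) = f x := by
      intro x h hh
      have hhr : h ∈ LinearMap.range (N ^ m) := by rw [hH]; exact hh
      obtain ⟨y, hy⟩ := hhr
      rw [f_add f, B_comm, s4 m le_rfl h hh, ← hy, s3, add_zero, add_zero]
    obtain ⟨g, hg⟩ : ∃ g : LinearMap.range (N ^ m) → ZMod 2, ∀ x, g ⟨(N ^ m) x, x, rfl⟩ = f x := by
      refine ⟨fun h => f (Classical.choose h.2), fun x => ?_⟩
      have h1 := Classical.choose_spec (⟨x, rfl⟩ : ∃ y, (N ^ m) y = (N ^ m) x)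
      have h2 : (N ^ m) (Classical.choose (⟨x, rfl⟩ : ∃ y, (N ^ m) y = (N ^ m) x) + x) = 0 := by
        rw [map_add, h1]
        exact ZModModule.add_self _
      have h3 := s5 x _ h2
      rw [add_comm x, add_assoc, ZModModule.add_self, add_zero] at h3
      exact h3
    have hsurj : ∀ h : LinearMap.range (N ^ m), ∃ x, h = ⟨(N ^ m) x, x, rfl⟩ := by
      rintro ⟨_, x, rfl⟩
      exact ⟨x, rfl⟩
    have gadd : ∀ x y, (⟨(N ^ m) x, x, rfl⟩ : LinearMap.range (N ^ m)) + ⟨(N ^ m) y, y, rfl⟩ =
        ⟨(N ^ m) (x + y), x + y, rfl⟩ := by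
      intro x y
      apply Subtype.ext
      show (N ^ m) x + (N ^ m) y = (N ^ m) (x + y)
      rw [map_add]
    have gB : ∀ x y, Bf g ⟨(N ^ m) x, x, rfl⟩ ⟨(N ^ m) y, y, rfl⟩ = Bf f x y := by
      intro x y
      unfold Bf
      rw [gadd, hg, hg, hg]
    have hcomm : ∀ x, σ ((N ^ m) x) = (N ^ m) (σ x) := by
      intro x
      rw [hMx, hMx, map_add, ← Module.End.mul_apply, ← Module.End.mul_apply, ← pow_succ,
        ← pow_succ']
    have hmaps : ∀ x ∈ LinearMap.range (N ^ m), σ x ∈ LinearMap.range (N ^ m) := by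
      rintro _ ⟨x, rfl⟩
      exact ⟨σ x, (hcomm x).symm⟩
    have heH : e ∈ LinearMap.range (N ^ m) := by
      rw [hH, LinearMap.mem_ker]
      obtain ⟨m', hm'⟩ : ∃ m', m = m' + 1 := ⟨m - 1, by omega⟩
      rw [hm', pow_succ, Module.End.mul_apply, hNe, map_zero]
    have hcard : Fintype.card (LinearMap.range (N ^ m)) = 2 ^ (2 ^ a) := by
      have h := Module.card_eq_pow_finrank (K := ZMod 2) (V := LinearMap.range (N ^ m))
      rw [ZMod.card, hHfr] at h
      rw [← hm]
      convert h
    have hfin := ih (LinearMap.range (N ^ m)) (σ.restrict hmaps) ⟨e, heH⟩ g hcard ?_ ?_ ?_ ?_ ?_ ?_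
      ?_
    · intro x y
      rw [← gB]
      exact hfin _ _
    · ext ⟨x, hx⟩
      have h1 : ∀ (j : ℕ) (w : LinearMap.range (N ^ m)),
          (((σ.restrict hmaps + 1) ^ j) w : V) = (N ^ j) (w : V) := by
        intro j
        induction j with
        | zero => intro w; rfl
        | succ j ih2 =>
          intro w
          rw [pow_succ, Module.End.mul_apply, ih2, pow_succ, Module.End.mul_apply]
          congr 1
          rw [hNx]
          rfl
      rw [h1, ← hm]
      have h2 : x ∈ LinearMap.ker (N ^ m) := hH ▸ hx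
      exact h2
    · intro h
      apply he
      exact congrArg Subtype.val h
    · rintro ⟨x, hx⟩
      rw [Subtype.ext_iff, Subtype.ext_iff, Subtype.ext_iff]
      exact hfix x
    · have h1 : (0 : LinearMap.range (N ^ m)) = ⟨(N ^ m) 0, 0, rfl⟩ := by
        apply Subtype.ext
        show (0 : V) = (N ^ m) 0
        rw [map_zero]
      rw [h1, hg, h0]
    · intro x y z
      obtain ⟨x, rfl⟩ := hsurj x
      obtain ⟨y, rfl⟩ := hsurj y
      obtain ⟨z, rfl⟩ := hsurj z
      rw [gadd, gadd, gadd, gadd, hg, hg, hg, hg, hg, hg, hg]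
      exact h3 x y z
    · intro x
      obtain ⟨x, rfl⟩ := hsurj x
      have h1 : (σ.restrict hmaps) ⟨(N ^ m) x, x, rfl⟩ = ⟨(N ^ m) (σ x), σ x, rfl⟩ := by
        apply Subtype.ext
        exact hcomm x
      rw [h1, hg, hg, hs]
    · refine ⟨⟨(N ^ m) r, r, rfl⟩, ?_, ?_⟩
      · intro y
        obtain ⟨y, rfl⟩ := hsurj y
        rw [gB]
        exact hr y
      · rw [hg]; exact hr1

end QuadU

theorem quad_uniserial (a : ℕ) : ∀ (V : Type) [AddCommGroup V] [Module (ZMod 2) V] [Fintype V]
    (σ : V →ₗ[ZMod 2] V) (e : V) (f : V → ZMod 2), Fintype.card V = 2 ^ (2 ^ a) →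
    (σ + 1) ^ (2 ^ a) = 0 → e ≠ 0 → (∀ v, σ v = v ↔ v = 0 ∨ v = e) → f 0 = 0 →
    (∀ x y z, f (x + y + z) + f (x + y) + f (x + z) + f (y + z) + f x + f y + f z = 0) →
    (∀ x, f (σ x) = f x) → ∑ x, eps (f x) = 0 → ∀ x y, f (x + y) = f x + f y := by
  intro V _ _ _ σ e f hc hp he hfix h0 h3 hs hb x y
  have h := QuadU.core a V σ e f hc hp he hfix h0 h3 hs (QuadU.bal h0 h3 hb) x y
  rw [QuadU.f_add f, h, add_zero]

end Pool.Agent.GolS
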