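import Pool.Agent.GolS.Defs

/-!
# Module Witt: a 2-adic ring with a Frobenius lift

Take `W = WittVector 2 F`, `F = GaloisField 2 n` (a finite field with `2^n` elements), `φ` the
Frobenius `WittVector.frobenius`, `ζ = WittVector.teichmuller 2 α` with `α` a generator of `Fˣ`.
* `W` is a domain, `2` is prime (`WittVector.irreducible` and `W` is a discrete valuation ring,
  `Mathlib.RingTheory.WittVector.DiscreteValuationRing`; the characteristic `p = 2` lives in `W`).
* `φ ζ = ζ²`: over a ring of characteristic `p`, `frobenius = map (frobenius F p)`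
  (`WittVector.frobenius_eq_map_frobenius`), and `map f (teichmuller r) = teichmuller (f r)`.
* `ζ^(2^n-1) = 1` and `ζ^k ≠ 1` for `0 < k < 2^n-1`: `teichmuller` is multiplicative and injective
  (constant coefficient).
-/

namespace Pool.Agent.GolS

theorem exists_ring {n : ℕ} (hn : 1 ≤ n) : ∃ (W : Type) (_ : CommRing W) (_ : IsDomain W)
    (φ : W →+* W) (ζ : W), Prime (2 : W) ∧ ζ ^ (2 ^ n - 1) = 1 ∧
      (∀ k : ℕ, 0 < k → k < 2 ^ n - 1 → ζ ^ k ≠ 1) ∧ φ ζ = ζ ^ 2 := by
  have : Fact (Nat.Prime 2) := ⟨Nat.prime_two⟩
  let F := GaloisField 2 n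
  have hn0 : n ≠ 0 := by omega
  haveI : Fintype F := Fintype.ofFinite F
  have hcard : Fintype.card F = 2 ^ n := by
    rw [← Nat.card_eq_fintype_card]
    exact GaloisField.card 2 n hn0
  obtain ⟨α, hα⟩ := IsCyclic.exists_generator (α := Fˣ)
  have hord : orderOf α = 2 ^ n - 1 := by
    rw [orderOf_eq_card_of_forall_mem_zpowers hα, Nat.card_units, Nat.card_eq_fintype_card, hcard]
  have : CharP F 2 := inferInstance
  have : PerfectRing F 2 := inferInstance
  have hirr : Irreducible (2 : WittVector 2 F) := by
    have := WittVector.irreducible (p := 2) (k := F)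
    simpa using this
  refine ⟨WittVector 2 F, inferInstance, inferInstance, WittVector.frobenius,
    WittVector.teichmuller 2 (α : F), hirr.prime, ?_, ?_, ?_⟩
  · rw [← map_pow, ← Units.val_pow_eq_pow_val, ← hord, pow_orderOf_eq_one]
    simp
  · intro k hk0 hk h
    rw [← map_pow] at h
    have h0 := congrArg (fun x : WittVector 2 F => x.coeff 0) h
    simp only [WittVector.teichmuller_coeff_zero, WittVector.one_coeff_zero] at h0
    have h1 : α ^ k = 1 := by
      ext
      simpa using h0
    have := orderOf_le_of_pow_eq_one hk0 h1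
    omega
  · rw [WittVector.frobenius_eq_map_frobenius, WittVector.map_teichmuller, frobenius_def, map_pow]

end Pool.Agent.GolS
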